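import Mathlib

open MeasureTheory Filter Topology

namespace Pool.Agent.helper840_dilute

theorem glue_deriv (x : ℝ) : HasDerivAt expNegInvGlue ((x⁻¹) ^ 2 * expNegInvGlue x) x := by
  have h := expNegInvGlue.hasDerivAt_polynomial_eval_inv_mul (1 : Polynomial ℝ) x
  simpa using h

theorem glue_bound (x : ℝ) : (x⁻¹) ^ 2 * expNegInvGlue x ≤ 4 * Real.exp (-2) := by
  rcases le_or_gt x 0 with h | h
  · rw [expNegInvGlue.zero_of_nonpos h, mul_zero]; positivity
  · have e1 : expNegInvGlue x = Real.exp (-x⁻¹) := by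
      simp [expNegInvGlue, not_le.2 h]
    rw [e1]
    have hy : 0 < x⁻¹ := inv_pos.2 h
    generalize x⁻¹ = y at *
    have h1 : y / 2 ≤ Real.exp (y / 2 - 1) := by
      have := Real.add_one_le_exp (y / 2 - 1); linarith
    have h2 : (y / 2) ^ 2 ≤ Real.exp (y - 2) := by
      have h3 : (y / 2) ^ 2 ≤ (Real.exp (y / 2 - 1)) ^ 2 :=
        pow_le_pow_left₀ (by positivity) h1 2
      have h4 : (Real.exp (y / 2 - 1)) ^ 2 = Real.exp (y - 2) := by
        rw [← Real.exp_nat_mul]; congr 1; push_cast; ring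
      rwa [h4] at h3
    have h5 : Real.exp (y - 2) * Real.exp (-y) = Real.exp (-2) := by
      rw [← Real.exp_add]; congr 1; ring
    have h6 := mul_le_mul_of_nonneg_right h2 (Real.exp_pos (-y)).le
    rw [h5] at h6
    nlinarith

theorem glue_nonneg' (x : ℝ) : 0 ≤ (x⁻¹) ^ 2 * expNegInvGlue x :=
  mul_nonneg (sq_nonneg _) (expNegInvGlue.nonneg x)

theorem denom_bound (x : ℝ) : Real.exp (-2) ≤ expNegInvGlue x + expNegInvGlue (1 - x) := by
  have e1 : expNegInvGlue (1 / 2) = Real.exp (-2) := by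
    simp [expNegInvGlue]
  rcases le_total (1 / 2) x with h | h
  · have h1 := expNegInvGlue.monotone h
    have h2 := expNegInvGlue.nonneg (1 - x)
    linarith
  · have h1 := expNegInvGlue.monotone (show (1 : ℝ) / 2 ≤ 1 - x by linarith)
    have h2 := expNegInvGlue.nonneg x
    linarith

theorem transition_deriv_bound (x : ℝ) :
    ∃ d, HasDerivAt Real.smoothTransition d x ∧ |d| ≤ 4 := by
  have h1 := glue_deriv x
  have h2 : HasDerivAt (fun x : ℝ => expNegInvGlue (1 - x))
      (-(((1 - x)⁻¹) ^ 2 * expNegInvGlue (1 - x))) x := by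
    have h3 : HasDerivAt (fun x : ℝ => 1 - x) (-1) x := by
      simpa using (hasDerivAt_id x).const_sub 1
    have e : -(((1 - x)⁻¹) ^ 2 * expNegInvGlue (1 - x))
        = ((1 - x)⁻¹) ^ 2 * expNegInvGlue (1 - x) * (-1) := by ring
    rw [e]
    exact (glue_deriv (1 - x)).comp x h3
  have hpos := Real.smoothTransition.pos_denom x
  have h4 := h1.div (h1.add h2) hpos.ne'
  refine ⟨_, h4, ?_⟩
  set A := expNegInvGlue x with hA
  set B := expNegInvGlue (1 - x) with hB
  set a := (x⁻¹) ^ 2 with ha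
  set b := ((1 - x)⁻¹) ^ 2 with hb
  have hA0 : 0 ≤ A := expNegInvGlue.nonneg x
  have hB0 : 0 ≤ B := expNegInvGlue.nonneg (1 - x)
  have hAB : 0 < A + B := hpos
  have e : (a * A * (A + B) - A * (a * A + -(b * B))) / (A + B) ^ 2
      = (a * A * B + A * (b * B)) / (A + B) ^ 2 := by ring
  have g1 : a * A ≤ 4 * Real.exp (-2) := glue_bound x
  have g2 : b * B ≤ 4 * Real.exp (-2) := glue_bound (1 - x)
  have g3 : 0 ≤ a * A := glue_nonneg' x
  have g4 : 0 ≤ b * B := glue_nonneg' (1 - x)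
  have g5 := denom_bound x
  simp only [Pi.add_apply]
  rw [← hA, ← hB, e, abs_of_nonneg (by positivity), div_le_iff₀ (by positivity)]
  have i1 : a * A * B ≤ 4 * Real.exp (-2) * B := mul_le_mul_of_nonneg_right g1 hB0
  have i2 : A * (b * B) ≤ A * (4 * Real.exp (-2)) := mul_le_mul_of_nonneg_left g2 hA0
  have i3 : 4 * Real.exp (-2) * (A + B) ≤ 4 * (A + B) * (A + B) := by
    have : Real.exp (-2) * (A + B) ≤ (A + B) * (A + B) :=
      mul_le_mul_of_nonneg_right g5 hAB.le
    linarith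
  nlinarith

end Pool.Agent.helper840_dilute
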