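import Mathlib

open MeasureTheory

namespace Pool.Agent.helper840_dilute

/-- Physical space. -/
abbrev R3 := EuclideanSpace ℝ (Fin 3)

/-- Wave functions of `N` electrons with spin: a complex number for every spin configuration
(the two elements of `Bool` label the two spin values) and every configuration of positions. -/
abbrev WaveFn (N : ℕ) := (Fin N → Bool) → (Fin N → R3) → ℂ

/-- The total Coulomb energy of `N` electrons at the points `x j` and `M` nuclei with charges `Z m`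
at the points `Y m`: attraction of electrons and nuclei, repulsion of electrons, repulsion of
nuclei. -/
noncomputable def coulomb {M N : ℕ} (Y : Fin M → R3) (Z : Fin M → ℕ) (x : Fin N → R3) : ℝ :=
  -(∑ j, ∑ m, (Z m : ℝ) / ‖x j - Y m‖)
    + ∑ k, ∑ j ∈ Finset.Iio k, 1 / ‖x j - x k‖
    + ∑ m, ∑ l ∈ Finset.Iio m, (Z l : ℝ) * (Z m : ℝ) / ‖Y l - Y m‖

/-- The kinetic energy density: the sum of the squares of all `3 N` first derivatives. -/
noncomputable def kinetic {N : ℕ} (f : (Fin N → R3) → ℂ) (x : Fin N → R3) : ℝ :=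
  ∑ j, ∑ a, ‖fderiv ℝ f x (Pi.single j (EuclideanSpace.single a 1))‖ ^ 2

/-- Trial functions: smooth, compactly supported, antisymmetric under simultaneous permutations of
positions and spins, and normalised in `L^2`. -/
structure IsTrial {N : ℕ} (ψ : WaveFn N) : Prop where
  smooth : ∀ s, ContDiff ℝ (⊤ : ℕ∞) (ψ s)
  compact : ∀ s, HasCompactSupport (ψ s)
  antisymm : ∀ (σ : Equiv.Perm (Fin N)) (s : Fin N → Bool) (x : Fin N → R3),
    ψ (s ∘ σ) (x ∘ σ) = ((Equiv.Perm.sign σ : ℤ) : ℂ) * ψ s x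
  norm_one : ∑ s, ∫ x, ‖ψ s x‖ ^ 2 = 1

/-- The energy expectation of the Born-Oppenheimer Hamiltonian (units: electron mass `1/2`,
elementary charge `1`, `hbar = 1`). -/
noncomputable def energy {M N : ℕ} (Y : Fin M → R3) (Z : Fin M → ℕ) (ψ : WaveFn N) : ℝ :=
  ∑ s, ∫ x, (kinetic (ψ s) x + coulomb Y Z x * ‖ψ s x‖ ^ 2)

/-- The ground state energy `E_N(Y, Z)`, by the variational principle. -/
noncomputable def groundEnergy {M : ℕ} (Y : Fin M → R3) (Z : Fin M → ℕ) (N : ℕ) : ℝ :=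
  sInf {E : ℝ | ∃ ψ : WaveFn N, IsTrial ψ ∧ energy Y Z ψ = E}

/-- `S(N₁)`: the energy of the two pieces when `N₁` of the `N` electrons are on the first one. -/
noncomputable def splitEnergy {M₁ M₂ : ℕ} (Y₁ : Fin M₁ → R3) (Z₁ : Fin M₁ → ℕ)
    (Y₂ : Fin M₂ → R3) (Z₂ : Fin M₂ → ℕ) (N N₁ : ℕ) : ℝ :=
  groundEnergy Y₁ Z₁ N₁ + groundEnergy Y₂ Z₂ (N - N₁)

end Pool.Agent.helper840_dilute
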