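import Pool.Agent.helper840_dilute.Parts
import Pool.Agent.helper840_dilute.Defs

open MeasureTheory

namespace Pool.Agent.helper840_dilute

/-- The radial field `h(|z - y|^2) (z - y)` (component `a`). -/
noncomputable def fld (h : ℝ → ℝ) (y : R3) (a : Fin 3) (z : R3) : ℝ :=
  h (‖z - y‖ ^ 2) * (z - y) a

theorem hasFDerivAt_fld {h h' : ℝ → ℝ} (y : R3) (a : Fin 3) (z : R3)
    (hh : HasDerivAt h (h' (‖z - y‖ ^ 2)) (‖z - y‖ ^ 2)) :
    fderiv ℝ (fld h y a) z (EuclideanSpace.single a 1) =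
      2 * h' (‖z - y‖ ^ 2) * (z - y) a ^ 2 + h (‖z - y‖ ^ 2) := by
  have h1 : HasFDerivAt (fun z : R3 => z - y) (ContinuousLinearMap.id ℝ R3) z :=
    (hasFDerivAt_id z).sub_const y
  have h2 := h1.norm_sq
  have h3 : HasFDerivAt (fun z : R3 => h (‖z - y‖ ^ 2)) _ z := hh.comp_hasFDerivAt z h2
  have h4 : HasFDerivAt (fun z : R3 => (z - y) a)
      ((EuclideanSpace.proj a : R3 →L[ℝ] ℝ).comp (ContinuousLinearMap.id ℝ R3)) z :=
    (EuclideanSpace.proj a : R3 →L[ℝ] ℝ).hasFDerivAt.comp z h1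
  have h5 : HasFDerivAt (fld h y a) _ z := h3.fun_mul h4
  rw [h5.fderiv]
  simp only [add_apply, smul_apply, smul_eq_mul, ContinuousLinearMap.comp_apply,
    innerSL_apply_apply, nsmul_eq_mul, Nat.cast_ofNat, ContinuousLinearMap.id_apply]
  have h6 : (inner ℝ (z - y) (EuclideanSpace.single a (1 : ℝ)) : ℝ) = (z - y) a := by
    rw [EuclideanSpace.inner_single_right]; simp
  have h7 : (EuclideanSpace.proj a : R3 →L[ℝ] ℝ) (EuclideanSpace.single a (1 : ℝ)) = 1 := by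
    simp
  rw [h6, h7]
  ring

/-- regularised radial profile -/
noncomputable def hreg (B : ℝ → ℝ) (ε t : ℝ) : ℝ := B t / √(t + ε ^ 2)

noncomputable def hreg' (B B' : ℝ → ℝ) (ε t : ℝ) : ℝ :=
  B' t / √(t + ε ^ 2) - B t / (2 * (t + ε ^ 2) * √(t + ε ^ 2))

theorem hasDerivAt_hreg {B B' : ℝ → ℝ} {t ε : ℝ} (hB : HasDerivAt B (B' t) t) (ht : 0 ≤ t)
    (hε : 0 < ε) : HasDerivAt (hreg B ε) (hreg' B B' ε t) t := by
  have hp : 0 < t + ε ^ 2 := by positivity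
  have hs : 0 < √(t + ε ^ 2) := Real.sqrt_pos.2 hp
  have h1 : HasDerivAt (fun t => t + ε ^ 2) 1 t := (hasDerivAt_id t).add_const _
  have h2 := h1.sqrt hp.ne'
  have h3 := hB.div h2 hs.ne'
  have h4 : HasDerivAt (hreg B ε) _ t := h3
  convert h4 using 1
  unfold hreg'
  rw [Real.sq_sqrt hp.le]
  have hss : √(t + ε ^ 2) * √(t + ε ^ 2) = t + ε ^ 2 := Real.mul_self_sqrt hp.le
  field_simp
  rw [Real.sq_sqrt hp.le]

theorem contDiff_fld_hreg {B : ℝ → ℝ} (hB : ContDiff ℝ 1 B) {ε : ℝ} (hε : 0 < ε) (y : R3)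
    (a : Fin 3) : ContDiff ℝ 1 (fld (hreg B ε) y a) := by
  have n : ContDiff ℝ 1 (fun z : R3 => ‖z - y‖ ^ 2) := (contDiff_id.sub contDiff_const).norm_sq ℝ
  have h1 : ContDiff ℝ 1 (fun z : R3 => B (‖z - y‖ ^ 2)) := hB.comp n
  have h2 : ContDiff ℝ 1 (fun z : R3 => √(‖z - y‖ ^ 2 + ε ^ 2)) :=
    (n.add contDiff_const).sqrt (fun z => by positivity)
  have h3 : ContDiff ℝ 1 (fun z : R3 => (z - y) a) :=
    (EuclideanSpace.proj a : R3 →L[ℝ] ℝ).contDiff.comp (contDiff_id.sub contDiff_const)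
  exact (h1.div h2 (fun z => by positivity)).mul h3

theorem norm_sq_three (z : R3) : ‖z‖ ^ 2 = z 0 ^ 2 + z 1 ^ 2 + z 2 ^ 2 := by
  rw [EuclideanSpace.norm_sq_eq, Fin.sum_univ_three]
  simp [Real.norm_eq_abs, sq_abs]

theorem sq_sum_of_orth {ι : Type*} [Fintype ι] (c : ι → ℝ)
    (h : ∀ m l, m ≠ l → c m * c l = 0) : (∑ m, c m) ^ 2 = ∑ m, c m ^ 2 := by
  classical
  rw [sq, Finset.sum_mul_sum]
  refine Finset.sum_congr rfl (fun m _ => ?_)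
  rw [Finset.sum_eq_single m (fun l _ hl => h m l (Ne.symm hl)) (by simp), sq]

/-- The pointwise lower bound for `div F - |F|^2` coming from the field. -/
noncomputable def rhsReg {ι : Type*} [Fintype ι] (B B' : ℝ → ℝ) (y : ι → R3) (ε : ℝ) (z : R3) :
    ℝ :=
  ∑ m, (2 * B (‖z - y m‖ ^ 2) * (‖z - y m‖ ^ 2 / (√(‖z - y m‖ ^ 2 + ε ^ 2)) ^ 3)
    + 2 * B' (‖z - y m‖ ^ 2) * ‖z - y m‖ - B (‖z - y m‖ ^ 2) ^ 2)

theorem profile_ineq {b b' t r s ε : ℝ} (hb : 0 ≤ b) (hb' : b' ≤ 0) (hr : 0 ≤ r) (ht : t = r ^ 2)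
    (hs : 0 < s) (hs2 : s ^ 2 = t + ε ^ 2) :
    2 * b * (t / s ^ 3) + 2 * b' * r - b ^ 2 ≤
      2 * (b' / s - b / (2 * s ^ 2 * s)) * t + 3 * (b / s) - (b / s) ^ 2 * t := by
  have hrs : r ≤ s := by
    apply le_of_sq_le_sq _ hs.le
    rw [hs2, ht]; nlinarith [sq_nonneg ε]
  have h1 : 2 * b * (t / s ^ 3) ≤ 3 * (b / s) - 2 * (b / (2 * s ^ 2 * s)) * t := by
    have : 3 * (b / s) - 2 * (b / (2 * s ^ 2 * s)) * t - 2 * b * (t / s ^ 3)
        = 3 * b * ε ^ 2 / s ^ 3 := by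
      have : ε ^ 2 = s ^ 2 - t := by linarith
      rw [this]; field_simp; ring
    have h2 : 0 ≤ 3 * b * ε ^ 2 / s ^ 3 := by positivity
    linarith
  have h2 : 2 * b' * r ≤ 2 * (b' / s) * t := by
    have h3 : t / s ≤ r := by
      rw [div_le_iff₀ hs, ht, sq]; exact mul_le_mul_of_nonneg_left hrs hr
    have h4 : 2 * (b' / s) * t = 2 * b' * (t / s) := by ring
    rw [h4]
    nlinarith
  have h3 : (b / s) ^ 2 * t ≤ b ^ 2 := by
    have : (b / s) ^ 2 * t = b ^ 2 * (t / s ^ 2) := by ring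
    rw [this]
    have h5 : t / s ^ 2 ≤ 1 := by
      rw [div_le_one (by positivity), hs2]; nlinarith [sq_nonneg ε]
    nlinarith [sq_nonneg b]
  linarith

section

variable {V : Type*} [NormedAddCommGroup V] [NormedSpace ℝ V] [FiniteDimensional ℝ V]
  [MeasurableSpace V] [BorelSpace V] {μ : Measure V} [μ.IsAddHaarMeasure]

theorem field_pointwise {ι : Type*} [Fintype ι] {B B' : ℝ → ℝ}
    (hB : ∀ t, HasDerivAt B (B' t) t) (hB1 : ContDiff ℝ 1 B) (h0 : ∀ t, 0 ≤ t → 0 ≤ B t)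
    (h0' : ∀ t, 0 ≤ t → B' t ≤ 0)
    (y : ι → R3) (hdis : ∀ m l, m ≠ l → ∀ z : R3, B (‖z - y m‖ ^ 2) * B (‖z - y l‖ ^ 2) = 0)
    {ε : ℝ} (hε : 0 < ε) (z : R3) :
    rhsReg B B' y ε z ≤
      ∑ a, (fderiv ℝ (fun z => ∑ m, fld (hreg B ε) (y m) a z) z (EuclideanSpace.single a 1)
        - (∑ m, fld (hreg B ε) (y m) a z) ^ 2) := by
  have hd : ∀ a, fderiv ℝ (fun z => ∑ m, fld (hreg B ε) (y m) a z) z (EuclideanSpace.single a 1)
      = ∑ m, (2 * hreg' B B' ε (‖z - y m‖ ^ 2) * (z - y m) a ^ 2 + hreg B ε (‖z - y m‖ ^ 2)) := by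
    intro a
    rw [fderiv_fun_sum (fun m _ =>
      (contDiff_fld_hreg hB1 hε (y m) a).differentiable (by norm_num) z)]
    rw [sum_apply]
    refine Finset.sum_congr rfl (fun m _ => ?_)
    exact hasFDerivAt_fld (y m) a z (hasDerivAt_hreg (hB _) (by positivity) hε)
  have hs : ∀ a, (∑ m, fld (hreg B ε) (y m) a z) ^ 2
      = ∑ m, (hreg B ε (‖z - y m‖ ^ 2)) ^ 2 * (z - y m) a ^ 2 := by
    intro a
    rw [sq_sum_of_orth]
    · refine Finset.sum_congr rfl (fun m _ => ?_)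
      unfold fld; ring
    · intro m l hml
      have := hdis m l hml z
      unfold fld hreg
      have e : B (‖z - y m‖ ^ 2) / √(‖z - y m‖ ^ 2 + ε ^ 2) * (z - y m).ofLp a *
          (B (‖z - y l‖ ^ 2) / √(‖z - y l‖ ^ 2 + ε ^ 2) * (z - y l).ofLp a)
          = (B (‖z - y m‖ ^ 2) * B (‖z - y l‖ ^ 2)) * ((z - y m).ofLp a * (z - y l).ofLp a
            / (√(‖z - y m‖ ^ 2 + ε ^ 2) * √(‖z - y l‖ ^ 2 + ε ^ 2))) := by ring
      rw [e, this, zero_mul]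
  simp_rw [hd, hs, ← Finset.sum_sub_distrib]
  rw [Finset.sum_comm]
  unfold rhsReg
  refine Finset.sum_le_sum (fun m _ => ?_)
  rw [Fin.sum_univ_three]
  have hpos : 0 < ‖z - y m‖ ^ 2 + ε ^ 2 := by positivity
  have key := profile_ineq (b := B (‖z - y m‖ ^ 2)) (b' := B' (‖z - y m‖ ^ 2))
    (t := ‖z - y m‖ ^ 2) (r := ‖z - y m‖) (s := √(‖z - y m‖ ^ 2 + ε ^ 2)) (ε := ε)
    (h0 _ (by positivity)) (h0' _ (by positivity)) (norm_nonneg _) rfl (Real.sqrt_pos.2 hpos) (Real.sq_sqrt hpos.le)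
  refine key.trans (le_of_eq ?_)
  have hn := norm_sq_three (z - y m)
  unfold hreg' hreg
  rw [Real.sq_sqrt hpos.le]
  generalize √(‖z - y m‖ ^ 2 + ε ^ 2) = s at *
  rw [← sub_eq_zero]
  have : ‖z - y m‖ ^ 2 = (z - y m).ofLp 0 ^ 2 + (z - y m).ofLp 1 ^ 2 + (z - y m).ofLp 2 ^ 2 := hn
  linear_combination (2 * (B' (‖z - y m‖ ^ 2) / s
    - B (‖z - y m‖ ^ 2) / (2 * (‖z - y m‖ ^ 2 + ε ^ 2) * s)) - (B (‖z - y m‖ ^ 2) / s) ^ 2) * this

theorem field_ge {ι : Type*} [Fintype ι] {B B' : ℝ → ℝ}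
    (hB : ∀ t, HasDerivAt B (B' t) t) (hB1 : ContDiff ℝ 1 B) (hBc' : Continuous B')
    (h0 : ∀ t, 0 ≤ t → 0 ≤ B t) (h0' : ∀ t, 0 ≤ t → B' t ≤ 0)
    (y : ι → R3) (hdis : ∀ m l, m ≠ l → ∀ z : R3, B (‖z - y m‖ ^ 2) * B (‖z - y l‖ ^ 2) = 0)
    {ε : ℝ} (hε : 0 < ε) (A : V →L[ℝ] R3) (e : Fin 3 → V)
    (hA : ∀ a, A (e a) = EuclideanSpace.single a 1)
    (f : V → ℂ) (hf : ContDiff ℝ 1 f) (hc : HasCompactSupport f) :
    ∫ x, rhsReg B B' y ε (A x) * ‖f x‖ ^ 2 ∂μ ≤ ∑ a, ∫ x, ‖fderiv ℝ f x (e a)‖ ^ 2 ∂μ := by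
  set F : Fin 3 → V → ℝ := fun a x => ∑ m, fld (hreg B ε) (y m) a (A x) with hFdef
  have hG : ∀ a, ContDiff ℝ 1 (fun z => ∑ m, fld (hreg B ε) (y m) a z) := fun a =>
    ContDiff.sum (fun m _ => contDiff_fld_hreg hB1 hε (y m) a)
  have hF : ∀ a, ContDiff ℝ 1 (F a) := fun a => (hG a).comp A.contDiff
  have hFd : ∀ a x, fderiv ℝ (F a) x (e a) =
      fderiv ℝ (fun z => ∑ m, fld (hreg B ε) (y m) a z) (A x) (EuclideanSpace.single a 1) := by
    intro a x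
    have h1 : HasFDerivAt (fun z => ∑ m, fld (hreg B ε) (y m) a z) _ (A x) :=
      ((hG a).differentiable (by norm_num) (A x)).hasFDerivAt
    have h2 : HasFDerivAt (F a) _ x := h1.comp x A.hasFDerivAt
    rw [h2.fderiv, ContinuousLinearMap.comp_apply, hA]
  have hk : ∀ a, ∫ x, (fderiv ℝ (F a) x (e a) - F a x ^ 2) * ‖f x‖ ^ 2 ∂μ
      ≤ ∫ x, ‖fderiv ℝ f x (e a)‖ ^ 2 ∂μ := fun a => kinetic_ge f hf hc (F a) (hF a) (e a)
  have hint : ∀ a, Integrable (fun x => (fderiv ℝ (F a) x (e a) - F a x ^ 2) * ‖f x‖ ^ 2) μ :=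
    fun a => integrable_mul_normsq hf.continuous hc
      ((continuous_dir (hF a) (e a)).sub ((hF a).continuous.pow 2))
  have hrc : Continuous (fun x => rhsReg B B' y ε (A x)) := by
    unfold rhsReg
    have hBc : Continuous B := hB1.continuous
    have hs : ∀ m, Continuous (fun x => ‖A x - y m‖ ^ 2) := fun m => by fun_prop
    refine continuous_finsetSum _ (fun m _ => ?_)
    have h1 : Continuous (fun x => √(‖A x - y m‖ ^ 2 + ε ^ 2)) := by fun_prop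
    have h2 : Continuous (fun x => ‖A x - y m‖ ^ 2 / (√(‖A x - y m‖ ^ 2 + ε ^ 2)) ^ 3) :=
      (hs m).div (h1.pow 3) (fun x => by positivity)
    have h3 : Continuous (fun x => ‖A x - y m‖) := by fun_prop
    exact (((continuous_const.mul (hBc.comp (hs m))).mul h2).add
      ((continuous_const.mul (hBc'.comp (hs m))).mul h3)).sub ((hBc.comp (hs m)).pow 2)
  calc ∫ x, rhsReg B B' y ε (A x) * ‖f x‖ ^ 2 ∂μ
      ≤ ∫ x, ∑ a, (fderiv ℝ (F a) x (e a) - F a x ^ 2) * ‖f x‖ ^ 2 ∂μ := by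
        refine integral_mono (integrable_mul_normsq hf.continuous hc hrc)
          (integrable_finsetSum _ (fun a _ => hint a)) (fun x => ?_)
        show rhsReg B B' y ε (A x) * ‖f x‖ ^ 2 ≤
          ∑ a, (fderiv ℝ (F a) x (e a) - F a x ^ 2) * ‖f x‖ ^ 2
        rw [← Finset.sum_mul]
        refine mul_le_mul_of_nonneg_right ?_ (by positivity)
        refine (field_pointwise hB hB1 h0 h0' y hdis hε (A x)).trans (le_of_eq ?_)
        refine Finset.sum_congr rfl (fun a _ => ?_)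
        rw [hFd a x]
    _ = ∑ a, ∫ x, (fderiv ℝ (F a) x (e a) - F a x ^ 2) * ‖f x‖ ^ 2 ∂μ :=
        integral_finsetSum _ (fun a _ => hint a)
    _ ≤ ∑ a, ∫ x, ‖fderiv ℝ f x (e a)‖ ^ 2 ∂μ := Finset.sum_le_sum (fun a _ => hk a)

end

end Pool.Agent.helper840_dilute
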