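import Pool.Agent.helper840_dilute.Field

open MeasureTheory Filter Topology

namespace Pool.Agent.helper840_dilute

/-- Integrability of a Gaussian on three-space. -/
theorem integrable_gauss (w : R3) {b : ℝ} (hb : 0 < b) :
    Integrable (fun z : R3 => Real.exp (-b * ‖z - w‖ ^ 2)) := by
  have h1 : Integrable (fun z : R3 => Real.exp (-b * ‖z‖ ^ 2)) := by
    have h := GaussianFourier.integrable_cexp_neg_mul_sq_norm_add (V := R3) (b := (b : ℂ))
      (by simpa using hb) 0 0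
    have h2 := h.re
    refine h2.congr (ae_of_all _ (fun z => ?_))
    have : (-(b : ℂ) * (‖z‖ : ℂ) ^ 2 + 0 * ((inner ℝ (0 : R3) z : ℝ) : ℂ))
        = ((-b * ‖z‖ ^ 2 : ℝ) : ℂ) := by push_cast; ring
    show RCLike.re (Complex.exp (-(b : ℂ) * (‖z‖ : ℂ) ^ 2 + 0 * ((inner ℝ (0 : R3) z : ℝ) : ℂ)))
      = Real.exp (-b * ‖z‖ ^ 2)
    rw [this, ← Complex.ofReal_exp]
    exact Complex.ofReal_re _
  exact h1.comp_sub_right w

theorem gauss_pos {b : ℝ} (hb : 0 < b) : 0 < ∫ z : R3, Real.exp (-b * ‖z‖ ^ 2) := by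
  rw [GaussianFourier.integral_rexp_neg_mul_sq_norm hb]
  positivity

theorem gauss_prod (x y z : R3) (c : ℝ) :
    Real.exp (-c * ‖z - x‖ ^ 2) * Real.exp (-c * ‖z - y‖ ^ 2)
      = Real.exp (-(c / 2) * ‖x - y‖ ^ 2) *
        Real.exp (-(2 * c) * ‖z - (1 / 2 : ℝ) • (x + y)‖ ^ 2) := by
  rw [← Real.exp_add, ← Real.exp_add]
  congr 1
  have hp := parallelogram_law_with_norm ℝ (z - x) (z - y)
  have e1 : z - x - (z - y) = -(x - y) := by abel
  have e2 : z - x + (z - y) = (2 : ℝ) • (z - (1 / 2 : ℝ) • (x + y)) := by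
    rw [smul_sub, smul_smul, two_smul]; norm_num; abel
  rw [e1, e2, norm_neg, norm_smul] at hp
  have : ‖(2 : ℝ)‖ = 2 := by norm_num
  rw [this] at hp
  have hp' : 4 * ‖z - (1 / 2 : ℝ) • (x + y)‖ ^ 2 + ‖x - y‖ ^ 2
      = 2 * (‖z - x‖ ^ 2 + ‖z - y‖ ^ 2) := by nlinarith [hp]
  linear_combination (-(c / 2)) * hp'.symm

/-- Gaussians are positive definite. -/
theorem gauss_posDef {ι : Type*} [Fintype ι] (q : ι → ℝ) (p : ι → R3) (c : ℝ) (hc : 0 ≤ c) :
    0 ≤ ∑ i, ∑ j, q i * q j * Real.exp (-c * ‖p i - p j‖ ^ 2) := by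
  rcases eq_or_lt_of_le hc with h | h
  · subst h
    have : ∑ i, ∑ j, q i * q j * Real.exp (-0 * ‖p i - p j‖ ^ 2) = (∑ i, q i) ^ 2 := by
      rw [sq, Finset.sum_mul_sum]
      simp
    rw [this]; positivity
  · have hI : ∀ i j, Integrable (fun z : R3 => Real.exp (-(2 * c) * ‖z - p i‖ ^ 2) *
        Real.exp (-(2 * c) * ‖z - p j‖ ^ 2)) := by
      intro i j
      simp_rw [gauss_prod]
      exact (integrable_gauss _ (by positivity)).const_mul _
    have hK : ∀ i j, ∫ z : R3, Real.exp (-(2 * c) * ‖z - p i‖ ^ 2) *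
        Real.exp (-(2 * c) * ‖z - p j‖ ^ 2) =
        Real.exp (-c * ‖p i - p j‖ ^ 2) * ∫ z : R3, Real.exp (-(4 * c) * ‖z‖ ^ 2) := by
      intro i j
      simp_rw [gauss_prod]
      rw [integral_const_mul]
      congr 1
      · congr 1; ring
      · rw [← integral_sub_right_eq_self (fun z : R3 => Real.exp (-(4 * c) * ‖z‖ ^ 2))
          ((1 / 2 : ℝ) • (p i + p j))]
        congr 1; ext z; congr 1; ring
    have hpos := gauss_pos (b := 4 * c) (by positivity)
    have hsq : 0 ≤ ∫ z : R3, (∑ i, q i * Real.exp (-(2 * c) * ‖z - p i‖ ^ 2)) ^ 2 :=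
      integral_nonneg (fun z => by positivity)
    have hexp : ∫ z : R3, (∑ i, q i * Real.exp (-(2 * c) * ‖z - p i‖ ^ 2)) ^ 2
        = (∑ i, ∑ j, q i * q j * Real.exp (-c * ‖p i - p j‖ ^ 2)) *
          ∫ z : R3, Real.exp (-(4 * c) * ‖z‖ ^ 2) := by
      have e1 : ∀ z : R3, (∑ i, q i * Real.exp (-(2 * c) * ‖z - p i‖ ^ 2)) ^ 2
          = ∑ i, ∑ j, (q i * q j) * (Real.exp (-(2 * c) * ‖z - p i‖ ^ 2) *
            Real.exp (-(2 * c) * ‖z - p j‖ ^ 2)) := by
        intro z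
        rw [sq, Finset.sum_mul_sum]
        refine Finset.sum_congr rfl (fun i _ => Finset.sum_congr rfl (fun j _ => by ring))
      simp_rw [e1]
      rw [integral_finsetSum _ (fun i _ => integrable_finsetSum _
        (fun j _ => (hI i j).const_mul _)), Finset.sum_mul]
      refine Finset.sum_congr rfl (fun i _ => ?_)
      rw [integral_finsetSum _ (fun j _ => (hI i j).const_mul _), Finset.sum_mul]
      refine Finset.sum_congr rfl (fun j _ => ?_)
      rw [integral_const_mul, hK]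
      ring
    rw [hexp] at hsq
    exact nonneg_of_mul_nonneg_left hsq hpos

/-- The long range part of the Coulomb kernel. -/
noncomputable def Lk (a r : ℝ) : ℝ :=
  2 / √Real.pi * ∫ u in (0 : ℝ)..(1 / a), Real.exp (-(u ^ 2) * r ^ 2)

theorem Lk_posDef {ι : Type*} [Fintype ι] (q : ι → ℝ) (p : ι → R3) {a : ℝ} (ha : 0 < a) :
    0 ≤ ∑ i, ∑ j, q i * q j * Lk a ‖p i - p j‖ := by
  have h1 : ∑ i, ∑ j, q i * q j * Lk a ‖p i - p j‖ =
      2 / √Real.pi * ∫ u in (0 : ℝ)..(1 / a),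
        ∑ i, ∑ j, q i * q j * Real.exp (-(u ^ 2) * ‖p i - p j‖ ^ 2) := by
    have hc : ∀ i j, Continuous (fun u : ℝ => q i * q j * Real.exp (-(u ^ 2) * ‖p i - p j‖ ^ 2)) :=
      fun i j => by fun_prop
    rw [intervalIntegral.integral_finsetSum
      (fun i _ => (continuous_finsetSum _ (fun j _ => hc i j)).intervalIntegrable _ _),
      Finset.mul_sum]
    refine Finset.sum_congr rfl (fun i _ => ?_)
    rw [intervalIntegral.integral_finsetSum (fun j _ => (hc i j).intervalIntegrable _ _),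
      Finset.mul_sum]
    refine Finset.sum_congr rfl (fun j _ => ?_)
    unfold Lk
    rw [intervalIntegral.integral_const_mul]
    ring
  rw [h1]
  refine mul_nonneg (by positivity) ?_
  refine intervalIntegral.integral_nonneg (by positivity) (fun u _ => ?_)
  exact gauss_posDef q p (u ^ 2) (sq_nonneg u)

theorem Lk_nonneg {a : ℝ} (ha : 0 < a) (r : ℝ) : 0 ≤ Lk a r := by
  unfold Lk
  refine mul_nonneg (by positivity) ?_
  exact intervalIntegral.integral_nonneg (by positivity) (fun u _ => (Real.exp_pos _).le)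

theorem Lk_le {a : ℝ} (ha : 0 < a) (r : ℝ) : Lk a r ≤ 2 / √Real.pi / a := by
  unfold Lk
  have hc : Continuous (fun u : ℝ => Real.exp (-(u ^ 2) * r ^ 2)) := by fun_prop
  have h1 : ∫ u in (0 : ℝ)..(1 / a), Real.exp (-(u ^ 2) * r ^ 2) ≤ ∫ u in (0 : ℝ)..(1 / a), 1 := by
    refine intervalIntegral.integral_mono_on (by positivity) (hc.intervalIntegrable _ _)
      (continuous_const.intervalIntegrable _ _) (fun u _ => ?_)
    rw [Real.exp_le_one_iff]
    nlinarith [mul_nonneg (sq_nonneg u) (sq_nonneg r)]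
  have h2 : ∫ u in (0 : ℝ)..(1 / a), (1 : ℝ) = 1 / a := by simp
  rw [h2] at h1
  calc 2 / √Real.pi * ∫ u in (0 : ℝ)..(1 / a), Real.exp (-(u ^ 2) * r ^ 2)
      ≤ 2 / √Real.pi * (1 / a) := mul_le_mul_of_nonneg_left h1 (by positivity)
    _ = 2 / √Real.pi / a := by ring

theorem Lk_zero {a : ℝ} : Lk a 0 = 2 / √Real.pi / a := by
  unfold Lk
  simp
  ring

theorem Lk_ge {a : ℝ} (ha : 0 < a) (r : ℝ) :
    2 / √Real.pi / a - 2 / √Real.pi * (r ^ 2 / (3 * a ^ 3)) ≤ Lk a r := by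
  unfold Lk
  have hc : Continuous (fun u : ℝ => Real.exp (-(u ^ 2) * r ^ 2)) := by fun_prop
  have hc2 : Continuous (fun u : ℝ => 1 - r ^ 2 * u ^ 2) := by fun_prop
  have h1 : ∫ u in (0 : ℝ)..(1 / a), (1 - r ^ 2 * u ^ 2)
      ≤ ∫ u in (0 : ℝ)..(1 / a), Real.exp (-(u ^ 2) * r ^ 2) := by
    refine intervalIntegral.integral_mono_on (by positivity) (hc2.intervalIntegrable _ _)
      (hc.intervalIntegrable _ _) (fun u _ => ?_)
    have := Real.add_one_le_exp (-(u ^ 2) * r ^ 2)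
    linarith
  have h2 : ∫ u in (0 : ℝ)..(1 / a), (1 - r ^ 2 * u ^ 2) = 1 / a - r ^ 2 * ((1 / a) ^ 3 / 3) := by
    have hd1 : Continuous (fun u : ℝ => r ^ 2 * u ^ 2) := by fun_prop
    have hd0 : Continuous (fun _ : ℝ => (1 : ℝ)) := continuous_const
    rw [intervalIntegral.integral_sub (hd0.intervalIntegrable _ _)
      (hd1.intervalIntegrable _ _), intervalIntegral.integral_const_mul, integral_pow]
    simp
    norm_num
  rw [h2] at h1
  have e : 2 / √Real.pi / a - 2 / √Real.pi * (r ^ 2 / (3 * a ^ 3))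
      = 2 / √Real.pi * (1 / a - r ^ 2 * ((1 / a) ^ 3 / 3)) := by
    field_simp
  rw [e]
  exact mul_le_mul_of_nonneg_left h1 (by positivity)

theorem inv_sub_Lk {a r : ℝ} (ha : 0 < a) (hr : 0 < r) :
    1 / r - Lk a r = 2 / √Real.pi * ∫ u in Set.Ioi (1 / a), Real.exp (-(r ^ 2) * u ^ 2) := by
  have hint : Integrable (fun u : ℝ => Real.exp (-(r ^ 2) * u ^ 2)) :=
    integrable_exp_neg_mul_sq (by positivity)
  have h1 := integral_gaussian_Ioi (r ^ 2)
  have h2 : ∫ u in Set.Ioi (0 : ℝ), Real.exp (-(r ^ 2) * u ^ 2) =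
      (∫ u in (0 : ℝ)..(1 / a), Real.exp (-(r ^ 2) * u ^ 2))
        + ∫ u in Set.Ioi (1 / a), Real.exp (-(r ^ 2) * u ^ 2) := by
    rw [intervalIntegral.integral_of_le (by positivity)]
    rw [← setIntegral_union (Set.Ioc_disjoint_Ioi le_rfl) measurableSet_Ioi
      hint.integrableOn hint.integrableOn]
    rw [Set.Ioc_union_Ioi_eq_Ioi (by positivity)]
  have h3 : 1 / r = 2 / √Real.pi * ∫ u in Set.Ioi (0 : ℝ), Real.exp (-(r ^ 2) * u ^ 2) := by
    rw [h1, Real.sqrt_div Real.pi_pos.le, Real.sqrt_sq hr.le]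
    have : √Real.pi ≠ 0 := (Real.sqrt_pos.2 Real.pi_pos).ne'
    field_simp
  have h4 : Lk a r = 2 / √Real.pi * ∫ u in (0 : ℝ)..(1 / a), Real.exp (-(r ^ 2) * u ^ 2) := by
    unfold Lk
    congr 1
    refine intervalIntegral.integral_congr (fun u _ => ?_)
    show Real.exp (-(u ^ 2) * r ^ 2) = Real.exp (-(r ^ 2) * u ^ 2)
    congr 1; ring
  rw [h3, h4, h2]; ring

theorem Gk_nonneg {a r : ℝ} (ha : 0 < a) (hr : 0 < r) : 0 ≤ 1 / r - Lk a r := by
  rw [inv_sub_Lk ha hr]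
  exact mul_nonneg (by positivity) (integral_nonneg (fun u => (Real.exp_pos _).le))

theorem Gk_le {a r : ℝ} (ha : 0 < a) (hr : 0 < r) :
    1 / r - Lk a r ≤ 2 / √Real.pi * (a / (2 * r ^ 2) * Real.exp (-(r / a) ^ 2)) := by
  rw [inv_sub_Lk ha hr]
  refine mul_le_mul_of_nonneg_left ?_ (by positivity)
  have hr2 : 0 < r ^ 2 := by positivity
  set g : ℝ → ℝ := fun u => -(a / (2 * r ^ 2)) * Real.exp (-(r ^ 2) * u ^ 2) with hg
  have hd : ∀ u ∈ Set.Ici (1 / a), HasDerivAt g (a * u * Real.exp (-(r ^ 2) * u ^ 2)) u := by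
    intro u _
    have h1 : HasDerivAt (fun u : ℝ => -(r ^ 2) * u ^ 2) (-(r ^ 2) * (2 * u)) u := by
      have := (hasDerivAt_pow 2 u).const_mul (-(r ^ 2))
      simpa using this
    have h2 := h1.exp.const_mul (-(a / (2 * r ^ 2)))
    have h3 : HasDerivAt g _ u := h2
    convert h3 using 1
    field_simp
  have hpos : ∀ u ∈ Set.Ioi (1 / a), 0 ≤ a * u * Real.exp (-(r ^ 2) * u ^ 2) := by
    intro u hu
    have : 0 < u := lt_trans (by positivity) hu
    positivity
  have hlim : Tendsto g atTop (𝓝 0) := by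
    have h1 : Tendsto (fun u : ℝ => -(r ^ 2) * u ^ 2) atTop atBot := by
      have : Tendsto (fun u : ℝ => r ^ 2 * u ^ 2) atTop atTop :=
        (tendsto_pow_atTop (by norm_num)).const_mul_atTop hr2
      have h2 := tendsto_neg_atTop_atBot.comp this
      refine h2.congr (fun u => ?_)
      simp
    have h2 := (Real.tendsto_exp_atBot.comp h1).const_mul (-(a / (2 * r ^ 2)))
    rw [mul_zero] at h2
    exact h2
  have h5 := integral_Ioi_of_hasDerivAt_of_nonneg' hd hpos hlim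
  have h6 := integrableOn_Ioi_deriv_of_nonneg' hd hpos hlim
  have h7 : ∫ u in Set.Ioi (1 / a), Real.exp (-(r ^ 2) * u ^ 2)
      ≤ ∫ u in Set.Ioi (1 / a), a * u * Real.exp (-(r ^ 2) * u ^ 2) := by
    refine setIntegral_mono_on (integrable_exp_neg_mul_sq hr2).integrableOn h6 measurableSet_Ioi
      (fun u hu => ?_)
    have h8 : 1 ≤ a * u := by
      have : 1 / a < u := hu
      rw [div_lt_iff₀ ha] at this
      linarith
    have := Real.exp_pos (-(r ^ 2) * u ^ 2)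
    nlinarith
  refine h7.trans (le_of_eq ?_)
  rw [h5, hg]
  have e : -(r ^ 2) * (1 / a) ^ 2 = -(r / a) ^ 2 := by ring
  simp only [e]
  ring

end Pool.Agent.helper840_dilute
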