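import Pool.Agent.helper840_dilute.Field

open MeasureTheory Filter Topology

namespace Pool.Agent.helper840_dilute

theorem fatou_real {α : Type*} [MeasurableSpace α] {μ : Measure α} {h : ℕ → α → ℝ} {g : α → ℝ}
    {C : ℝ} (hi : ∀ n, Integrable (h n) μ) (h0 : ∀ n x, 0 ≤ h n x) (g0 : ∀ x, 0 ≤ g x)
    (hlim : ∀ x, Tendsto (fun n => h n x) atTop (𝓝 (g x)))
    (hC : ∀ n, ∫ x, h n x ∂μ ≤ C) : Integrable g μ ∧ ∫ x, g x ∂μ ≤ C := by
  have hm : AEStronglyMeasurable g μ :=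
    aestronglyMeasurable_of_tendsto_ae atTop (fun n => (hi n).1) (ae_of_all _ hlim)
  have hC0 : 0 ≤ C := le_trans (integral_nonneg (h0 0)) (hC 0)
  have key : ∫⁻ x, ENNReal.ofReal (g x) ∂μ ≤ ENNReal.ofReal C := by
    have h1 : ∫⁻ x, liminf (fun n => ENNReal.ofReal (h n x)) atTop ∂μ
        ≤ liminf (fun n => ∫⁻ x, ENNReal.ofReal (h n x) ∂μ) atTop :=
      lintegral_liminf_le' (fun n => (hi n).1.aemeasurable.ennreal_ofReal)
    have h2 : ∀ x, liminf (fun n => ENNReal.ofReal (h n x)) atTop = ENNReal.ofReal (g x) :=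
      fun x => ((ENNReal.continuous_ofReal.tendsto _).comp (hlim x)).liminf_eq
    simp_rw [h2] at h1
    refine h1.trans ?_
    have h3 : ∀ n, ∫⁻ x, ENNReal.ofReal (h n x) ∂μ ≤ ENNReal.ofReal C := by
      intro n
      rw [← ofReal_integral_eq_lintegral_ofReal (hi n) (ae_of_all _ (h0 n))]
      exact ENNReal.ofReal_le_ofReal (hC n)
    calc liminf (fun n => ∫⁻ x, ENNReal.ofReal (h n x) ∂μ) atTop
        ≤ liminf (fun _ : ℕ => ENNReal.ofReal C) atTop :=
          liminf_le_liminf (Eventually.of_forall h3)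
      _ = ENNReal.ofReal C := liminf_const _
  have hgi : Integrable g μ := by
    refine ⟨hm, ?_⟩
    rw [hasFiniteIntegral_iff_ofReal (ae_of_all _ g0)]
    exact lt_of_le_of_lt key ENNReal.ofReal_lt_top
  refine ⟨hgi, ?_⟩
  rw [← ofReal_integral_eq_lintegral_ofReal hgi (ae_of_all _ g0)] at key
  exact (ENNReal.ofReal_le_ofReal_iff hC0).1 key

/-- The limiting profile, as a function of the distance. -/
noncomputable def qprof (B B' : ℝ → ℝ) (r : ℝ) : ℝ :=
  2 * B (r ^ 2) / r + 2 * B' (r ^ 2) * r - B (r ^ 2) ^ 2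

theorem tendsto_reg (t : ℝ) (r : ℝ) (hr : 0 ≤ r) (htr : t = r ^ 2) :
    Tendsto (fun n : ℕ => t / (√(t + (1 / ((n : ℝ) + 1)) ^ 2)) ^ 3) atTop (𝓝 (1 / r)) := by
  rcases eq_or_lt_of_le hr with h | h
  · subst h
    simp [htr]
  · have h1 : Tendsto (fun n : ℕ => t + (1 / ((n : ℝ) + 1)) ^ 2) atTop (𝓝 (t + 0 ^ 2)) :=
      (tendsto_one_div_add_atTop_nhds_zero_nat.pow 2).const_add t
    have h2 : Tendsto (fun n : ℕ => √(t + (1 / ((n : ℝ) + 1)) ^ 2)) atTop (𝓝 r) := by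
      have := (Real.continuous_sqrt.tendsto _).comp h1
      have e : √(t + 0 ^ 2) = r := by
        rw [htr]; simp [Real.sqrt_sq hr]
      rw [e] at this
      exact this
    have h3 := (tendsto_const_nhds (x := t)).div (h2.pow 3) (by positivity)
    have e : t / r ^ 3 = 1 / r := by rw [htr]; field_simp
    rw [e] at h3
    exact h3

section

variable {V : Type*} [NormedAddCommGroup V] [NormedSpace ℝ V] [FiniteDimensional ℝ V]
  [MeasurableSpace V] [BorelSpace V] {μ : Measure V} [μ.IsAddHaarMeasure]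

theorem field_lim {ι : Type*} [Fintype ι] {B B' : ℝ → ℝ}
    (hB : ∀ t, HasDerivAt B (B' t) t) (hB1 : ContDiff ℝ 1 B) (hBc' : Continuous B')
    (h0 : ∀ t, 0 ≤ t → 0 ≤ B t) (h0' : ∀ t, 0 ≤ t → B' t ≤ 0)
    (y : ι → R3) (hdis : ∀ m l, m ≠ l → ∀ z : R3, B (‖z - y m‖ ^ 2) * B (‖z - y l‖ ^ 2) = 0)
    (A : V →L[ℝ] R3) (e : Fin 3 → V)
    (hA : ∀ a, A (e a) = EuclideanSpace.single a 1)
    (f : V → ℂ) (hf : ContDiff ℝ 1 f) (hc : HasCompactSupport f) :
    Integrable (fun x => (∑ m, 2 * B (‖A x - y m‖ ^ 2) / ‖A x - y m‖) * ‖f x‖ ^ 2) μ ∧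
    Integrable (fun x => (∑ m, qprof B B' ‖A x - y m‖) * ‖f x‖ ^ 2) μ ∧
    ∫ x, (∑ m, qprof B B' ‖A x - y m‖) * ‖f x‖ ^ 2 ∂μ
      ≤ ∑ a, ∫ x, ‖fderiv ℝ f x (e a)‖ ^ 2 ∂μ := by
  have hBc : Continuous B := hB1.continuous
  have hs : ∀ m, Continuous (fun x => ‖A x - y m‖ ^ 2) := fun m => by fun_prop
  -- the regular part
  set G : V → ℝ := fun x => ∑ m, (2 * B' (‖A x - y m‖ ^ 2) * ‖A x - y m‖
    - B (‖A x - y m‖ ^ 2) ^ 2) with hG
  have hGc : Continuous G := by
    refine continuous_finsetSum _ (fun m _ => ?_)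
    have h3 : Continuous (fun x => ‖A x - y m‖) := by fun_prop
    exact ((continuous_const.mul (hBc'.comp (hs m))).mul h3).sub ((hBc.comp (hs m)).pow 2)
  have hGi : Integrable (fun x => G x * ‖f x‖ ^ 2) μ := integrable_mul_normsq hf.continuous hc hGc
  set P : ℕ → V → ℝ := fun n x => (∑ m, 2 * B (‖A x - y m‖ ^ 2) *
    (‖A x - y m‖ ^ 2 / (√(‖A x - y m‖ ^ 2 + (1 / ((n : ℝ) + 1)) ^ 2)) ^ 3)) * ‖f x‖ ^ 2 with hP
  have hPi : ∀ n, Integrable (P n) μ := by
    intro n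
    refine integrable_mul_normsq hf.continuous hc ?_
    refine continuous_finsetSum _ (fun m _ => ?_)
    have h1 : Continuous (fun x => √(‖A x - y m‖ ^ 2 + (1 / ((n : ℝ) + 1)) ^ 2)) := by fun_prop
    have h2 : Continuous (fun x => ‖A x - y m‖ ^ 2 /
        (√(‖A x - y m‖ ^ 2 + (1 / ((n : ℝ) + 1)) ^ 2)) ^ 3) :=
      (hs m).div (h1.pow 3) (fun x => by positivity)
    exact (continuous_const.mul (hBc.comp (hs m))).mul h2
  have hbound : ∀ n, ∫ x, P n x ∂μ ≤
      ∑ a, ∫ x, ‖fderiv ℝ f x (e a)‖ ^ 2 ∂μ - ∫ x, G x * ‖f x‖ ^ 2 ∂μ := by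
    intro n
    have h1 := field_ge (μ := μ) hB hB1 hBc' h0 h0' y hdis
      (ε := 1 / ((n : ℝ) + 1)) (by positivity) A e hA f hf hc
    have h2 : ∀ x, rhsReg B B' y (1 / ((n : ℝ) + 1)) (A x) * ‖f x‖ ^ 2
        = P n x + G x * ‖f x‖ ^ 2 := by
      intro x
      simp only [rhsReg, hP, hG]
      rw [← add_mul, ← Finset.sum_add_distrib]
      congr 1
      refine Finset.sum_congr rfl (fun m _ => ?_)
      ring
    simp_rw [h2] at h1
    rw [integral_add (hPi n) hGi] at h1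
    linarith
  have hfat := fatou_real (μ := μ) (h := P)
    (g := fun x => (∑ m, 2 * B (‖A x - y m‖ ^ 2) / ‖A x - y m‖) * ‖f x‖ ^ 2) hPi
    (fun n x => by
      simp only [hP]
      refine mul_nonneg (Finset.sum_nonneg (fun m _ => ?_)) (by positivity)
      have := h0 (‖A x - y m‖ ^ 2) (by positivity)
      positivity)
    (fun x => by
      refine mul_nonneg (Finset.sum_nonneg (fun m _ => ?_)) (by positivity)
      have := h0 (‖A x - y m‖ ^ 2) (by positivity)
      positivity)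
    (fun x => by
      simp only [hP]
      refine Tendsto.mul_const _ ?_
      refine tendsto_finsetSum _ (fun m _ => ?_)
      have := (tendsto_reg (‖A x - y m‖ ^ 2) ‖A x - y m‖ (norm_nonneg _)
        rfl).const_mul (2 * B (‖A x - y m‖ ^ 2))
      rw [mul_one_div] at this
      exact this)
    hbound
  have hsplit : ∀ x, (∑ m, qprof B B' ‖A x - y m‖) * ‖f x‖ ^ 2
      = (∑ m, 2 * B (‖A x - y m‖ ^ 2) / ‖A x - y m‖) * ‖f x‖ ^ 2 + G x * ‖f x‖ ^ 2 := by
    intro x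
    simp only [hG, qprof]
    rw [← add_mul, ← Finset.sum_add_distrib]
    congr 1
    refine Finset.sum_congr rfl (fun m _ => ?_)
    ring
  refine ⟨hfat.1, ?_, ?_⟩
  · simp_rw [hsplit]
    exact hfat.1.add hGi
  · simp_rw [hsplit]
    rw [integral_add hfat.1 hGi]
    linarith [hfat.2]

/-- Local integrability of the Coulomb singularity against a test function. -/
theorem integrable_coulomb (y : R3) (A : V →L[ℝ] R3) (e : Fin 3 → V)
    (hA : ∀ a, A (e a) = EuclideanSpace.single a 1)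
    (f : V → ℂ) (hf : ContDiff ℝ 1 f) (hc : HasCompactSupport f) :
    Integrable (fun x => 1 / ‖A x - y‖ * ‖f x‖ ^ 2) μ := by
  have h := (field_lim (μ := μ) (ι := Unit) (B := fun _ => 1 / 2) (B' := fun _ => 0)
    (fun t => hasDerivAt_const t _) contDiff_const continuous_const (fun _ _ => by norm_num)
    (fun _ _ => le_refl _) (fun _ => y) (fun m l hml => absurd (Subsingleton.elim m l) hml)
    A e hA f hf hc).1
  simpa using h

end

end Pool.Agent.helper840_dilute
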