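import Pool.Agent.helper840_dilute.Pointwise

open MeasureTheory Filter Topology

namespace Pool.Agent.helper840_dilute

theorem ae_distinct (k : ℕ) : ∀ᵐ x : Fin k → R3, ∀ i j, i ≠ j → x i ≠ x j := by
  rw [ae_all_iff]; intro i
  rw [ae_all_iff]; intro j
  by_cases hij : i = j
  · exact ae_of_all _ (fun x h => absurd hij h)
  · have h1 : (volume : Measure (Fin k → R3)) (LinearMap.ker
        ((LinearMap.proj i : (Fin k → R3) →ₗ[ℝ] R3) - LinearMap.proj j)) = 0 := by
      apply Measure.addHaar_submodule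
      intro htop
      have h2 : (Pi.single i (EuclideanSpace.single 0 1) : Fin k → R3) ∈
          LinearMap.ker ((LinearMap.proj i : (Fin k → R3) →ₗ[ℝ] R3) - LinearMap.proj j) := by
        rw [htop]; trivial
      rw [LinearMap.mem_ker] at h2
      simp only [LinearMap.sub_apply, LinearMap.proj_apply, Pi.single_eq_same,
        Pi.single_eq_of_ne (Ne.symm hij), sub_zero] at h2
      have h3 := congrArg (fun v : R3 => v 0) h2
      simp at h3
    have h4 : {x : Fin k → R3 | ¬(i ≠ j → x i ≠ x j)} ⊆ (LinearMap.ker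
        ((LinearMap.proj i : (Fin k → R3) →ₗ[ℝ] R3) - LinearMap.proj j) : Set (Fin k → R3)) := by
      intro x hx
      simp only [Set.mem_ofPred_eq, not_forall, not_not] at hx
      obtain ⟨_, hx⟩ := hx
      simp [LinearMap.mem_ker, hx]
    exact measure_mono_null h4 h1

variable {k : ℕ}

theorem integrable_en (f : (Fin k → R3) → ℂ) (hf : ContDiff ℝ 1 f) (hc : HasCompactSupport f)
    (j : Fin k) (y : R3) : Integrable (fun x : Fin k → R3 => 1 / ‖x j - y‖ * ‖f x‖ ^ 2) :=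
  integrable_coulomb (μ := volume) y (ContinuousLinearMap.proj j : (Fin k → R3) →L[ℝ] R3)
    (fun a => Pi.single j (EuclideanSpace.single a 1)) (fun a => by simp) f hf hc

theorem integrable_ee (f : (Fin k → R3) → ℂ) (hf : ContDiff ℝ 1 f) (hc : HasCompactSupport f)
    (i j : Fin k) (hij : i ≠ j) :
    Integrable (fun x : Fin k → R3 => 1 / ‖x i - x j‖ * ‖f x‖ ^ 2) := by
  have h := integrable_coulomb (μ := volume) 0
    ((ContinuousLinearMap.proj i : (Fin k → R3) →L[ℝ] R3) - ContinuousLinearMap.proj j)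
    (fun a => Pi.single i (EuclideanSpace.single a 1)) (fun a => by
      simp [Pi.single_eq_of_ne (Ne.symm hij)]) f hf hc
  simpa using h

theorem integrable_pot {m : ℕ} (Y : Fin m → R3) (Z : Fin m → ℕ) (f : (Fin k → R3) → ℂ)
    (hf : ContDiff ℝ 1 f) (hc : HasCompactSupport f) :
    Integrable (fun x : Fin k → R3 => coulomb Y Z x * ‖f x‖ ^ 2) := by
  have h1 : Integrable (fun x : Fin k → R3 => ∑ j, ∑ l, (Z l : ℝ) * (1 / ‖x j - Y l‖ * ‖f x‖ ^ 2)) :=
    integrable_finsetSum _ (fun j _ => integrable_finsetSum _ (fun l _ =>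
      (integrable_en f hf hc j (Y l)).const_mul _))
  have h2 : Integrable (fun x : Fin k → R3 => ∑ i, ∑ j ∈ Finset.Iio i,
      (1 / ‖x j - x i‖ * ‖f x‖ ^ 2)) :=
    integrable_finsetSum _ (fun i _ => integrable_finsetSum _ (fun j hj =>
      integrable_ee f hf hc j i (ne_of_lt (Finset.mem_Iio.1 hj))))
  have h3 : Integrable (fun x : Fin k → R3 =>
      (∑ i, ∑ j ∈ Finset.Iio i, (Z j : ℝ) * (Z i : ℝ) / ‖Y j - Y i‖) * ‖f x‖ ^ 2) :=
    integrable_mul_normsq hf.continuous hc continuous_const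
  refine ((h1.neg.add h2).add h3).congr (ae_of_all _ (fun x => ?_))
  simp only [Pi.add_apply, Pi.neg_apply, coulomb, add_mul, neg_mul, Finset.sum_mul]
  congr 3
  refine Finset.sum_congr rfl (fun j _ => Finset.sum_congr rfl (fun l _ => by ring))

theorem integrable_kinetic (f : (Fin k → R3) → ℂ) (hf : ContDiff ℝ 1 f)
    (hc : HasCompactSupport f) : Integrable (fun x => kinetic f x) :=
  integrable_finsetSum _ (fun _ _ => integrable_finsetSum _ (fun _ _ => integrable_dir hf hc _))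

theorem integral_kinetic (f : (Fin k → R3) → ℂ) (hf : ContDiff ℝ 1 f)
    (hc : HasCompactSupport f) : ∫ x, kinetic f x =
      ∑ j, ∑ a, ∫ x, ‖fderiv ℝ f x (Pi.single j (EuclideanSpace.single a 1))‖ ^ 2 := by
  unfold kinetic
  rw [integral_finsetSum _ (fun _ _ => integrable_finsetSum _
    (fun _ _ => integrable_dir hf hc _))]
  refine Finset.sum_congr rfl (fun j _ => ?_)
  rw [integral_finsetSum _ (fun _ _ => integrable_dir hf hc _)]

variable {m n : ℕ} {T r₁ b a R κ δ δ₁ η g : ℝ}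

theorem nbody_lower (h : Good m n T r₁ b a R κ δ δ₁ η g) (Y : Fin m → R3)
    (hR : 0 < R) (hY : ∀ l l', l ≠ l' → R ≤ ‖Y l - Y l'‖)
    (f : (Fin k → R3) → ℂ) (hf : ContDiff ℝ 1 f) (hc : HasCompactSupport f) :
    (-((k : ℝ) / 4) - k * δ + κ * max ((k : ℝ) - m) 0 + ((k : ℝ) - m) * L0 a / 2)
      * ∫ x, ‖f x‖ ^ 2 ≤
      ∫ x, (kinetic f x + coulomb Y (fun _ => 1) x * ‖f x‖ ^ 2) := by
  have hT := h.hTpos
  have hdis : ∀ l l', l ≠ l' → ∀ z : R3,
      prof n T (‖z - Y l‖ ^ 2) * prof n T (‖z - Y l'‖ ^ 2) = 0 := by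
    intro l l' hll z
    by_contra hne
    have hne1 := left_ne_zero_of_mul hne
    have hne2 := right_ne_zero_of_mul hne
    have h1 : ‖z - Y l‖ ^ 2 < T := by
      by_contra hcon; push Not at hcon; exact hne1 (prof_eq_zero hT hcon)
    have h2 : ‖z - Y l'‖ ^ 2 < T := by
      by_contra hcon; push Not at hcon; exact hne2 (prof_eq_zero hT hcon)
    rw [h.hT] at h1 h2
    have h3 := lt_of_pow_lt_pow_left₀ 2 h.hr₁.le h1
    have h4 := lt_of_pow_lt_pow_left₀ 2 h.hr₁.le h2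
    have h5 : ‖Y l - Y l'‖ ≤ ‖z - Y l‖ + ‖z - Y l'‖ := by
      have : Y l - Y l' = -(z - Y l) + (z - Y l') := by abel
      rw [this]
      refine (norm_add_le _ _).trans ?_
      rw [norm_neg]
    have h6 := hY l l' hll
    have h7 := h.hR
    have h8 := h.hr₁
    linarith
  have hfl : ∀ j : Fin k, Integrable (fun x : Fin k → R3 =>
      (∑ l, qn n T ‖x j - Y l‖) * ‖f x‖ ^ 2) ∧
      ∫ x : Fin k → R3, (∑ l, qn n T ‖x j - Y l‖) * ‖f x‖ ^ 2
        ≤ ∑ a, ∫ x, ‖fderiv ℝ f x (Pi.single j (EuclideanSpace.single a 1))‖ ^ 2 := by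
    intro j
    have := field_lim (μ := (volume : Measure (Fin k → R3))) (B := prof n T) (B' := prof' n T)
      (hasDerivAt_prof n T)
      (contDiff_prof n T) (continuous_prof' n T) (fun t _ => prof_nonneg n T t)
      (fun t ht => prof'_nonpos n hT t ht) Y hdis
      (ContinuousLinearMap.proj j : (Fin k → R3) →L[ℝ] R3)
      (fun a => Pi.single j (EuclideanSpace.single a 1)) (fun a => by simp) f hf hc
    exact this.2
  have hpot := integrable_pot Y (fun _ => 1) f hf hc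
  have hQ : Integrable (fun x : Fin k → R3 => ∑ j, (∑ l, qn n T ‖x j - Y l‖) * ‖f x‖ ^ 2) :=
    integrable_finsetSum _ (fun j _ => (hfl j).1)
  have hnorm : Integrable (fun x : Fin k → R3 => ‖f x‖ ^ 2) := by
    have := integrable_mul_normsq (μ := (volume : Measure (Fin k → R3))) hf.continuous hc
      (continuous_const (y := (1 : ℝ)))
    simpa using this
  have h1 : ∫ x : Fin k → R3, ∑ j, (∑ l, qn n T ‖x j - Y l‖) * ‖f x‖ ^ 2
      ≤ ∫ x, kinetic f x := by
    rw [integral_kinetic f hf hc, integral_finsetSum _ (fun j _ => (hfl j).1)]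
    exact Finset.sum_le_sum (fun j _ => (hfl j).2)
  rw [integral_add (integrable_kinetic f hf hc) hpot]
  have h2 : ∫ x : Fin k → R3, (-((k : ℝ) / 4) - k * δ + κ * max ((k : ℝ) - m) 0
      + ((k : ℝ) - m) * L0 a / 2) * ‖f x‖ ^ 2
      ≤ ∫ x : Fin k → R3, ((∑ j, (∑ l, qn n T ‖x j - Y l‖) * ‖f x‖ ^ 2)
        + coulomb Y (fun _ => 1) x * ‖f x‖ ^ 2) := by
    refine integral_mono_ae (hnorm.const_mul _) (hQ.add hpot) ?_
    filter_upwards [ae_distinct k] with x hx
    have h3 := pointwise_lower h Y hR hY x hx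
    have h4 := mul_le_mul_of_nonneg_right h3 (sq_nonneg ‖f x‖)
    rw [← Finset.sum_mul, ← add_mul]
    exact h4
  rw [integral_add hQ hpot, integral_const_mul] at h2
  linarith

theorem energy_lower (h : Good m n T r₁ b a R κ δ δ₁ η g) (Y : Fin m → R3)
    (hR : 0 < R) (hY : ∀ l l', l ≠ l' → R ≤ ‖Y l - Y l'‖) (ψ : WaveFn k) (hψ : IsTrial ψ) :
    (-((k : ℝ) / 4) - k * δ + κ * max ((k : ℝ) - m) 0 + ((k : ℝ) - m) * L0 a / 2)
      ≤ energy Y (fun _ => 1) ψ := by
  unfold energy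
  have h1 := Finset.sum_le_sum (fun s (_ : s ∈ (Finset.univ : Finset (Fin k → Bool))) =>
    nbody_lower h Y hR hY (ψ s) ((hψ.smooth s).of_le (by exact_mod_cast le_top)) (hψ.compact s))
  rw [← Finset.mul_sum, hψ.norm_one, mul_one] at h1
  exact h1

theorem bddBelow_energy (h : Good m n T r₁ b a R κ δ δ₁ η g) (Y : Fin m → R3)
    (hR : 0 < R) (hY : ∀ l l', l ≠ l' → R ≤ ‖Y l - Y l'‖) (k : ℕ) :
    BddBelow {E : ℝ | ∃ ψ : WaveFn k, IsTrial ψ ∧ energy Y (fun _ => 1) ψ = E} := by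
  refine ⟨-((k : ℝ) / 4) - k * δ + κ * max ((k : ℝ) - m) 0 + ((k : ℝ) - m) * L0 a / 2,
    fun E hE => ?_⟩
  obtain ⟨ψ, hψ, rfl⟩ := hE
  exact energy_lower h Y hR hY ψ hψ

theorem groundEnergy_lower (h : Good m n T r₁ b a R κ δ δ₁ η g) (Y : Fin m → R3)
    (hR : 0 < R) (hY : ∀ l l', l ≠ l' → R ≤ ‖Y l - Y l'‖) (k : ℕ)
    (hneg : (-((k : ℝ) / 4) - k * δ + κ * max ((k : ℝ) - m) 0 + ((k : ℝ) - m) * L0 a / 2) ≤ 0) :
    (-((k : ℝ) / 4) - k * δ + κ * max ((k : ℝ) - m) 0 + ((k : ℝ) - m) * L0 a / 2)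
      ≤ groundEnergy Y (fun _ => 1) k := by
  unfold groundEnergy
  rcases Set.eq_empty_or_nonempty
    {E : ℝ | ∃ ψ : WaveFn k, IsTrial ψ ∧ energy Y (fun _ => 1) ψ = E} with he | he
  · rw [he, Real.sInf_empty]; exact hneg
  · refine le_csInf he (fun E hE => ?_)
    obtain ⟨ψ, hψ, rfl⟩ := hE
    exact energy_lower h Y hR hY ψ hψ

end Pool.Agent.helper840_dilute
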