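import Pool.Agent.helper840_dilute.Field

open MeasureTheory Filter Topology

namespace Pool.Agent.helper840_dilute

/-- regularised Coulomb kernel -/
noncomputable def Kε (ε : ℝ) (z : R3) : ℝ := 1 / √(‖z‖ ^ 2 + ε ^ 2)

noncomputable def hK (ε t : ℝ) : ℝ := -(1 / (√(t + ε ^ 2)) ^ 3)

noncomputable def hK' (ε t : ℝ) : ℝ := 3 / 2 / (√(t + ε ^ 2)) ^ 5

theorem hasDerivAt_hK {ε t : ℝ} (hε : 0 < ε) (ht : 0 ≤ t) : HasDerivAt (hK ε) (hK' ε t) t := by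
  have hp : 0 < t + ε ^ 2 := by positivity
  have hs : 0 < √(t + ε ^ 2) := Real.sqrt_pos.2 hp
  have h1 : HasDerivAt (fun t => t + ε ^ 2) 1 t := (hasDerivAt_id t).add_const _
  have h2 := h1.sqrt hp.ne'
  have h3 := (h2.pow 3).inv (pow_pos hs 3).ne'
  have h4 : HasDerivAt (fun t => -((√(t + ε ^ 2)) ^ 3)⁻¹) _ t := h3.neg
  have h5 : hK ε = fun t => -((√(t + ε ^ 2)) ^ 3)⁻¹ := by
    funext t; unfold hK; rw [one_div]
  rw [h5]
  convert h4 using 1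
  unfold hK'
  simp only [Pi.pow_apply]
  norm_num
  field_simp

/-- Gradient of the regularised kernel. -/
theorem Kε_deriv {ε : ℝ} (hε : 0 < ε) (z : R3) :
    DifferentiableAt ℝ (Kε ε) z ∧
      ∀ v, fderiv ℝ (Kε ε) z v = hK ε (‖z‖ ^ 2) * inner ℝ z v := by
  have hp : 0 < ‖z‖ ^ 2 + ε ^ 2 := by positivity
  have hs : 0 < √(‖z‖ ^ 2 + ε ^ 2) := Real.sqrt_pos.2 hp
  have h1 : HasFDerivAt (fun z : R3 => ‖z‖ ^ 2 + ε ^ 2) _ z :=
    (hasFDerivAt_id z).norm_sq.add_const (ε ^ 2)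
  have h2 := h1.sqrt hp.ne'
  have h3 : HasDerivAt (fun s : ℝ => 1 / s) (-(1 / (√(‖z‖ ^ 2 + ε ^ 2)) ^ 2))
      (√(‖z‖ ^ 2 + ε ^ 2)) := by
    have := hasDerivAt_inv hs.ne'
    simp only [one_div]
    exact this
  have h4 : HasFDerivAt (Kε ε) _ z := h3.comp_hasFDerivAt z h2
  refine ⟨h4.differentiableAt, fun v => ?_⟩
  rw [h4.fderiv]
  simp only [hK, smul_apply, smul_eq_mul, nsmul_eq_mul, Nat.cast_ofNat, innerSL_apply_apply,
    ContinuousLinearMap.comp_apply, ContinuousLinearMap.id_apply, id]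
  field_simp

theorem contDiff_fld_hK {ε : ℝ} (hε : 0 < ε) (a : Fin 3) : ContDiff ℝ 1 (fld (hK ε) 0 a) := by
  have n : ContDiff ℝ 1 (fun z : R3 => ‖z - 0‖ ^ 2) := (contDiff_id.sub contDiff_const).norm_sq ℝ
  have h2 : ContDiff ℝ 1 (fun z : R3 => √(‖z - 0‖ ^ 2 + ε ^ 2)) :=
    (n.add contDiff_const).sqrt (fun z => by positivity)
  have h3 : ContDiff ℝ 1 (fun z : R3 => (z - 0) a) :=
    (EuclideanSpace.proj a : R3 →L[ℝ] ℝ).contDiff.comp (contDiff_id.sub contDiff_const)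
  have h4 : ContDiff ℝ 1 (fun z : R3 => -(1 / (√(‖z - 0‖ ^ 2 + ε ^ 2)) ^ 3)) :=
    (contDiff_const.div (h2.pow 3) (fun z => by positivity)).neg
  exact h4.mul h3

theorem div_fld_hK {ε : ℝ} (hε : 0 < ε) (z : R3) :
    ∑ a, fderiv ℝ (fld (hK ε) 0 a) z (EuclideanSpace.single a 1)
      = -(3 * ε ^ 2 / (√(‖z‖ ^ 2 + ε ^ 2)) ^ 5) := by
  have h : ∀ a, fderiv ℝ (fld (hK ε) 0 a) z (EuclideanSpace.single a 1)
      = 2 * hK' ε (‖z‖ ^ 2) * z a ^ 2 + hK ε (‖z‖ ^ 2) := by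
    intro a
    have := hasFDerivAt_fld (h := hK ε) (h' := hK' ε) 0 a z
      (by rw [sub_zero]; exact hasDerivAt_hK hε (by positivity))
    simpa using this
  simp_rw [h]
  rw [Fin.sum_univ_three]
  have hn := norm_sq_three z
  have hp : 0 < ‖z‖ ^ 2 + ε ^ 2 := by positivity
  have hs : 0 < √(‖z‖ ^ 2 + ε ^ 2) := Real.sqrt_pos.2 hp
  have hs2 : √(‖z‖ ^ 2 + ε ^ 2) ^ 2 = ‖z‖ ^ 2 + ε ^ 2 := Real.sq_sqrt hp.le
  unfold hK hK'
  have e : ε ^ 2 = √(‖z‖ ^ 2 + ε ^ 2) ^ 2 - (z.ofLp 0 ^ 2 + z.ofLp 1 ^ 2 + z.ofLp 2 ^ 2) := by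
    rw [hs2, ← hn]; ring
  generalize √(‖z‖ ^ 2 + ε ^ 2) = s at *
  rw [e]
  field_simp
  ring

theorem fld_hK_eq (ε : ℝ) (a : Fin 3) (z : R3) : fld (hK ε) 0 a z = hK ε (‖z‖ ^ 2) * z a := by
  simp [fld]

theorem hK_bound {ε : ℝ} (hε : 0 < ε) (z v : R3) :
    |hK ε (‖z‖ ^ 2) * inner ℝ z v| ≤ ‖v‖ / ε ^ 2 := by
  have hp : 0 < ‖z‖ ^ 2 + ε ^ 2 := by positivity
  have hs : 0 < √(‖z‖ ^ 2 + ε ^ 2) := Real.sqrt_pos.2 hp
  have hs2 : √(‖z‖ ^ 2 + ε ^ 2) ^ 2 = ‖z‖ ^ 2 + ε ^ 2 := Real.sq_sqrt hp.le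
  have hzs : ‖z‖ ≤ √(‖z‖ ^ 2 + ε ^ 2) := Real.le_sqrt_of_sq_le (by nlinarith [sq_nonneg ε])
  have hεs : ε ^ 2 ≤ √(‖z‖ ^ 2 + ε ^ 2) ^ 2 := by rw [hs2]; nlinarith [sq_nonneg ‖z‖]
  have h1 : |inner ℝ z v| ≤ ‖z‖ * ‖v‖ := abs_real_inner_le_norm z v
  have h2 : |hK ε (‖z‖ ^ 2)| = 1 / √(‖z‖ ^ 2 + ε ^ 2) ^ 3 := by
    unfold hK; rw [abs_neg, abs_of_nonneg (by positivity)]
  rw [abs_mul, h2]
  calc 1 / √(‖z‖ ^ 2 + ε ^ 2) ^ 3 * |inner ℝ z v|
      ≤ 1 / √(‖z‖ ^ 2 + ε ^ 2) ^ 3 * (√(‖z‖ ^ 2 + ε ^ 2) * ‖v‖) := by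
        refine mul_le_mul_of_nonneg_left ?_ (by positivity)
        exact h1.trans (mul_le_mul_of_nonneg_right hzs (norm_nonneg v))
    _ = ‖v‖ / √(‖z‖ ^ 2 + ε ^ 2) ^ 2 := by field_simp
    _ ≤ ‖v‖ / ε ^ 2 := by
        apply div_le_div_of_nonneg_left (norm_nonneg v) (by positivity) hεs

section

variable {V : Type*} [NormedAddCommGroup V] [NormedSpace ℝ V] [FiniteDimensional ℝ V]
  [MeasurableSpace V] [BorelSpace V] {μ : Measure V} [μ.IsAddHaarMeasure]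

/-- Data for the one-coordinate form of Newton's theorem. -/
structure Dil (p B₀ : V →L[ℝ] R3) (e : Fin 3 → V) (c : R3) (ω Θ : ℝ → ℝ) (W : V → ℝ) : Prop where
  hp : ∀ a, p (e a) = EuclideanSpace.single a 1
  hB : ∀ a, B₀ (e a) = 0
  hω : Continuous ω
  hΘ : ∀ t, HasDerivAt Θ (ω t / 2) t
  hW : ContDiff ℝ 1 W
  hWe : ∀ x a, fderiv ℝ W x (e a) = 0
  hc : HasCompactSupport (fun x => ω (‖p x - c‖ ^ 2) * W x)
  hcΘ : HasCompactSupport (fun x => Θ (‖p x - c‖ ^ 2) * W x)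

variable {p B₀ : V →L[ℝ] R3} {e : Fin 3 → V} {c : R3} {ω Θ : ℝ → ℝ} {W : V → ℝ}

omit [FiniteDimensional ℝ V] [MeasurableSpace V] [BorelSpace V] in
theorem Dil.contΘ (h : Dil p B₀ e c ω Θ W) : ContDiff ℝ 1 Θ := by
  rw [contDiff_one_iff_deriv]
  refine ⟨fun t => (h.hΘ t).differentiableAt, ?_⟩
  have : deriv Θ = fun t => ω t / 2 := funext fun t => (h.hΘ t).deriv
  rw [this]; exact h.hω.div_const 2

/-- integration by parts for the dilation derivative -/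
theorem Dil.parts (h : Dil p B₀ e c ω Θ W) (b₀ : R3) {ε : ℝ} (hε : 0 < ε) (t : ℝ) (a : Fin 3) :
    ∫ x, ω (‖p x - c‖ ^ 2) * W x * ((p x - c) a * fld (hK ε) 0 a (t • (p x - c) - (B₀ x + b₀))) ∂μ
    = -(t * ∫ x, Θ (‖p x - c‖ ^ 2) * W x *
        fderiv ℝ (fld (hK ε) 0 a) (t • (p x - c) - (B₀ x + b₀)) (EuclideanSpace.single a 1) ∂μ) := by
  set ξ : V → R3 := fun x => t • (p x - c) - (B₀ x + b₀) with hξ
  have hξc : ContDiff ℝ 1 ξ := by
    have h1 : ContDiff ℝ 1 (fun x => p x - c) := p.contDiff.sub contDiff_const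
    have h2 : ContDiff ℝ 1 (fun x => B₀ x + b₀) := B₀.contDiff.add contDiff_const
    exact (h1.const_smul t).sub h2
  have hξd : ∀ x, HasFDerivAt ξ (t • p - B₀) x := by
    intro x
    have h1 : HasFDerivAt (fun x => p x - c) p x := p.hasFDerivAt.sub_const c
    have h2 : HasFDerivAt (fun x => B₀ x + b₀) B₀ x := B₀.hasFDerivAt.add_const b₀
    exact (h1.const_smul t).sub h2
  have hn : ContDiff ℝ 1 (fun x => ‖p x - c‖ ^ 2) :=
    (p.contDiff.sub contDiff_const).norm_sq ℝ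
  set g : V → ℝ := fun x => Θ (‖p x - c‖ ^ 2) * W x * fld (hK ε) 0 a (ξ x) with hg
  have hgc : ContDiff ℝ 1 g :=
    ((h.contΘ.comp hn).mul h.hW).mul ((contDiff_fld_hK hε a).comp hξc)
  have hgs : HasCompactSupport g := h.hcΘ.mul_right
  have hz := integral_fderiv_zero (μ := μ) g hgc hgs (e a)
  have hder : ∀ x, fderiv ℝ g x (e a) =
      ω (‖p x - c‖ ^ 2) * W x * ((p x - c) a * fld (hK ε) 0 a (ξ x))
      + t * (Θ (‖p x - c‖ ^ 2) * W x *
        fderiv ℝ (fld (hK ε) 0 a) (ξ x) (EuclideanSpace.single a 1)) := by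
    intro x
    have h0 : HasFDerivAt (fun x => p x - c) p x := p.hasFDerivAt.sub_const c
    have h1 : HasFDerivAt (fun x => Θ (‖p x - c‖ ^ 2)) _ x :=
      (h.hΘ (‖p x - c‖ ^ 2)).comp_hasFDerivAt x h0.norm_sq
    have h2 : HasFDerivAt W (fderiv ℝ W x) x :=
      (h.hW.differentiable (by norm_num) x).hasFDerivAt
    have h3 : HasFDerivAt (fun x => fld (hK ε) 0 a (ξ x)) _ x :=
      (((contDiff_fld_hK hε a).differentiable (by norm_num) (ξ x)).hasFDerivAt).comp x (hξd x)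
    have h4 : HasFDerivAt g _ x := (h1.fun_mul h2).fun_mul h3
    rw [h4.fderiv]
    have h6 : (inner ℝ (p x - c) (EuclideanSpace.single a (1 : ℝ)) : ℝ) = (p x - c) a := by
      rw [EuclideanSpace.inner_single_right]; simp
    simp only [add_apply, smul_apply, smul_eq_mul, ContinuousLinearMap.comp_apply, sub_apply,
      innerSL_apply_apply, nsmul_eq_mul, Nat.cast_ofNat, h.hp, h.hB, h.hWe, sub_zero,
      map_smul, h6]
    ring
  have hξcont : Continuous ξ := hξc.continuous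
  have hcpt1 : Integrable (fun x => ω (‖p x - c‖ ^ 2) * W x *
      ((p x - c) a * fld (hK ε) 0 a (ξ x))) μ := by
    have hca : Continuous (fun x => (p x - c) a) := by fun_prop
    have hcont : Continuous (fun x => ω (‖p x - c‖ ^ 2) * W x *
      ((p x - c) a * fld (hK ε) 0 a (ξ x))) :=
      ((h.hω.comp hn.continuous).mul h.hW.continuous).mul
        (hca.mul ((contDiff_fld_hK hε a).continuous.comp hξcont))
    exact hcont.integrable_of_hasCompactSupport h.hc.mul_right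
  have hcpt2 : Integrable (fun x => Θ (‖p x - c‖ ^ 2) * W x *
      fderiv ℝ (fld (hK ε) 0 a) (ξ x) (EuclideanSpace.single a 1)) μ := by
    have hcont : Continuous (fun x => Θ (‖p x - c‖ ^ 2) * W x *
      fderiv ℝ (fld (hK ε) 0 a) (ξ x) (EuclideanSpace.single a 1)) :=
      ((h.contΘ.continuous.comp hn.continuous).mul h.hW.continuous).mul
        ((continuous_dir (contDiff_fld_hK hε a) _).comp hξcont)
    exact hcont.integrable_of_hasCompactSupport h.hcΘ.mul_right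
  simp_rw [hder] at hz
  rw [integral_add hcpt1 (hcpt2.const_mul t), integral_const_mul] at hz
  linarith

/-- Derivative of the averaged regularised Coulomb kernel under dilation of one coordinate. -/
theorem Dil.hasDerivAt (h : Dil p B₀ e c ω Θ W) (b₀ : R3) {ε : ℝ} (hε : 0 < ε) (t : ℝ) :
    HasDerivAt (fun t => ∫ x, ω (‖p x - c‖ ^ 2) * W x *
        Kε ε (t • (p x - c) - (B₀ x + b₀)) ∂μ)
      (3 * ε ^ 2 * t * ∫ x, Θ (‖p x - c‖ ^ 2) * W x /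
        (√(‖t • (p x - c) - (B₀ x + b₀)‖ ^ 2 + ε ^ 2)) ^ 5 ∂μ) t := by
  have hn : ContDiff ℝ 1 (fun x => ‖p x - c‖ ^ 2) :=
    (p.contDiff.sub contDiff_const).norm_sq ℝ
  have hKc : Continuous (Kε ε) :=
    continuous_iff_continuousAt.2 (fun z => (Kε_deriv hε z).1.continuousAt)
  have hξcont : ∀ t : ℝ, Continuous (fun x => t • (p x - c) - (B₀ x + b₀)) := by
    intro t; fun_prop
  have hωW : Continuous (fun x => ω (‖p x - c‖ ^ 2) * W x) :=
    (h.hω.comp hn.continuous).mul h.hW.continuous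
  have hFc : ∀ t : ℝ, Continuous (fun x => ω (‖p x - c‖ ^ 2) * W x *
      Kε ε (t • (p x - c) - (B₀ x + b₀))) := fun t => hωW.mul (hKc.comp (hξcont t))
  have hnc : Continuous (fun x => ‖p x - c‖ / ε ^ 2) := by fun_prop
  have hhK : Continuous (fun z : R3 => hK ε (‖z‖ ^ 2)) := by
    unfold hK
    have h1 : Continuous (fun z : R3 => √(‖z‖ ^ 2 + ε ^ 2)) := by fun_prop
    have h2 : Continuous (fun z : R3 => (√(‖z‖ ^ 2 + ε ^ 2)) ^ 3) := h1.pow 3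
    exact (continuous_const.div h2 (fun z => by positivity)).neg
  have hF'c : Continuous (fun x => ω (‖p x - c‖ ^ 2) * W x *
      (hK ε (‖t • (p x - c) - (B₀ x + b₀)‖ ^ 2) *
        inner ℝ (t • (p x - c) - (B₀ x + b₀)) (p x - c))) := by
    refine hωW.mul ((hhK.comp (hξcont t)).mul ?_)
    exact (hξcont t).inner (by fun_prop)
  have key := hasDerivAt_integral_of_dominated_loc_of_deriv_le (μ := μ) (x₀ := t)
    (s := Set.univ) (F := fun t x => ω (‖p x - c‖ ^ 2) * W x *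
      Kε ε (t • (p x - c) - (B₀ x + b₀)))
    (F' := fun t x => ω (‖p x - c‖ ^ 2) * W x *
      (hK ε (‖t • (p x - c) - (B₀ x + b₀)‖ ^ 2) *
        inner ℝ (t • (p x - c) - (B₀ x + b₀)) (p x - c)))
    (bound := fun x => ‖ω (‖p x - c‖ ^ 2) * W x‖ * (‖p x - c‖ / ε ^ 2)) Filter.univ_mem
    (Filter.Eventually.of_forall (fun t => (hFc t).aestronglyMeasurable))
    ((hFc t).integrable_of_hasCompactSupport h.hc.mul_right)
    hF'c.aestronglyMeasurable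
    (ae_of_all _ (fun x t _ => by
      rw [norm_mul]
      refine mul_le_mul_of_nonneg_left ?_ (norm_nonneg _)
      rw [Real.norm_eq_abs]
      exact hK_bound hε _ _))
    ((hωW.norm.mul hnc).integrable_of_hasCompactSupport h.hc.norm.mul_right)
    (ae_of_all _ (fun x t _ => by
      have h1 : HasDerivAt (fun t : ℝ => t • (p x - c) - (B₀ x + b₀)) (p x - c) t := by
        have := ((hasDerivAt_id t).smul_const (p x - c)).sub_const (B₀ x + b₀)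
        simpa using this
      have h2 := (Kε_deriv hε (t • (p x - c) - (B₀ x + b₀))).1.hasFDerivAt.comp_hasDerivAt t h1
      rw [(Kε_deriv hε _).2] at h2
      exact h2.const_mul _))
  suffices hval : 3 * ε ^ 2 * t * ∫ x, Θ (‖p x - c‖ ^ 2) * W x /
      (√(‖t • (p x - c) - (B₀ x + b₀)‖ ^ 2 + ε ^ 2)) ^ 5 ∂μ =
      ∫ x, ω (‖p x - c‖ ^ 2) * W x *
      (hK ε (‖t • (p x - c) - (B₀ x + b₀)‖ ^ 2) *
        inner ℝ (t • (p x - c) - (B₀ x + b₀)) (p x - c)) ∂μ by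
    rw [hval]; exact key.2
  have e1 : ∀ x, ω (‖p x - c‖ ^ 2) * W x *
      (hK ε (‖t • (p x - c) - (B₀ x + b₀)‖ ^ 2) *
        inner ℝ (t • (p x - c) - (B₀ x + b₀)) (p x - c)) =
      ∑ a, ω (‖p x - c‖ ^ 2) * W x * ((p x - c) a *
        fld (hK ε) 0 a (t • (p x - c) - (B₀ x + b₀))) := by
    intro x
    rw [← Finset.mul_sum]
    congr 1
    simp_rw [fld_hK_eq]
    rw [PiLp.inner_apply, Finset.mul_sum]
    refine Finset.sum_congr rfl (fun a _ => ?_)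
    simp only [RCLike.inner_apply, conj_trivial]
    ring
  simp_rw [e1]
  have hca : ∀ a : Fin 3, Continuous (fun x => (p x - c) a) := fun a => by fun_prop
  rw [integral_finsetSum _ (fun a _ => by
    have hcont : Continuous (fun x => ω (‖p x - c‖ ^ 2) * W x *
      ((p x - c) a * fld (hK ε) 0 a (t • (p x - c) - (B₀ x + b₀)))) :=
      hωW.mul ((hca a).mul ((contDiff_fld_hK hε a).continuous.comp (hξcont t)))
    exact hcont.integrable_of_hasCompactSupport h.hc.mul_right)]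
  simp_rw [h.parts (μ := μ) b₀ hε t]
  rw [Finset.sum_neg_distrib, ← Finset.mul_sum]
  have hΘW : Continuous (fun x => Θ (‖p x - c‖ ^ 2) * W x) :=
    (h.contΘ.continuous.comp hn.continuous).mul h.hW.continuous
  rw [← integral_finsetSum _ (fun a _ => by
    have hcont : Continuous (fun x => Θ (‖p x - c‖ ^ 2) * W x *
      fderiv ℝ (fld (hK ε) 0 a) (t • (p x - c) - (B₀ x + b₀)) (EuclideanSpace.single a 1)) :=
      hΘW.mul ((continuous_dir (contDiff_fld_hK hε a) _).comp (hξcont t))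
    exact hcont.integrable_of_hasCompactSupport h.hcΘ.mul_right)]
  have e2 : ∀ x, ∑ a, Θ (‖p x - c‖ ^ 2) * W x *
      fderiv ℝ (fld (hK ε) 0 a) (t • (p x - c) - (B₀ x + b₀)) (EuclideanSpace.single a 1)
      = (-(3 * ε ^ 2)) * (Θ (‖p x - c‖ ^ 2) * W x /
        (√(‖t • (p x - c) - (B₀ x + b₀)‖ ^ 2 + ε ^ 2)) ^ 5) := fun x => by
    rw [← Finset.mul_sum, div_fld_hK hε]; ring
  simp_rw [e2]
  rw [integral_const_mul]
  ring

theorem Kε_close {ε d : ℝ} (hε : 0 < ε) (hd : 0 < d) (z : R3) (hz : d ≤ ‖z‖) :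
    |1 / ‖z‖ - Kε ε z| ≤ ε ^ 2 / d ^ 3 := by
  have hzp : 0 < ‖z‖ := lt_of_lt_of_le hd hz
  have hp : 0 < ‖z‖ ^ 2 + ε ^ 2 := by positivity
  have hs : 0 < √(‖z‖ ^ 2 + ε ^ 2) := Real.sqrt_pos.2 hp
  have hs2 : √(‖z‖ ^ 2 + ε ^ 2) ^ 2 = ‖z‖ ^ 2 + ε ^ 2 := Real.sq_sqrt hp.le
  have hzs : ‖z‖ ≤ √(‖z‖ ^ 2 + ε ^ 2) := Real.le_sqrt_of_sq_le (by nlinarith [sq_nonneg ε])
  unfold Kε
  generalize √(‖z‖ ^ 2 + ε ^ 2) = s at *
  have e1 : 1 / ‖z‖ - 1 / s = ε ^ 2 / (‖z‖ * s * (s + ‖z‖)) := by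
    have : ε ^ 2 = s ^ 2 - ‖z‖ ^ 2 := by linarith
    rw [this]; field_simp; ring
  rw [e1, abs_of_nonneg (by positivity)]
  apply div_le_div_of_nonneg_left (by positivity) (by positivity)
  have h1 : d * d ≤ ‖z‖ * s := mul_le_mul hz (hz.trans hzs) hd.le hzp.le
  have h2 : d ≤ s + ‖z‖ := by linarith
  calc d ^ 3 = d * d * d := by ring
    _ ≤ ‖z‖ * s * (s + ‖z‖) := mul_le_mul h1 h2 hd.le (by positivity)

/-- Newton's theorem, one coordinate at a time. -/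
theorem Dil.newton (h : Dil p B₀ e c ω Θ W) (b₀ : R3) {d : ℝ} (hd : 0 < d)
    (h1 : ∀ x, ω (‖p x - c‖ ^ 2) * W x ≠ 0 → ∀ t ∈ Set.Icc (0 : ℝ) 1,
      d ≤ ‖t • (p x - c) - (B₀ x + b₀)‖)
    (h2 : ∀ x, Θ (‖p x - c‖ ^ 2) * W x ≠ 0 → ∀ t ∈ Set.Icc (0 : ℝ) 1,
      d ≤ ‖t • (p x - c) - (B₀ x + b₀)‖) :
    ∫ x, ω (‖p x - c‖ ^ 2) * W x * (1 / ‖(p x - c) - (B₀ x + b₀)‖) ∂μ
      = ∫ x, ω (‖p x - c‖ ^ 2) * W x * (1 / ‖B₀ x + b₀‖) ∂μ := by
  have hn : ContDiff ℝ 1 (fun x => ‖p x - c‖ ^ 2) :=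
    (p.contDiff.sub contDiff_const).norm_sq ℝ
  have hωW : Continuous (fun x => ω (‖p x - c‖ ^ 2) * W x) :=
    (h.hω.comp hn.continuous).mul h.hW.continuous
  have hΘW : Continuous (fun x => Θ (‖p x - c‖ ^ 2) * W x) :=
    (h.contΘ.continuous.comp hn.continuous).mul h.hW.continuous
  have hiω : Integrable (fun x => |ω (‖p x - c‖ ^ 2) * W x|) μ :=
    (hωW.integrable_of_hasCompactSupport h.hc).abs
  have hiΘ : Integrable (fun x => |Θ (‖p x - c‖ ^ 2) * W x|) μ :=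
    (hΘW.integrable_of_hasCompactSupport h.hcΘ).abs
  have hξcont : ∀ t : ℝ, Continuous (fun x => t • (p x - c) - (B₀ x + b₀)) := by
    intro t; fun_prop
  have hKc : ∀ {ε : ℝ}, 0 < ε → Continuous (Kε ε) := fun hε =>
    continuous_iff_continuousAt.2 (fun z => (Kε_deriv hε z).1.continuousAt)
  -- closeness of the regularised and the true integrals
  have hclose : ∀ ε : ℝ, 0 < ε → ∀ t ∈ Set.Icc (0 : ℝ) 1,
      |∫ x, ω (‖p x - c‖ ^ 2) * W x * (1 / ‖t • (p x - c) - (B₀ x + b₀)‖) ∂μ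
        - ∫ x, ω (‖p x - c‖ ^ 2) * W x * Kε ε (t • (p x - c) - (B₀ x + b₀)) ∂μ|
      ≤ ε ^ 2 * ((∫ x, |ω (‖p x - c‖ ^ 2) * W x| ∂μ) / d ^ 3) := by
    intro ε hε t ht
    have hi1 : Integrable (fun x => ω (‖p x - c‖ ^ 2) * W x *
        (1 / ‖t • (p x - c) - (B₀ x + b₀)‖)) μ := by
      refine (hiω.div_const d).mono' ?_ (ae_of_all _ (fun x => ?_))
      · have hm : Measurable (fun x => 1 / ‖t • (p x - c) - (B₀ x + b₀)‖) :=
          measurable_const.div (hξcont t).norm.measurable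
        exact hωW.aestronglyMeasurable.mul hm.aestronglyMeasurable
      · rw [Real.norm_eq_abs, abs_mul]
        by_cases hx : ω (‖p x - c‖ ^ 2) * W x = 0
        · rw [hx]; simp
        · have hdx := h1 x hx t ht
          have : |1 / ‖t • (p x - c) - (B₀ x + b₀)‖| ≤ 1 / d := by
            rw [abs_of_nonneg (by positivity)]
            exact one_div_le_one_div_of_le hd hdx
          calc _ ≤ |ω (‖p x - c‖ ^ 2) * W x| * (1 / d) :=
                mul_le_mul_of_nonneg_left this (abs_nonneg _)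
            _ = _ := by ring
    have hi2 : Integrable (fun x => ω (‖p x - c‖ ^ 2) * W x *
        Kε ε (t • (p x - c) - (B₀ x + b₀))) μ :=
      (hωW.mul ((hKc hε).comp (hξcont t))).integrable_of_hasCompactSupport h.hc.mul_right
    rw [← integral_sub hi1 hi2]
    refine (abs_integral_le_integral_abs).trans ?_
    have hi3 : Integrable (fun x => ε ^ 2 / d ^ 3 * |ω (‖p x - c‖ ^ 2) * W x|) μ :=
      hiω.const_mul _
    have h4 : ∫ x, |ω (‖p x - c‖ ^ 2) * W x * (1 / ‖t • (p x - c) - (B₀ x + b₀)‖)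
        - ω (‖p x - c‖ ^ 2) * W x * Kε ε (t • (p x - c) - (B₀ x + b₀))| ∂μ
        ≤ ∫ x, ε ^ 2 / d ^ 3 * |ω (‖p x - c‖ ^ 2) * W x| ∂μ := by
      refine integral_mono (hi1.sub hi2).abs hi3 (fun x => ?_)
      show |ω (‖p x - c‖ ^ 2) * W x * (1 / ‖t • (p x - c) - (B₀ x + b₀)‖)
        - ω (‖p x - c‖ ^ 2) * W x * Kε ε (t • (p x - c) - (B₀ x + b₀))| ≤
        ε ^ 2 / d ^ 3 * |ω (‖p x - c‖ ^ 2) * W x|
      rw [← mul_sub, abs_mul]
      by_cases hx : ω (‖p x - c‖ ^ 2) * W x = 0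
      · rw [hx]; simp
      · have hdx := h1 x hx t ht
        have := Kε_close hε hd _ hdx
        nlinarith [abs_nonneg (ω (‖p x - c‖ ^ 2) * W x)]
    refine h4.trans (le_of_eq ?_)
    rw [integral_const_mul]; ring
  have hderiv : ∀ ε : ℝ, 0 < ε →
      |∫ x, ω (‖p x - c‖ ^ 2) * W x * Kε ε ((1 : ℝ) • (p x - c) - (B₀ x + b₀)) ∂μ
        - ∫ x, ω (‖p x - c‖ ^ 2) * W x * Kε ε ((0 : ℝ) • (p x - c) - (B₀ x + b₀)) ∂μ|
      ≤ ε ^ 2 * (3 * (∫ x, |Θ (‖p x - c‖ ^ 2) * W x| ∂μ) / d ^ 5) := by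
    intro ε hε
    have := norm_image_sub_le_of_norm_deriv_le_segment_01'
      (f := fun t : ℝ => ∫ x, ω (‖p x - c‖ ^ 2) * W x *
        Kε ε (t • (p x - c) - (B₀ x + b₀)) ∂μ)
      (C := ε ^ 2 * (3 * (∫ x, |Θ (‖p x - c‖ ^ 2) * W x| ∂μ) / d ^ 5))
      (fun t _ => (h.hasDerivAt (μ := μ) b₀ hε t).hasDerivWithinAt) (by
        intro t ht
        have ht' : t ∈ Set.Icc (0 : ℝ) 1 := ⟨ht.1, ht.2.le⟩
        rw [Real.norm_eq_abs, abs_mul, abs_of_nonneg (by have := ht.1; positivity)]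
        have h5 : |∫ x, Θ (‖p x - c‖ ^ 2) * W x /
            (√(‖t • (p x - c) - (B₀ x + b₀)‖ ^ 2 + ε ^ 2)) ^ 5 ∂μ| ≤
            (∫ x, |Θ (‖p x - c‖ ^ 2) * W x| ∂μ) / d ^ 5 := by
          refine (abs_integral_le_integral_abs).trans ?_
          have hcs : Continuous (fun x => (√(‖t • (p x - c) - (B₀ x + b₀)‖ ^ 2 + ε ^ 2)) ^ 5) := by
            have := hξcont t
            fun_prop
          have hi4 : Integrable (fun x => Θ (‖p x - c‖ ^ 2) * W x /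
              (√(‖t • (p x - c) - (B₀ x + b₀)‖ ^ 2 + ε ^ 2)) ^ 5) μ := by
            have hcont : Continuous (fun x => Θ (‖p x - c‖ ^ 2) * W x *
              ((√(‖t • (p x - c) - (B₀ x + b₀)‖ ^ 2 + ε ^ 2)) ^ 5)⁻¹) :=
              hΘW.mul (hcs.inv₀ (fun x => by positivity))
            exact hcont.integrable_of_hasCompactSupport h.hcΘ.mul_right
          rw [← integral_div]
          refine integral_mono hi4.abs (hiΘ.div_const _) (fun x => ?_)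
          show |Θ (‖p x - c‖ ^ 2) * W x /
              (√(‖t • (p x - c) - (B₀ x + b₀)‖ ^ 2 + ε ^ 2)) ^ 5| ≤
              |Θ (‖p x - c‖ ^ 2) * W x| / d ^ 5
          rw [abs_div]
          by_cases hx : Θ (‖p x - c‖ ^ 2) * W x = 0
          · rw [hx]; simp
          · have hdx := h2 x hx t ht'
            apply div_le_div_of_nonneg_left (abs_nonneg _) (by positivity)
            rw [abs_of_nonneg (by positivity)]
            apply pow_le_pow_left₀ hd.le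
            apply Real.le_sqrt_of_sq_le
            have : d ^ 2 ≤ ‖t • (p x - c) - (B₀ x + b₀)‖ ^ 2 := pow_le_pow_left₀ hd.le hdx 2
            nlinarith [sq_nonneg ε]
        have h6 : 0 ≤ (∫ x, |Θ (‖p x - c‖ ^ 2) * W x| ∂μ) / d ^ 5 :=
          div_nonneg (integral_nonneg (fun x => abs_nonneg _)) (by positivity)
        calc 3 * ε ^ 2 * t * |∫ x, Θ (‖p x - c‖ ^ 2) * W x /
            (√(‖t • (p x - c) - (B₀ x + b₀)‖ ^ 2 + ε ^ 2)) ^ 5 ∂μ|
            ≤ 3 * ε ^ 2 * 1 * ((∫ x, |Θ (‖p x - c‖ ^ 2) * W x| ∂μ) / d ^ 5) := by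
              apply mul_le_mul _ h5 (abs_nonneg _) (by positivity)
              exact mul_le_mul_of_nonneg_left ht.2.le (by positivity)
          _ = _ := by ring)
    rw [Real.norm_eq_abs] at this
    exact this
  -- conclude
  set X := ∫ x, ω (‖p x - c‖ ^ 2) * W x * (1 / ‖(p x - c) - (B₀ x + b₀)‖) ∂μ with hX
  set X' := ∫ x, ω (‖p x - c‖ ^ 2) * W x * (1 / ‖B₀ x + b₀‖) ∂μ with hX'
  have hX1 : ∫ x, ω (‖p x - c‖ ^ 2) * W x * (1 / ‖(1 : ℝ) • (p x - c) - (B₀ x + b₀)‖) ∂μ = X := by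
    simp [hX]
  have hX0 : ∫ x, ω (‖p x - c‖ ^ 2) * W x * (1 / ‖(0 : ℝ) • (p x - c) - (B₀ x + b₀)‖) ∂μ
      = X' := by
    rw [hX']
    refine integral_congr_ae (ae_of_all _ (fun x => ?_))
    show ω (‖p x - c‖ ^ 2) * W x * (1 / ‖(0 : ℝ) • (p x - c) - (B₀ x + b₀)‖) =
      ω (‖p x - c‖ ^ 2) * W x * (1 / ‖B₀ x + b₀‖)
    rw [zero_smul, zero_sub, norm_neg]
  set C : ℝ := 2 * ((∫ x, |ω (‖p x - c‖ ^ 2) * W x| ∂μ) / d ^ 3)
    + 3 * (∫ x, |Θ (‖p x - c‖ ^ 2) * W x| ∂μ) / d ^ 5 with hC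
  have hall : ∀ ε : ℝ, 0 < ε → |X - X'| ≤ ε ^ 2 * C := by
    intro ε hε
    have a1 := hclose ε hε 1 ⟨by norm_num, le_refl _⟩
    have a0 := hclose ε hε 0 ⟨le_refl _, by norm_num⟩
    have a2 := hderiv ε hε
    rw [hX1] at a1
    rw [hX0] at a0
    rw [abs_le] at *
    constructor <;> rw [hC] <;> nlinarith [a0.1, a0.2, a1.1, a1.2, a2.1, a2.2]
  have hC0 : 0 ≤ C := by
    have i1 : 0 ≤ ∫ x, |ω (‖p x - c‖ ^ 2) * W x| ∂μ := integral_nonneg (fun x => abs_nonneg _)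
    have i2 : 0 ≤ ∫ x, |Θ (‖p x - c‖ ^ 2) * W x| ∂μ := integral_nonneg (fun x => abs_nonneg _)
    positivity
  by_contra hne
  have hpos : 0 < |X - X'| := abs_pos.2 (sub_ne_zero.2 hne)
  have h7 := hall (√(|X - X'| / (2 * (C + 1)))) (by positivity)
  rw [Real.sq_sqrt (by positivity)] at h7
  have h8 : |X - X'| / (2 * (C + 1)) * C ≤ |X - X'| / 2 := by
    rw [div_mul_eq_mul_div, div_le_div_iff₀ (by positivity) (by norm_num)]
    nlinarith
  linarith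

end

end Pool.Agent.helper840_dilute
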