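import Pool.Agent.helper840_dilute.Profile
import Pool.Agent.helper840_dilute.Kernel

open MeasureTheory Filter Topology

namespace Pool.Agent.helper840_dilute

/-- The value at the origin of the long range kernel. -/
noncomputable def L0 (a : ℝ) : ℝ := 2 / √Real.pi / a

theorem L0_nonneg {a : ℝ} (ha : 0 < a) : 0 ≤ L0 a := by unfold L0; positivity

/-- Admissible parameters for the one-body inequality. -/
structure Good (m n : ℕ) (T r₁ b a R κ δ δ₁ η g : ℝ) : Prop where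
  hn : n ≠ 0
  ha : 0 < a
  hr₁ : 0 < r₁
  hT : T = r₁ ^ 2
  hb : 16 * ((n : ℝ) + 1) ≤ b
  hbr : b ≤ r₁
  hR : 4 * r₁ ≤ R
  hκ : 0 ≤ κ
  hδ₁ : (2 * (n : ℝ) + 2) * (8 * (n + 1)) ^ (2 * n - 1) / T ^ n ≤ δ₁
  hfar : κ + L0 a ≤ (b ^ 2 / T) ^ n / 8
  hout : 1 / r₁ + κ + L0 a ≤ 1 / 4
  hη : 2 / √Real.pi * (b ^ 2 / (3 * a ^ 3)) ≤ η
  hg : ∀ r, R / 2 ≤ r → 1 / r - Lk a r ≤ g
  hg0 : 0 ≤ g
  hκG : ∀ r, 0 < r → r ≤ 2 * b → κ ≤ 1 / r - Lk a r
  hδ : δ₁ + η + m * g ≤ δ

variable {m n : ℕ} {T r₁ b a R κ δ δ₁ η g : ℝ}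

theorem Good.hTpos (h : Good m n T r₁ b a R κ δ δ₁ η g) : 0 < T := by
  rw [h.hT]; have := h.hr₁; positivity

theorem Good.hbpos (h : Good m n T r₁ b a R κ δ δ₁ η g) : 0 < b := by
  have := h.hb
  have : (0 : ℝ) < 16 * ((n : ℝ) + 1) := by positivity
  linarith

theorem Good.hηpos (h : Good m n T r₁ b a R κ δ δ₁ η g) : 0 ≤ η := by
  have h1 := h.ha
  have h2 : 0 ≤ 2 / √Real.pi * (b ^ 2 / (3 * a ^ 3)) := by positivity
  linarith [h.hη]

theorem Good.hδ₁pos (h : Good m n T r₁ b a R κ δ δ₁ η g) : 0 ≤ δ₁ := by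
  have h1 := h.hTpos
  have h2 : 0 ≤ (2 * (n : ℝ) + 2) * (8 * (n + 1)) ^ (2 * n - 1) / T ^ n := by positivity
  linarith [h.hδ₁]

open Classical in
/-- indicator of being outside all balls of radius `b` -/
noncomputable def outInd {m : ℕ} (b : ℝ) (Y : Fin m → R3) (z : R3) : ℝ :=
  if ∃ l, ‖z - Y l‖ < b then 0 else 1

theorem outInd_nonneg {m : ℕ} (b : ℝ) (Y : Fin m → R3) (z : R3) : 0 ≤ outInd b Y z := by
  unfold outInd; split_ifs <;> norm_num

theorem outInd_le {m : ℕ} (b : ℝ) (Y : Fin m → R3) (z : R3) : outInd b Y z ≤ 1 := by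
  unfold outInd; split_ifs <;> norm_num

/-- single well estimate inside the ball of radius `r₁` -/
theorem well_in (h : Good m n T r₁ b a R κ δ δ₁ η g) {r : ℝ} (hr0 : 0 ≤ r) (hr : r < r₁) :
    (if r < b then 0 else κ) - 1 / 4 + L0 a - δ₁ - η ≤ qn n T r - (1 / r - Lk a r) := by
  have hT := h.hTpos
  have hη := h.hηpos
  have hδ₁ := h.hδ₁pos
  have hrT : r ^ 2 ≤ T := by
    rw [h.hT]; exact pow_le_pow_left₀ hr0 hr.le 2
  rcases eq_or_lt_of_le hr0 with h0 | h0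
  · subst h0
    rw [qn_zero h.hn, if_pos h.hbpos]
    have : Lk a 0 = L0 a := by unfold L0; exact Lk_zero
    rw [this]
    simp
    linarith
  · split_ifs with hb
    · have h1 := qn_ge_near h.hn hT h0 hrT
      have h2 := Lk_ge h.ha r
      have h3 : 2 / √Real.pi * (r ^ 2 / (3 * a ^ 3)) ≤ 2 / √Real.pi * (b ^ 2 / (3 * a ^ 3)) := by
        have := h.ha
        refine mul_le_mul_of_nonneg_left ?_ (by positivity)
        apply div_le_div_of_nonneg_right _ (by positivity)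
        exact pow_le_pow_left₀ hr0 hb.le 2
      have h4 := h.hη
      have h5 := h.hδ₁
      unfold L0
      linarith
    · push Not at hb
      have h1 := qn_ge_far h.hn hT h.hb hb hrT
      have h2 := Lk_nonneg h.ha r
      have h3 := h.hfar
      linarith

theorem one_body (h : Good m n T r₁ b a R κ δ δ₁ η g) (Y : Fin m → R3)
    (hY : ∀ l l', l ≠ l' → R ≤ ‖Y l - Y l'‖) (z : R3) :
    κ * outInd b Y z - 1 / 4 + L0 a - δ ≤
      ∑ l, (qn n T ‖z - Y l‖ - (1 / ‖z - Y l‖ - Lk a ‖z - Y l‖)) := by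
  have hT := h.hTpos
  have hη := h.hηpos
  have hδ₁ := h.hδ₁pos
  have hr₁ := h.hr₁
  have hκ := h.hκ
  have hout := outInd_nonneg b Y z
  have hout1 := outInd_le b Y z
  have hg0 := h.hg0
  -- far wells
  have hfar : ∀ l, R / 2 ≤ ‖z - Y l‖ →
      -g ≤ qn n T ‖z - Y l‖ - (1 / ‖z - Y l‖ - Lk a ‖z - Y l‖) := by
    intro l hl
    have h1 := h.hg _ hl
    have h2 : T ≤ ‖z - Y l‖ ^ 2 := by
      rw [h.hT]; apply pow_le_pow_left₀ hr₁.le; linarith [h.hR]
    rw [qn_eq_zero hT h2]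
    linarith
  have htri : ∀ l l', l ≠ l' → ‖z - Y l‖ < R / 2 → R / 2 ≤ ‖z - Y l'‖ := by
    intro l l' hll hl
    have h1 := hY l l' hll
    have h2 : ‖Y l - Y l'‖ ≤ ‖z - Y l‖ + ‖z - Y l'‖ := by
      have : Y l - Y l' = -(z - Y l) + (z - Y l') := by abel
      rw [this]
      refine (norm_add_le _ _).trans ?_
      rw [norm_neg]
    linarith
  by_cases hex : ∃ l, ‖z - Y l‖ < R / 2
  · obtain ⟨l, hl⟩ := hex
    have hothers : ∀ l' ∈ Finset.univ.erase l,
        -g ≤ qn n T ‖z - Y l'‖ - (1 / ‖z - Y l'‖ - Lk a ‖z - Y l'‖) := by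
      intro l' hl'
      exact hfar l' (htri l l' (Ne.symm (Finset.ne_of_mem_erase hl')) hl)
    have hsum : -((m : ℝ) * g) ≤ ∑ l' ∈ Finset.univ.erase l,
        (qn n T ‖z - Y l'‖ - (1 / ‖z - Y l'‖ - Lk a ‖z - Y l'‖)) := by
      have h1 := Finset.sum_le_sum hothers
      rw [Finset.sum_const, Finset.card_erase_of_mem (Finset.mem_univ l), Finset.card_univ,
        Fintype.card_fin, nsmul_eq_mul] at h1
      refine le_trans ?_ h1
      have h2 : ((m - 1 : ℕ) : ℝ) ≤ m := by exact_mod_cast Nat.sub_le m 1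
      nlinarith
    rw [← Finset.add_sum_erase _ _ (Finset.mem_univ l)]
    by_cases hlr : ‖z - Y l‖ < r₁
    · have h1 := well_in h (norm_nonneg (z - Y l)) hlr
      have h2 : κ * outInd b Y z ≤ (if ‖z - Y l‖ < b then 0 else κ) := by
        split_ifs with hb
        · have : outInd b Y z = 0 := by
            unfold outInd; rw [if_pos ⟨l, hb⟩]
          rw [this, mul_zero]
        · nlinarith
      have h3 := h.hδ
      linarith
    · push Not at hlr
      have h1 : T ≤ ‖z - Y l‖ ^ 2 := by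
        rw [h.hT]; exact pow_le_pow_left₀ hr₁.le hlr 2
      rw [qn_eq_zero hT h1]
      have h2 : 1 / ‖z - Y l‖ ≤ 1 / r₁ := one_div_le_one_div_of_le hr₁ hlr
      have h3 := Lk_nonneg h.ha ‖z - Y l‖
      have h4 := h.hout
      have h5 := h.hδ
      nlinarith
  · push Not at hex
    have hsum : -((m : ℝ) * g) ≤ ∑ l', (qn n T ‖z - Y l'‖
        - (1 / ‖z - Y l'‖ - Lk a ‖z - Y l'‖)) := by
      have h1 := Finset.sum_le_sum (fun l' (_ : l' ∈ Finset.univ) => hfar l' (hex l'))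
      rw [Finset.sum_const, Finset.card_univ, Fintype.card_fin, nsmul_eq_mul] at h1
      linarith
    have h4 := h.hout
    have h5 := h.hδ
    have h6 : 0 ≤ 1 / r₁ := by positivity
    nlinarith

end Pool.Agent.helper840_dilute
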