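import Pool.Agent.helper840_dilute.Newton
import Pool.Agent.helper840_dilute.NBody

open MeasureTheory Filter Topology

namespace Pool.Agent.helper840_dilute

/-- A smooth radial orbital supported in the ball of radius `ρ`. -/
structure Orb (ρ : ℝ) (U : ℝ → ℝ) (u : R3 → ℝ) : Prop where
  hρ : 0 < ρ
  hU : Continuous U
  hu : ∀ z, u z = U (‖z‖ ^ 2)
  smooth : ContDiff ℝ (⊤ : ℕ∞) u
  supp : ∀ t, ρ ^ 2 ≤ t → U t = 0

variable {ρ : ℝ} {U : ℝ → ℝ} {u : R3 → ℝ}

theorem Orb.c1 (h : Orb ρ U u) : ContDiff ℝ 1 u := h.smooth.of_le (by exact_mod_cast le_top)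

theorem Orb.zero (h : Orb ρ U u) {z : R3} (hz : ρ ≤ ‖z‖) : u z = 0 := by
  rw [h.hu]; exact h.supp _ (pow_le_pow_left₀ h.hρ.le hz 2)

noncomputable def Th (ρ : ℝ) (U : ℝ → ℝ) (t : ℝ) : ℝ := ∫ s in (ρ ^ 2)..t, U s ^ 2 / 2

theorem Th_deriv (h : Orb ρ U u) (t : ℝ) : HasDerivAt (Th ρ U) (U t ^ 2 / 2) t := by
  have hc : Continuous (fun s => U s ^ 2 / 2) := (h.hU.pow 2).div_const 2
  exact intervalIntegral.integral_hasDerivAt_right (hc.intervalIntegrable _ _)
    (hc.stronglyMeasurableAtFilter _ _) hc.continuousAt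

theorem Th_zero (h : Orb ρ U u) {t : ℝ} (ht : ρ ^ 2 ≤ t) : Th ρ U t = 0 := by
  unfold Th
  rw [intervalIntegral.integral_of_le ht]
  have : ∀ s ∈ Set.Ioc (ρ ^ 2) t, U s ^ 2 / 2 = 0 := by
    intro s hs; rw [h.supp s hs.1.le]; norm_num
  rw [setIntegral_congr_fun measurableSet_Ioc this]
  simp

variable {k : ℕ}

/-- the product density -/
noncomputable def dens (u : R3 → ℝ) (c : Fin k → R3) (x : Fin k → R3) : ℝ :=
  ∏ l, (u (x l - c l)) ^ 2

noncomputable def restW (u : R3 → ℝ) (c : Fin k → R3) (i : Fin k) (x : Fin k → R3) : ℝ :=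
  ∏ l ∈ Finset.univ.erase i, (u (x l - c l)) ^ 2

theorem dens_eq (h : Orb ρ U u) (c : Fin k → R3) (i : Fin k) (x : Fin k → R3) :
    dens u c x = (fun t => U t ^ 2)
      (‖(ContinuousLinearMap.proj i : (Fin k → R3) →L[ℝ] R3) x - c i‖ ^ 2) * restW u c i x := by
  unfold dens restW
  rw [← Finset.mul_prod_erase _ _ (Finset.mem_univ i)]
  simp only [ContinuousLinearMap.proj_apply]
  rw [h.hu]

theorem contDiff_restW (h : Orb ρ U u) (c : Fin k → R3) (i : Fin k) :
    ContDiff ℝ 1 (restW u c i) := by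
  unfold restW
  refine contDiff_prod (fun l _ => ?_)
  have h1 : ContDiff ℝ 1 (fun x : Fin k → R3 => x l - c l) :=
    (contDiff_apply ℝ R3 l).sub contDiff_const
  exact (h.c1.comp h1).pow 2

theorem restW_indep (h : Orb ρ U u) (c : Fin k → R3) (i : Fin k) (x : Fin k → R3) (v : R3) :
    fderiv ℝ (restW u c i) x (Pi.single i v) = 0 := by
  have h1 : DifferentiableAt ℝ (restW u c i) x :=
    (contDiff_restW h c i).differentiable (by norm_num) x
  rw [← h1.lineDeriv_eq_fderiv]
  unfold lineDeriv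
  have h2 : (fun t : ℝ => restW u c i (x + t • (Pi.single i v : Fin k → R3)))
      = fun _ => restW u c i x := by
    funext t
    unfold restW
    refine Finset.prod_congr rfl (fun l hl => ?_)
    have : l ≠ i := Finset.ne_of_mem_erase hl
    simp [Pi.single_eq_of_ne this]
  rw [h2]
  exact deriv_const _ _

theorem hcs_box (f : (Fin k → R3) → ℝ) (c : Fin k → R3) (ρ : ℝ)
    (hf : ∀ x, (∃ l, ρ < ‖x l - c l‖) → f x = 0) : HasCompactSupport f := by
  have hK : IsCompact (Set.univ.pi (fun l => Metric.closedBall (c l) ρ) : Set (Fin k → R3)) :=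
    isCompact_univ_pi (fun l => isCompact_closedBall (c l) ρ)
  refine HasCompactSupport.intro hK (fun x hx => hf x ?_)
  simp only [Set.mem_pi, Set.mem_univ, true_implies, Metric.mem_closedBall, dist_eq_norm,
    not_forall, not_le] at hx
  exact hx

theorem restW_ne (h : Orb ρ U u) (c : Fin k → R3) (i : Fin k) (x : Fin k → R3)
    (hx : restW u c i x ≠ 0) (l : Fin k) (hl : l ≠ i) : ‖x l - c l‖ < ρ := by
  by_contra hcon
  push Not at hcon
  apply hx
  unfold restW
  refine Finset.prod_eq_zero (Finset.mem_erase.2 ⟨hl, Finset.mem_univ l⟩) ?_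
  rw [h.zero hcon]; norm_num

theorem omega_ne (h : Orb ρ U u) (z : R3) (hz : U (‖z‖ ^ 2) ^ 2 ≠ 0) : ‖z‖ < ρ := by
  by_contra hcon
  push Not at hcon
  apply hz
  rw [h.supp _ (pow_le_pow_left₀ h.hρ.le hcon 2)]; norm_num

theorem Th_ne (h : Orb ρ U u) (z : R3) (hz : Th ρ U (‖z‖ ^ 2) ≠ 0) : ‖z‖ < ρ := by
  by_contra hcon
  push Not at hcon
  exact hz (Th_zero h (pow_le_pow_left₀ h.hρ.le hcon 2))

theorem dil_data (h : Orb ρ U u) (c : Fin k → R3) (i : Fin k)
    (B₀ : (Fin k → R3) →L[ℝ] R3) (hB : ∀ v, B₀ (Pi.single i v) = 0) :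
    Dil (ContinuousLinearMap.proj i : (Fin k → R3) →L[ℝ] R3) B₀
      (fun a => Pi.single i (EuclideanSpace.single a 1)) (c i) (fun t => U t ^ 2) (Th ρ U)
      (restW u c i) where
  hp := fun a => by simp
  hB := fun a => hB _
  hω := h.hU.pow 2
  hΘ := fun t => Th_deriv h t
  hW := contDiff_restW h c i
  hWe := fun x a => restW_indep h c i x _
  hc := hcs_box _ c ρ (fun x hx => by
    obtain ⟨l, hl⟩ := hx
    by_contra hne
    have h1 := left_ne_zero_of_mul hne
    have h2 := right_ne_zero_of_mul hne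
    by_cases hli : l = i
    · subst hli
      have := omega_ne h _ h1
      simp only [ContinuousLinearMap.proj_apply] at this
      linarith
    · have := restW_ne h c i x h2 l hli
      linarith)
  hcΘ := hcs_box _ c ρ (fun x hx => by
    obtain ⟨l, hl⟩ := hx
    by_contra hne
    have h1 := left_ne_zero_of_mul hne
    have h2 := right_ne_zero_of_mul hne
    by_cases hli : l = i
    · subst hli
      have := Th_ne h _ h1
      simp only [ContinuousLinearMap.proj_apply] at this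
      linarith
    · have := restW_ne h c i x h2 l hli
      linarith)

theorem smul_norm_le {t : ℝ} (ht : t ∈ Set.Icc (0 : ℝ) 1) (z : R3) : ‖t • z‖ ≤ ‖z‖ := by
  rw [norm_smul, Real.norm_eq_abs, abs_of_nonneg ht.1]
  nlinarith [ht.2, norm_nonneg z]

theorem newton_en (h : Orb ρ U u) (c : Fin k → R3) (i : Fin k) (y : R3) (hy : ρ < ‖c i - y‖) :
    ∫ x, dens u c x * (1 / ‖x i - y‖) = (∫ x, dens u c x) * (1 / ‖c i - y‖) := by
  have hd : 0 < ‖c i - y‖ - ρ := by linarith
  have hbnd : ∀ x : Fin k → R3, ‖x i - c i‖ < ρ → ∀ t ∈ Set.Icc (0 : ℝ) 1,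
      ‖c i - y‖ - ρ ≤ ‖t • ((ContinuousLinearMap.proj i : (Fin k → R3) →L[ℝ] R3) x - c i)
        - ((0 : (Fin k → R3) →L[ℝ] R3) x + (y - c i))‖ := by
    intro x hx t ht
    have h1 := smul_norm_le ht (x i - c i)
    have h2 : ‖c i - y‖ ≤ ‖t • (x i - c i) - (0 + (y - c i))‖ + ‖t • (x i - c i)‖ := by
      have : c i - y = (t • (x i - c i) - (0 + (y - c i))) - t • (x i - c i) := by abel
      calc ‖c i - y‖ = ‖(t • (x i - c i) - (0 + (y - c i))) - t • (x i - c i)‖ := by rw [← this]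
        _ ≤ _ := norm_sub_le _ _
    simp only [ContinuousLinearMap.proj_apply, zero_apply]
    linarith
  have key := (dil_data h c i 0 (fun v => by simp)).newton (μ := volume) (y - c i) hd
    (fun x hx t ht => hbnd x (omega_ne h _ (left_ne_zero_of_mul hx)) t ht)
    (fun x hx t ht => hbnd x (Th_ne h _ (left_ne_zero_of_mul hx)) t ht)
  rw [← integral_mul_const]
  have e1 : ∀ x : Fin k → R3, dens u c x * (1 / ‖x i - y‖) =
      (fun t => U t ^ 2) (‖(ContinuousLinearMap.proj i : (Fin k → R3) →L[ℝ] R3) x - c i‖ ^ 2)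
        * restW u c i x * (1 / ‖((ContinuousLinearMap.proj i : (Fin k → R3) →L[ℝ] R3) x - c i)
          - ((0 : (Fin k → R3) →L[ℝ] R3) x + (y - c i))‖) := by
    intro x
    rw [dens_eq h c i x]
    simp only [ContinuousLinearMap.proj_apply, zero_apply]
    congr 3
    abel_nf
  have e2 : ∀ x : Fin k → R3, dens u c x * (1 / ‖c i - y‖) =
      (fun t => U t ^ 2) (‖(ContinuousLinearMap.proj i : (Fin k → R3) →L[ℝ] R3) x - c i‖ ^ 2)
        * restW u c i x * (1 / ‖(0 : (Fin k → R3) →L[ℝ] R3) x + (y - c i)‖) := by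
    intro x
    rw [dens_eq h c i x]
    simp only [zero_apply, zero_add]
    rw [norm_sub_rev (c i) y]
  simp_rw [e1, e2]
  exact key

theorem newton_ee (h : Orb ρ U u) (c : Fin k → R3) (i j : Fin k) (hij : i ≠ j)
    (hy : 2 * ρ < ‖c i - c j‖) :
    ∫ x, dens u c x * (1 / ‖x i - x j‖) = (∫ x, dens u c x) * (1 / ‖c i - c j‖) := by
  have hρ := h.hρ
  have hd : 0 < ‖c i - c j‖ - 2 * ρ := by linarith
  have hbnd : ∀ x : Fin k → R3, ‖x i - c i‖ < ρ → ‖x j - c j‖ < ρ → ∀ t ∈ Set.Icc (0 : ℝ) 1,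
      ‖c i - c j‖ - 2 * ρ ≤ ‖t • ((ContinuousLinearMap.proj i : (Fin k → R3) →L[ℝ] R3) x - c i)
        - ((ContinuousLinearMap.proj j : (Fin k → R3) →L[ℝ] R3) x + (-c i))‖ := by
    intro x hx hx' t ht
    have h1 := smul_norm_le ht (x i - c i)
    have h2 : ‖c i - c j‖ ≤ ‖t • (x i - c i) - (x j + (-c i))‖ + ‖t • (x i - c i)‖
        + ‖x j - c j‖ := by
      have : c i - c j = (t • (x i - c i) - (x j + (-c i))) - t • (x i - c i) + (x j - c j) := by
        abel
      calc ‖c i - c j‖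
          = ‖(t • (x i - c i) - (x j + (-c i))) - t • (x i - c i) + (x j - c j)‖ := by
            rw [← this]
        _ ≤ ‖(t • (x i - c i) - (x j + (-c i))) - t • (x i - c i)‖ + ‖x j - c j‖ :=
            norm_add_le _ _
        _ ≤ _ := by
            have := norm_sub_le (t • (x i - c i) - (x j + (-c i))) (t • (x i - c i))
            linarith
    simp only [ContinuousLinearMap.proj_apply]
    linarith
  have key := (dil_data h c i (ContinuousLinearMap.proj j : (Fin k → R3) →L[ℝ] R3)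
    (fun v => by simp [Pi.single_eq_of_ne (Ne.symm hij)])).newton (μ := volume) (-c i) hd
    (fun x hx t ht => hbnd x (omega_ne h _ (left_ne_zero_of_mul hx))
      (restW_ne h c i x (right_ne_zero_of_mul hx) j (Ne.symm hij)) t ht)
    (fun x hx t ht => hbnd x (Th_ne h _ (left_ne_zero_of_mul hx))
      (restW_ne h c i x (right_ne_zero_of_mul hx) j (Ne.symm hij)) t ht)
  have h2 := newton_en h c j (c i) (by rw [norm_sub_rev]; linarith)
  have e1 : ∀ x : Fin k → R3, dens u c x * (1 / ‖x i - x j‖) =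
      (fun t => U t ^ 2) (‖(ContinuousLinearMap.proj i : (Fin k → R3) →L[ℝ] R3) x - c i‖ ^ 2)
        * restW u c i x * (1 / ‖((ContinuousLinearMap.proj i : (Fin k → R3) →L[ℝ] R3) x - c i)
          - ((ContinuousLinearMap.proj j : (Fin k → R3) →L[ℝ] R3) x + (-c i))‖) := by
    intro x
    rw [dens_eq h c i x]
    simp only [ContinuousLinearMap.proj_apply]
    congr 3
    abel_nf
  have e2 : ∀ x : Fin k → R3, dens u c x * (1 / ‖x j - c i‖) =
      (fun t => U t ^ 2) (‖(ContinuousLinearMap.proj i : (Fin k → R3) →L[ℝ] R3) x - c i‖ ^ 2)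
        * restW u c i x *
          (1 / ‖(ContinuousLinearMap.proj j : (Fin k → R3) →L[ℝ] R3) x + (-c i)‖) := by
    intro x
    rw [dens_eq h c i x]
    simp only [ContinuousLinearMap.proj_apply]
    rw [sub_eq_add_neg (x j)]
  rw [norm_sub_rev (c i) (c j), ← h2]
  simp_rw [e1, e2]
  exact key

end Pool.Agent.helper840_dilute
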