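import Pool.Agent.helper840_dilute.Slater3

open MeasureTheory Filter Topology

namespace Pool.Agent.helper840_dilute

theorem two_div_sqrt_pi : 2 / √Real.pi ≤ 1.13 := by
  have h1 : (1.77 : ℝ) ≤ √Real.pi := by
    apply Real.le_sqrt_of_sq_le
    have := Real.pi_gt_d2
    norm_num at this ⊢
    linarith
  rw [div_le_iff₀ (by linarith)]
  linarith

theorem exp_neg_le (n : ℕ) {x : ℝ} (hx : 0 < x) : Real.exp (-x) ≤ n.factorial / x ^ n := by
  have h1 := Real.pow_div_factorial_le_exp x hx.le n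
  have hf : (0 : ℝ) < n.factorial := by exact_mod_cast n.factorial_pos
  rw [Real.exp_neg, le_div_iff₀ (by positivity), inv_mul_le_iff₀ (Real.exp_pos x)]
  rwa [div_le_iff₀ hf] at h1

section

variable {w : ℝ}

/-- the parameters -/
noncomputable def pb (w : ℝ) : ℝ := 112 * w ^ 6
noncomputable def pa (w : ℝ) : ℝ := 560 * w ^ 28
noncomputable def pR (w : ℝ) : ℝ := 2400 * w ^ 33
noncomputable def pκ (w : ℝ) : ℝ := 1 / (448 * w ^ 6)
noncomputable def pη (w : ℝ) : ℝ := 2 / √Real.pi * (pb w ^ 2 / (3 * pa w ^ 3))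
noncomputable def pg (w : ℝ) : ℝ :=
  2 / √Real.pi * (pa w / (2 * (pR w / 2) ^ 2) * Real.exp (-(pR w / 2 / pa w) ^ 2))
noncomputable def pδ₁ (w : ℝ) : ℝ := 14 * 56 ^ 11 / ((1.3 * pb w) ^ 2) ^ 6
noncomputable def pδ (w : ℝ) : ℝ := pδ₁ w + pη w + w ^ 66 * pg w

theorem pow_ge_one (hw : 1 ≤ w) (n : ℕ) : 1 ≤ w ^ n := one_le_pow₀ hw

theorem pL0_le (hw : 1 ≤ w) : L0 (pa w) ≤ 1.13 / (560 * w ^ 6) := by
  have hw0 : 0 < w := by linarith
  have h1 := two_div_sqrt_pi
  unfold L0 pa
  have h2 : w ^ 6 ≤ w ^ 28 := pow_le_pow_right₀ hw (by norm_num)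
  calc 2 / √Real.pi / (560 * w ^ 28) ≤ 1.13 / (560 * w ^ 28) :=
        div_le_div_of_nonneg_right h1 (by positivity)
    _ ≤ 1.13 / (560 * w ^ 6) := by
        apply div_le_div_of_nonneg_left (by norm_num) (by positivity)
        linarith

theorem pη_le (hw : 1 ≤ w) : w ^ 66 * pη w ≤ pκ w / 80 := by
  have hw0 : 0 < w := by linarith
  have h1 := two_div_sqrt_pi
  have e1 : w ^ 66 * (pb w ^ 2 / (3 * pa w ^ 3)) = 12544 / 526848000 / w ^ 6 := by
    unfold pb pa; field_simp; ring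
  unfold pη
  calc w ^ 66 * (2 / √Real.pi * (pb w ^ 2 / (3 * pa w ^ 3)))
      = 2 / √Real.pi * (w ^ 66 * (pb w ^ 2 / (3 * pa w ^ 3))) := by ring
    _ ≤ 1.13 * (w ^ 66 * (pb w ^ 2 / (3 * pa w ^ 3))) := by
        refine mul_le_mul_of_nonneg_right h1 ?_
        rw [e1]; positivity
    _ = 1.13 * 12544 / 526848000 / w ^ 6 := by rw [e1]; ring
    _ ≤ 1 / 35840 / w ^ 6 := div_le_div_of_nonneg_right (by norm_num) (by positivity)
    _ = pκ w / 80 := by unfold pκ; field_simp; try norm_num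

theorem pδ₁_le (hw : 1 ≤ w) : w ^ 66 * pδ₁ w ≤ pκ w / 800 := by
  have hw0 : 0 < w := by linarith
  have e1 : w ^ 66 * pδ₁ w = (14 * 56 ^ 11 / (1.3 * 112) ^ 12) / w ^ 6 := by
    unfold pδ₁ pb; field_simp
  rw [e1]
  calc (14 * 56 ^ 11 / (1.3 * 112) ^ 12) / w ^ 6 ≤ 1 / 358400 / w ^ 6 :=
        div_le_div_of_nonneg_right (by norm_num) (by positivity)
    _ = pκ w / 800 := by unfold pκ; field_simp; try norm_num

theorem pg_nonneg (hw : 1 ≤ w) : 0 ≤ pg w := by
  have hw0 : 0 < w := by linarith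
  unfold pg pa
  positivity

theorem pg_le (hw : 1 ≤ w) : w ^ 66 * (w ^ 66 * pg w) ≤ pκ w / 11 := by
  have hw0 : 0 < w := by linarith
  have h1 := two_div_sqrt_pi
  have hlam : pR w / 2 / pa w = 15 / 7 * w ^ 5 := by unfold pR pa; field_simp; norm_num
  have h2 : Real.exp (-(pR w / 2 / pa w) ^ 2) ≤ 3628800 / ((15 / 7 * w ^ 5) ^ 2) ^ 10 := by
    have := exp_neg_le 10 (x := (15 / 7 * w ^ 5) ^ 2) (by positivity)
    rw [hlam]
    have hf : ((10 : ℕ).factorial : ℝ) = 3628800 := by norm_num [Nat.factorial]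
    rw [hf] at this
    exact this
  have h3 : 0 < pa w / (2 * (pR w / 2) ^ 2) := by unfold pa pR; positivity
  have h4 : pg w ≤ 1.13 * (pa w / (2 * (pR w / 2) ^ 2) *
      (3628800 / ((15 / 7 * w ^ 5) ^ 2) ^ 10)) := by
    unfold pg
    refine mul_le_mul h1 ?_ (by positivity) (by norm_num)
    exact mul_le_mul_of_nonneg_left h2 h3.le
  have e1 : w ^ 66 * (w ^ 66 * (1.13 * (pa w / (2 * (pR w / 2) ^ 2) *
      (3628800 / ((15 / 7 * w ^ 5) ^ 2) ^ 10)))) =
      (1.13 * 560 / (2 * 1200 ^ 2) * 3628800 / (15 / 7) ^ 20) / w ^ 6 := by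
    unfold pa pR; field_simp; ring
  calc w ^ 66 * (w ^ 66 * pg w) ≤ w ^ 66 * (w ^ 66 * (1.13 * (pa w / (2 * (pR w / 2) ^ 2) *
      (3628800 / ((15 / 7 * w ^ 5) ^ 2) ^ 10)))) := by
        refine mul_le_mul_of_nonneg_left ?_ (by positivity)
        exact mul_le_mul_of_nonneg_left h4 (by positivity)
    _ = (1.13 * 560 / (2 * 1200 ^ 2) * 3628800 / (15 / 7) ^ 20) / w ^ 6 := e1
    _ ≤ 1 / 4928 / w ^ 6 := div_le_div_of_nonneg_right (by norm_num) (by positivity)
    _ = pκ w / 11 := by unfold pκ; field_simp; try norm_num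

theorem good_params (hw : 1 ≤ w) (m : ℕ) (hm : (m : ℝ) ≤ w ^ 66) :
    Good m 6 ((1.3 * pb w) ^ 2) (1.3 * pb w) (pb w) (pa w) (pR w) (pκ w) (pδ w) (pδ₁ w) (pη w)
      (pg w) := by
  have hw0 : 0 < w := by linarith
  have hb : 0 < pb w := by unfold pb; positivity
  have ha : 0 < pa w := by unfold pa; positivity
  have hb112 : 112 ≤ pb w := by
    unfold pb; have := pow_ge_one hw 6; linarith
  have hκ : pκ w = 1 / (4 * pb w) := by unfold pκ pb; ring
  have hκ0 : 0 ≤ pκ w := by rw [hκ]; positivity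
  have hκ1 : pκ w ≤ 1 / 448 := by
    unfold pκ
    apply one_div_le_one_div_of_le (by norm_num)
    have := pow_ge_one hw 6; linarith
  have hL := pL0_le hw
  have hL2 : L0 (pa w) ≤ 0.226 / pb w := by
    refine hL.trans (le_of_eq ?_)
    unfold pb; field_simp; norm_num
  have hL1 : L0 (pa w) ≤ 0.00202 := by
    refine hL.trans ?_
    rw [div_le_iff₀ (by positivity)]
    have := pow_ge_one hw 6; nlinarith
  exact {
    hn := by norm_num
    ha := ha
    hr₁ := by positivity
    hT := rfl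
    hb := by norm_num; linarith
    hbr := by linarith
    hR := by
      unfold pb pR
      have h1 : w ^ 6 ≤ w ^ 33 := pow_le_pow_right₀ hw (by norm_num)
      have h2 := pow_ge_one hw 33
      linarith
    hκ := hκ0
    hδ₁ := by
      unfold pδ₁
      norm_num
    hfar := by
      have e : (pb w ^ 2 / (1.3 * pb w) ^ 2) ^ 6 / 8 = (1 / 1.3) ^ 12 / 8 := by
        field_simp
      rw [e]
      have : (0.0053 : ℝ) ≤ (1 / 1.3) ^ 12 / 8 := by norm_num
      linarith
    hout := by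
      have : 1 / (1.3 * pb w) ≤ 1 / 145 := by
        apply one_div_le_one_div_of_le (by norm_num); linarith
      linarith
    hη := le_rfl
    hg := by
      intro r hr
      have hR0 : 0 < pR w / 2 := by unfold pR; positivity
      have hr0 : 0 < r := lt_of_lt_of_le hR0 hr
      refine (Gk_le ha hr0).trans ?_
      unfold pg
      refine mul_le_mul_of_nonneg_left ?_ (by positivity)
      refine mul_le_mul ?_ ?_ (Real.exp_pos _).le (by positivity)
      · apply div_le_div_of_nonneg_left ha.le (by positivity)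
        have := pow_le_pow_left₀ hR0.le hr 2
        linarith
      · apply Real.exp_le_exp.2
        have h1 : pR w / 2 / pa w ≤ r / pa w := div_le_div_of_nonneg_right hr ha.le
        have h2 := pow_le_pow_left₀ (by positivity) h1 2
        linarith
    hg0 := pg_nonneg hw
    hκG := by
      intro r hr0 hr
      have h1 : 1 / (2 * pb w) ≤ 1 / r := one_div_le_one_div_of_le hr0 hr
      have h2 : Lk (pa w) r ≤ L0 (pa w) := Lk_le ha r
      have h3 : 1 / (2 * pb w) = 0.5 / pb w := by field_simp; norm_num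
      have h4 : pκ w = 0.25 / pb w := by rw [hκ]; field_simp; norm_num
      rw [h4]
      have h5 : 0.25 / pb w ≤ 0.5 / pb w - 0.226 / pb w := by
        rw [← sub_div]
        apply div_le_div_of_nonneg_right (by norm_num) hb.le
      linarith
    hδ := by
      unfold pδ
      have := mul_le_mul_of_nonneg_right hm (pg_nonneg hw)
      linarith }

end

end Pool.Agent.helper840_dilute
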