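import Mathlib

open MeasureTheory

namespace Pool.Agent.helper840_dilute

section Parts

variable {V : Type*} [NormedAddCommGroup V] [NormedSpace ℝ V] [FiniteDimensional ℝ V]
  [MeasurableSpace V] [BorelSpace V] {μ : Measure V} [μ.IsAddHaarMeasure]

theorem integral_fderiv_zero (g : V → ℝ) (hg : ContDiff ℝ 1 g) (hc : HasCompactSupport g)
    (v : V) : ∫ x, fderiv ℝ g x v ∂μ = 0 := by
  have hcont : Continuous (fun x => fderiv ℝ g x v) :=
    (hg.continuous_fderiv (by norm_num)).clm_apply continuous_const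
  have hcs : HasCompactSupport (fun x => fderiv ℝ g x v) := by
    have := hc.fderiv_apply (𝕜 := ℝ) (v := v)
    exact this
  have h := integral_mul_fderiv_eq_neg_fderiv_mul_of_integrable (μ := μ)
    (f := fun _ : V => (1 : ℝ)) (g := g) (v := v) (by simp)
    (by simpa using hcont.integrable_of_hasCompactSupport hcs)
    (by simpa using hg.continuous.integrable_of_hasCompactSupport hc)
    (fun x _ => differentiableAt_const _)
    (fun x _ => hg.differentiable (by norm_num) x)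
  simpa using h

theorem continuous_dir {E : Type*} [NormedAddCommGroup E] [NormedSpace ℝ E] {f : V → E}
    (hf : ContDiff ℝ 1 f) (v : V) : Continuous (fun x => fderiv ℝ f x v) :=
  (hf.continuous_fderiv (by norm_num)).clm_apply continuous_const

theorem hcs_normsq {f : V → ℂ} (hc : HasCompactSupport f) :
    HasCompactSupport (fun x => ‖f x‖ ^ 2) :=
  hc.comp_left (g := fun z : ℂ => ‖z‖ ^ 2) (by simp)

theorem hcs_dir {f : V → ℂ} (hc : HasCompactSupport f) (v : V) :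
    HasCompactSupport (fun x => ‖fderiv ℝ f x v‖ ^ 2) :=
  hcs_normsq (f := fun x => fderiv ℝ f x v) (hc.fderiv_apply (𝕜 := ℝ) (v := v))

theorem integrable_dir {f : V → ℂ} (hf : ContDiff ℝ 1 f) (hc : HasCompactSupport f) (v : V) :
    Integrable (fun x => ‖fderiv ℝ f x v‖ ^ 2) μ := by
  have h1 : Continuous (fun x => ‖fderiv ℝ f x v‖ ^ 2) := (continuous_dir hf v).norm.pow 2
  exact h1.integrable_of_hasCompactSupport (hcs_dir hc v)

theorem integrable_mul_normsq {f : V → ℂ} (hf : Continuous f) (hc : HasCompactSupport f)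
    {g : V → ℝ} (hg : Continuous g) :
    Integrable (fun x => g x * ‖f x‖ ^ 2) μ := by
  have h1 : Continuous (fun x => g x * ‖f x‖ ^ 2) := hg.mul (hf.norm.pow 2)
  have h2 : HasCompactSupport (fun x => g x * ‖f x‖ ^ 2) := (hcs_normsq hc).mul_left
  exact h1.integrable_of_hasCompactSupport h2

theorem pointwise_kin (a b : ℂ) (d F : ℝ) :
    (d - F ^ 2) * ‖a‖ ^ 2 - (d * ‖a‖ ^ 2 + F * (2 * inner ℝ a b)) ≤ ‖b‖ ^ 2 := by
  have h4 : 0 ≤ ‖b + F • a‖ ^ 2 := sq_nonneg _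
  rw [norm_add_sq_real, norm_smul, inner_smul_right, mul_pow, Real.norm_eq_abs, sq_abs,
    real_inner_comm] at h4
  linarith [h4]

theorem fderiv_mul_normsq {f : V → ℂ} (hf : ContDiff ℝ 1 f)
    {F : V → ℝ} (hF : ContDiff ℝ 1 F) (v x : V) :
    fderiv ℝ (fun x => F x * ‖f x‖ ^ 2) x v =
      fderiv ℝ F x v * ‖f x‖ ^ 2 + F x * (2 * inner ℝ (f x) (fderiv ℝ f x v)) := by
  have h1 : HasFDerivAt F (fderiv ℝ F x) x := (hF.differentiable (by norm_num) x).hasFDerivAt
  have h2 : HasFDerivAt f (fderiv ℝ f x) x := (hf.differentiable (by norm_num) x).hasFDerivAt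
  have h3 : HasFDerivAt (fun x => F x * ‖f x‖ ^ 2) _ x := h1.fun_mul h2.norm_sq
  rw [h3.fderiv]
  simp only [add_apply, smul_apply, smul_eq_mul,
    ContinuousLinearMap.comp_apply, innerSL_apply_apply, nsmul_eq_mul, Nat.cast_ofNat]
  ring

theorem kinetic_ge (f : V → ℂ) (hf : ContDiff ℝ 1 f) (hc : HasCompactSupport f)
    (F : V → ℝ) (hF : ContDiff ℝ 1 F) (v : V) :
    ∫ x, (fderiv ℝ F x v - F x ^ 2) * ‖f x‖ ^ 2 ∂μ ≤ ∫ x, ‖fderiv ℝ f x v‖ ^ 2 ∂μ := by
  have hn : ContDiff ℝ 1 (fun x => ‖f x‖ ^ 2) := hf.norm_sq ℝ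
  have hgc : ContDiff ℝ 1 (fun x => F x * ‖f x‖ ^ 2) := hF.mul hn
  have hgs : HasCompactSupport (fun x => F x * ‖f x‖ ^ 2) := (hcs_normsq hc).mul_left
  have hz := integral_fderiv_zero (μ := μ) _ hgc hgs v
  have hcF := continuous_dir hF v
  have hi2 : Integrable (fun x => (fderiv ℝ F x v - F x ^ 2) * ‖f x‖ ^ 2) μ :=
    integrable_mul_normsq hf.continuous hc (hcF.sub (hF.continuous.pow 2))
  have hi3 : Integrable (fun x => fderiv ℝ (fun x => F x * ‖f x‖ ^ 2) x v) μ :=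
    (continuous_dir hgc v).integrable_of_hasCompactSupport
      (hgs.fderiv_apply (𝕜 := ℝ) (v := v))
  have hpt : ∀ x, (fderiv ℝ F x v - F x ^ 2) * ‖f x‖ ^ 2
      - fderiv ℝ (fun x => F x * ‖f x‖ ^ 2) x v ≤ ‖fderiv ℝ f x v‖ ^ 2 := by
    intro x
    rw [fderiv_mul_normsq hf hF v x]
    exact pointwise_kin _ _ _ _
  calc ∫ x, (fderiv ℝ F x v - F x ^ 2) * ‖f x‖ ^ 2 ∂μ
      = ∫ x, ((fderiv ℝ F x v - F x ^ 2) * ‖f x‖ ^ 2
          - fderiv ℝ (fun x => F x * ‖f x‖ ^ 2) x v) ∂μ := by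
        rw [integral_sub hi2 hi3, hz, sub_zero]
    _ ≤ ∫ x, ‖fderiv ℝ f x v‖ ^ 2 ∂μ := integral_mono (hi2.sub hi3) (integrable_dir hf hc v) hpt

end Parts

end Pool.Agent.helper840_dilute
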