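import Pool.Agent.helper840_dilute.OneBody

open MeasureTheory Filter Topology

namespace Pool.Agent.helper840_dilute

theorem sum_lt_symm {k : ℕ} (f : Fin k → Fin k → ℝ) (hf : ∀ i j, f i j = f j i) :
    ∑ i, ∑ j, f i j = ∑ i, f i i + 2 * ∑ i, ∑ j ∈ Finset.Iio i, f j i := by
  have h1 : ∀ i, ∑ j, f i j = ∑ j ∈ Finset.Iio i, f i j + f i i + ∑ j ∈ Finset.Ioi i, f i j := by
    intro i
    have hu : (Finset.univ : Finset (Fin k)) = (Finset.Iio i ∪ {i}) ∪ Finset.Ioi i := by
      ext j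
      simp only [Finset.mem_univ, Finset.mem_union, Finset.mem_Iio, Finset.mem_singleton,
        Finset.mem_Ioi, true_iff]
      rcases lt_trichotomy j i with h | h | h
      · exact Or.inl (Or.inl h)
      · exact Or.inl (Or.inr h)
      · exact Or.inr h
    rw [hu, Finset.sum_union, Finset.sum_union, Finset.sum_singleton]
    · rw [Finset.disjoint_left]
      intro j hj hj2
      simp only [Finset.mem_Iio, Finset.mem_singleton] at hj hj2
      subst hj2
      exact lt_irrefl _ hj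
    · rw [Finset.disjoint_left]
      intro j hj hj2
      simp only [Finset.mem_union, Finset.mem_Iio, Finset.mem_singleton, Finset.mem_Ioi] at hj hj2
      rcases hj with h | h
      · exact lt_asymm h hj2
      · subst h; exact lt_irrefl _ hj2
  simp_rw [h1]
  rw [Finset.sum_add_distrib, Finset.sum_add_distrib]
  have h2 : ∑ i, ∑ j ∈ Finset.Ioi i, f i j = ∑ i, ∑ j ∈ Finset.Iio i, f j i := by
    rw [Finset.sum_comm' (t' := Finset.univ) (s' := fun j => Finset.Iio j)]
    intro i j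
    simp
  have h3 : ∑ i, ∑ j ∈ Finset.Iio i, f i j = ∑ i, ∑ j ∈ Finset.Iio i, f j i :=
    Finset.sum_congr rfl (fun i _ => Finset.sum_congr rfl (fun j _ => hf i j))
  rw [h2, h3]
  ring

/-- The long range part of the Coulomb energy is bounded below by minus the self energies. -/
theorem long_range {k m : ℕ} {a : ℝ} (ha : 0 < a) (x : Fin k → R3) (Y : Fin m → R3) :
    -(((k : ℝ) + m) * L0 a / 2) ≤
      -(∑ j, ∑ l, Lk a ‖x j - Y l‖) + ∑ i, ∑ j ∈ Finset.Iio i, Lk a ‖x j - x i‖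
        + ∑ i, ∑ j ∈ Finset.Iio i, Lk a ‖Y j - Y i‖ := by
  have h := Lk_posDef (ι := Fin k ⊕ Fin m) (Sum.elim (fun _ => 1) (fun _ => -1))
    (Sum.elim x Y) ha
  rw [Fintype.sum_sum_type] at h
  simp only [Fintype.sum_sum_type, Sum.elim_inl, Sum.elim_inr] at h
  have e1 := sum_lt_symm (fun i j => Lk a ‖x i - x j‖)
    (fun i j => by rw [norm_sub_rev])
  have e2 := sum_lt_symm (fun i j => Lk a ‖Y i - Y j‖)
    (fun i j => by rw [norm_sub_rev])
  have e3 : ∑ i, ∑ j, Lk a ‖Y i - x j‖ = ∑ j, ∑ i, Lk a ‖x j - Y i‖ := by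
    rw [Finset.sum_comm]
    exact Finset.sum_congr rfl (fun i _ => Finset.sum_congr rfl (fun j _ => by
      rw [norm_sub_rev]))
  simp only [sub_self, norm_zero] at e1 e2
  have e4 : Lk a 0 = L0 a := Lk_zero
  rw [e4] at e1 e2
  simp only [Finset.sum_const, Finset.card_univ, Fintype.card_fin, nsmul_eq_mul] at e1 e2
  simp only [mul_one, one_mul, mul_neg, neg_mul, neg_neg] at h
  simp only [Finset.sum_add_distrib, Finset.sum_neg_distrib] at h
  rw [e3] at h
  linarith

open Classical in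
/-- Counting pairs sharing a ball. -/
theorem pair_count {k m : ℕ} {b κ : ℝ} (hκ : 0 ≤ κ) (x : Fin k → R3) (Y : Fin m → R3)
    (G : Fin k → Fin k → ℝ) (hG0 : ∀ i j, i ≠ j → 0 ≤ G i j)
    (hG : ∀ i j l, i ≠ j → ‖x i - Y l‖ < b → ‖x j - Y l‖ < b → κ ≤ G i j) :
    κ * ((k : ℝ) - m) ≤ κ * ∑ j, outInd b Y (x j) + ∑ i, ∑ j ∈ Finset.Iio i, G j i := by
  -- inside electrons
  set J : Finset (Fin k) := Finset.univ.filter (fun j => ∃ l, ‖x j - Y l‖ < b) with hJ
  have hch : ∀ j : Fin k, ∃ l : Option (Fin m), (j ∈ J → ∃ l', l = some l' ∧ ‖x j - Y l'‖ < b) := by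
    intro j
    by_cases hj : j ∈ J
    · have := (Finset.mem_filter.1 hj).2
      obtain ⟨l, hl⟩ := this
      exact ⟨some l, fun _ => ⟨l, rfl, hl⟩⟩
    · exact ⟨none, fun h => absurd h hj⟩
  choose al hal using hch
  set P : Finset (Fin k) := J.filter (fun j => ∃ i, i < j ∧ i ∈ J ∧ al i = al j) with hP
  have hcard1 : (J \ P).card ≤ m := by
    have h1 : (J \ P).card = ((J \ P).image al).card := by
      rw [Finset.card_image_of_injOn]
      intro i hi j hj hij
      simp only [Finset.coe_sdiff, Set.mem_sdiff, Finset.mem_coe] at hi hj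
      by_contra hne
      rcases lt_or_gt_of_ne hne with h | h
      · exact hj.2 (Finset.mem_filter.2 ⟨hj.1, i, h, hi.1, hij⟩)
      · exact hi.2 (Finset.mem_filter.2 ⟨hi.1, j, h, hj.1, hij.symm⟩)
    rw [h1]
    have h2 : (J \ P).image al ⊆ (Finset.univ : Finset (Fin m)).image some := by
      intro o ho
      obtain ⟨j, hj, rfl⟩ := Finset.mem_image.1 ho
      obtain ⟨l', hl', _⟩ := hal j (Finset.mem_sdiff.1 hj).1
      rw [hl']
      exact Finset.mem_image_of_mem _ (Finset.mem_univ _)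
    calc ((J \ P).image al).card ≤ ((Finset.univ : Finset (Fin m)).image some).card :=
          Finset.card_le_card h2
      _ ≤ (Finset.univ : Finset (Fin m)).card := Finset.card_image_le
      _ = m := by simp
  have hcard2 : (J.card : ℝ) ≤ P.card + m := by
    have h1 : (J \ P).card + P.card = J.card :=
      Finset.card_sdiff_add_card_eq_card (Finset.filter_subset _ _)
    have h2 : J.card ≤ P.card + m := by omega
    exact_mod_cast h2
  have hout : ∑ j, outInd b Y (x j) = (k : ℝ) - J.card := by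
    have h1 : ∀ j, outInd b Y (x j) = 1 - (if j ∈ J then (1 : ℝ) else 0) := by
      intro j
      unfold outInd
      by_cases hj : j ∈ J
      · have := (Finset.mem_filter.1 hj).2
        rw [if_pos this, if_pos hj]; ring
      · have : ¬ ∃ l, ‖x j - Y l‖ < b := fun h => hj (Finset.mem_filter.2 ⟨Finset.mem_univ _, h⟩)
        rw [if_neg this, if_neg hj]; ring
    simp_rw [h1]
    rw [Finset.sum_sub_distrib]
    simp
  have hpair : κ * P.card ≤ ∑ i, ∑ j ∈ Finset.Iio i, G j i := by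
    have h1 : ∀ i, (if i ∈ P then κ else 0) ≤ ∑ j ∈ Finset.Iio i, G j i := by
      intro i
      have hnn : ∀ j ∈ Finset.Iio i, 0 ≤ G j i := fun j hj =>
        hG0 j i (ne_of_lt (Finset.mem_Iio.1 hj))
      split_ifs with hi
      · obtain ⟨hiJ, i', hlt, hi'J, heq⟩ := Finset.mem_filter.1 hi
        obtain ⟨l, hl, hbl⟩ := hal i hiJ
        obtain ⟨l', hl', hbl'⟩ := hal i' hi'J
        rw [heq, hl] at hl'
        have : l = l' := Option.some_injective _ hl'
        subst this
        refine (hG i' i l (ne_of_lt hlt) hbl' hbl).trans ?_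
        exact Finset.single_le_sum hnn (Finset.mem_Iio.2 hlt)
      · exact Finset.sum_nonneg hnn
    calc κ * P.card = ∑ i, (if i ∈ P then κ else 0) := by
          rw [Finset.sum_ite_mem]; simp; ring
      _ ≤ _ := Finset.sum_le_sum (fun i _ => h1 i)
  rw [hout]
  nlinarith [mul_le_mul_of_nonneg_left hcard2 hκ]

variable {m n : ℕ} {T r₁ b a R κ δ δ₁ η g : ℝ}

/-- The pointwise lower bound at configurations without coinciding electrons. -/
theorem pointwise_lower (h : Good m n T r₁ b a R κ δ δ₁ η g) (Y : Fin m → R3)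
    (hR : 0 < R) (hY : ∀ l l', l ≠ l' → R ≤ ‖Y l - Y l'‖) {k : ℕ} (x : Fin k → R3)
    (hx : ∀ i j, i ≠ j → x i ≠ x j) :
    -((k : ℝ) / 4) - k * δ + κ * max ((k : ℝ) - m) 0 + ((k : ℝ) - m) * L0 a / 2 ≤
      ∑ j, ∑ l, qn n T ‖x j - Y l‖ + coulomb Y (fun _ => 1) x := by
  have ha := h.ha
  have hκ := h.hκ
  have h1 := fun j => one_body h Y hY (x j)
  have h2 := Finset.sum_le_sum (fun j (_ : j ∈ Finset.univ) => h1 j)
  have h3 := long_range ha x Y
  have hpos : ∀ i j, i ≠ j → 0 < ‖x i - x j‖ := fun i j hij =>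
    norm_pos_iff.2 (sub_ne_zero.2 (hx i j hij))
  have hG0 : ∀ i j, i ≠ j → 0 ≤ 1 / ‖x i - x j‖ - Lk a ‖x i - x j‖ := fun i j hij =>
    Gk_nonneg ha (hpos i j hij)
  have h4 := pair_count (b := b) hκ x Y (fun i j => 1 / ‖x i - x j‖ - Lk a ‖x i - x j‖) hG0
    (fun i j l hij hi hj => h.hκG _ (hpos i j hij) (by
      have e : x i - x j = (x i - Y l) - (x j - Y l) := by abel
      rw [e]
      have := norm_sub_le (x i - Y l) (x j - Y l)
      linarith))
  have h5 : 0 ≤ ∑ i, ∑ j ∈ Finset.Iio i, (1 / ‖x j - x i‖ - Lk a ‖x j - x i‖) :=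
    Finset.sum_nonneg (fun i _ => Finset.sum_nonneg (fun j hj =>
      hG0 j i (ne_of_lt (Finset.mem_Iio.1 hj))))
  have h6 : 0 ≤ ∑ i, ∑ j ∈ Finset.Iio i, (1 / ‖Y j - Y i‖ - Lk a ‖Y j - Y i‖) :=
    Finset.sum_nonneg (fun i _ => Finset.sum_nonneg (fun j hj =>
      Gk_nonneg ha (lt_of_lt_of_le hR (hY j i (ne_of_lt (Finset.mem_Iio.1 hj))))))
  have h7 : κ * max ((k : ℝ) - m) 0 ≤ κ * ∑ j, outInd b Y (x j)
      + ∑ i, ∑ j ∈ Finset.Iio i, (1 / ‖x j - x i‖ - Lk a ‖x j - x i‖) := by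
    rcases max_cases ((k : ℝ) - m) 0 with ⟨hm, _⟩ | ⟨hm, _⟩
    · rw [hm]; exact h4
    · rw [hm, mul_zero]
      have : 0 ≤ κ * ∑ j, outInd b Y (x j) :=
        mul_nonneg hκ (Finset.sum_nonneg (fun j _ => outInd_nonneg b Y (x j)))
      linarith
  simp only [Finset.sum_sub_distrib, Finset.sum_add_distrib, Finset.sum_const, Finset.card_univ,
    Fintype.card_fin, nsmul_eq_mul, ← Finset.mul_sum] at h2 h5 h6 h7
  unfold coulomb
  simp only [Nat.cast_one, one_mul]
  linarith

end Pool.Agent.helper840_dilute
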