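import Pool.Agent.helper840_dilute.Limit

open MeasureTheory Filter Topology

namespace Pool.Agent.helper840_dilute

theorem hasDerivAt_max_sq (u : ℝ) :
    HasDerivAt (fun u : ℝ => (max u 0) ^ 2) (2 * max u 0) u := by
  rcases lt_trichotomy u 0 with h | h | h
  · have h1 : (fun u : ℝ => (max u 0) ^ 2) =ᶠ[𝓝 u] fun _ => (0 : ℝ) := by
      filter_upwards [Iio_mem_nhds h] with v hv
      rw [max_eq_right (le_of_lt hv)]; simp
    rw [max_eq_right h.le, mul_zero]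
    exact (hasDerivAt_const u (0 : ℝ)).congr_of_eventuallyEq h1
  · subst h
    rw [max_self, mul_zero, hasDerivAt_iff_isLittleO_nhds_zero]
    simp only [zero_add, max_self, smul_zero, sub_zero]
    rw [Asymptotics.isLittleO_iff]
    intro c hc
    filter_upwards [Metric.ball_mem_nhds (0 : ℝ) hc] with v hv
    have hv' : |v| < c := by simpa using hv
    have h1 : max v 0 ≤ |v| := max_le (le_abs_self v) (abs_nonneg v)
    have h2 : 0 ≤ max v 0 := le_max_right _ _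
    rw [Real.norm_eq_abs, Real.norm_eq_abs]
    have h3 : |(max v 0) ^ 2 - 0 ^ 2| = (max v 0) ^ 2 := by
      rw [abs_of_nonneg] <;> nlinarith [sq_nonneg (max v 0)]
    rw [h3]
    nlinarith
  · have h1 : (fun u : ℝ => (max u 0) ^ 2) =ᶠ[𝓝 u] fun v => v ^ 2 := by
      filter_upwards [Ioi_mem_nhds h] with v hv
      rw [max_eq_left (le_of_lt hv)]
    rw [max_eq_left h.le]
    have h2 : HasDerivAt (fun v : ℝ => v ^ 2) (2 * u) u := by
      simpa using hasDerivAt_pow 2 u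
    exact h2.congr_of_eventuallyEq h1

/-- cut-off profile -/
noncomputable def prof (n : ℕ) (T t : ℝ) : ℝ := (max (1 - (t / T) ^ n) 0) ^ 2 / 2

noncomputable def prof' (n : ℕ) (T t : ℝ) : ℝ :=
  -(max (1 - (t / T) ^ n) 0 * (n * (t / T) ^ (n - 1) / T))

theorem hasDerivAt_prof (n : ℕ) (T t : ℝ) : HasDerivAt (prof n T) (prof' n T t) t := by
  have h1 : HasDerivAt (fun t : ℝ => t / T) (1 / T) t := (hasDerivAt_id t).div_const T
  have h2 : HasDerivAt (fun t : ℝ => 1 - (t / T) ^ n) (-(n * (t / T) ^ (n - 1) * (1 / T))) t := by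
    have := (h1.pow n).const_sub 1
    exact this
  have h3 := (hasDerivAt_max_sq (1 - (t / T) ^ n)).comp t h2
  have h4 : HasDerivAt (prof n T) _ t := h3.div_const 2
  convert h4 using 1
  unfold prof'
  ring

theorem continuous_prof' (n : ℕ) (T : ℝ) : Continuous (prof' n T) := by
  unfold prof'
  have h1 : Continuous (fun t : ℝ => t / T) := continuous_id.div_const T
  exact (((continuous_const.sub (h1.pow n)).max continuous_const).mul
    ((continuous_const.mul (h1.pow (n - 1))).div_const T)).neg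

theorem contDiff_prof (n : ℕ) (T : ℝ) : ContDiff ℝ 1 (prof n T) := by
  rw [contDiff_one_iff_deriv]
  refine ⟨fun t => (hasDerivAt_prof n T t).differentiableAt, ?_⟩
  have : deriv (prof n T) = prof' n T := funext fun t => (hasDerivAt_prof n T t).deriv
  rw [this]
  exact continuous_prof' n T

theorem prof_nonneg (n : ℕ) (T t : ℝ) : 0 ≤ prof n T t := by unfold prof; positivity

theorem prof'_nonpos (n : ℕ) {T : ℝ} (hT : 0 < T) (t : ℝ) (ht : 0 ≤ t) : prof' n T t ≤ 0 := by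
  unfold prof'
  have : 0 ≤ max (1 - (t / T) ^ n) 0 * (n * (t / T) ^ (n - 1) / T) := by
    have := le_max_right (1 - (t / T) ^ n) 0
    positivity
  linarith

theorem prof_eq_zero {n : ℕ} {T t : ℝ} (hT : 0 < T) (h : T ≤ t) : prof n T t = 0 := by
  unfold prof
  have h1 : 1 ≤ t / T := by rwa [le_div_iff₀ hT, one_mul]
  have h2 : 1 ≤ (t / T) ^ n := one_le_pow₀ h1
  rw [max_eq_right (by linarith)]
  norm_num

theorem prof'_eq_zero {n : ℕ} {T t : ℝ} (hT : 0 < T) (h : T ≤ t) : prof' n T t = 0 := by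
  unfold prof'
  have h1 : 1 ≤ t / T := by rwa [le_div_iff₀ hT, one_mul]
  have h2 : 1 ≤ (t / T) ^ n := one_le_pow₀ h1
  rw [max_eq_right (by linarith)]
  norm_num

noncomputable def qn (n : ℕ) (T r : ℝ) : ℝ := qprof (prof n T) (prof' n T) r

theorem qn_eq_zero {n : ℕ} {T r : ℝ} (hT : 0 < T) (h : T ≤ r ^ 2) : qn n T r = 0 := by
  unfold qn qprof
  rw [prof_eq_zero hT h, prof'_eq_zero hT h]
  simp

theorem qn_zero {n : ℕ} (hn : n ≠ 0) {T : ℝ} : qn n T 0 = -1 / 4 := by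
  unfold qn qprof prof prof'
  simp [hn]
  norm_num

/-- Basic lower bound for the profile. -/
theorem qn_ge {n : ℕ} (hn : n ≠ 0) {T r : ℝ} (hT : 0 < T) (hr : 0 < r) (h : r ^ 2 ≤ T) :
    1 / r - 1 / 4 + (r ^ 2 / T) ^ n * (1 / 4 - (2 * n + 2) / r) ≤ qn n T r := by
  obtain ⟨k, rfl⟩ := Nat.exists_eq_succ_of_ne_zero hn
  set g : ℝ := (r ^ 2 / T) ^ (k + 1) with hg
  have hx0 : 0 ≤ r ^ 2 / T := by positivity
  have hx1 : r ^ 2 / T ≤ 1 := by rwa [div_le_one hT]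
  have hg0 : 0 ≤ g := by positivity
  have hg1 : g ≤ 1 := pow_le_one₀ hx0 hx1
  have e1 : prof (k + 1) T (r ^ 2) = (1 - g) ^ 2 / 2 := by
    unfold prof; rw [← hg, max_eq_left (by linarith)]
  have e2 : prof' (k + 1) T (r ^ 2) * r = -((1 - g) * ((k + 1 : ℕ) * g / r)) := by
    unfold prof'
    rw [← hg, max_eq_left (by linarith), Nat.add_sub_cancel]
    have : g = (r ^ 2 / T) ^ k * (r ^ 2 / T) := by rw [hg, pow_succ]
    have e3 : ((k + 1 : ℕ) : ℝ) * g / r = ((k + 1 : ℕ) : ℝ) * (r ^ 2 / T) ^ k / T * r := by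
      rw [this]; field_simp
    rw [e3]; ring
  unfold qn qprof
  rw [e1, mul_assoc, e2]
  have hk : (0 : ℝ) ≤ ((k + 1 : ℕ) : ℝ) := by positivity
  set K : ℝ := ((k + 1 : ℕ) : ℝ) with hK
  have i1 : (1 - 2 * g) / r ≤ 2 * ((1 - g) ^ 2 / 2) / r := by
    apply div_le_div_of_nonneg_right _ hr.le; nlinarith [sq_nonneg g]
  have i2 : -(2 * K * g / r) ≤ 2 * -((1 - g) * (K * g / r)) := by
    have : 0 ≤ K * g / r := by positivity
    have e : 2 * K * g / r = 2 * (K * g / r) := by ring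
    rw [e]; nlinarith
  have i3 : ((1 - g) ^ 2 / 2) ^ 2 ≤ (1 - g) / 4 := by
    have h1 : 0 ≤ 1 - g := by linarith
    have h2 : (1 - g) ^ 3 ≤ 1 := pow_le_one₀ h1 (by linarith)
    have : ((1 - g) ^ 2 / 2) ^ 2 = (1 - g) * (1 - g) ^ 3 / 4 := by ring
    rw [this]; nlinarith
  have e4 : 1 / r - 1 / 4 + g * (1 / 4 - (2 * K + 2) / r)
      = (1 - 2 * g) / r + -(2 * K * g / r) - (1 - g) / 4 := by ring
  rw [e4]
  linarith

theorem qn_ge_near {n : ℕ} (hn : n ≠ 0) {T r : ℝ} (hT : 0 < T) (hr : 0 < r) (h : r ^ 2 ≤ T) :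
    1 / r - 1 / 4 - (2 * n + 2) * (8 * (n + 1)) ^ (2 * n - 1) / T ^ n ≤ qn n T r := by
  have h1 := qn_ge hn hT hr h
  have hδ : 0 ≤ (2 * (n : ℝ) + 2) * (8 * (n + 1)) ^ (2 * n - 1) / T ^ n := by positivity
  rcases le_or_gt (8 * ((n : ℝ) + 1)) r with h2 | h2
  · have h3 : 0 ≤ (r ^ 2 / T) ^ n * (1 / 4 - (2 * n + 2) / r) := by
      refine mul_nonneg (by positivity) ?_
      have : (2 * (n : ℝ) + 2) / r ≤ 1 / 4 := by rw [div_le_iff₀ hr]; linarith
      linarith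
    linarith
  · obtain ⟨k, rfl⟩ := Nat.exists_eq_succ_of_ne_zero hn
    have e : (r ^ 2 / T) ^ (k + 1) * ((2 * ((k + 1 : ℕ) : ℝ) + 2) / r)
        = (2 * ((k + 1 : ℕ) : ℝ) + 2) * r ^ (2 * (k + 1) - 1) / T ^ (k + 1) := by
      have : 2 * (k + 1) - 1 = 2 * k + 1 := by omega
      rw [this, div_pow]
      field_simp
      ring
    have h4 : r ^ (2 * (k + 1) - 1) ≤ (8 * (((k + 1 : ℕ) : ℝ) + 1)) ^ (2 * (k + 1) - 1) :=
      pow_le_pow_left₀ hr.le h2.le _
    have h5 : (r ^ 2 / T) ^ (k + 1) * ((2 * ((k + 1 : ℕ) : ℝ) + 2) / r)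
        ≤ (2 * ((k + 1 : ℕ) : ℝ) + 2) * (8 * (((k + 1 : ℕ) : ℝ) + 1)) ^ (2 * (k + 1) - 1)
          / T ^ (k + 1) := by
      rw [e]
      apply div_le_div_of_nonneg_right _ (by positivity)
      exact mul_le_mul_of_nonneg_left h4 (by positivity)
    have h6 : 0 ≤ (r ^ 2 / T) ^ (k + 1) * (1 / 4) := by positivity
    have e2 : (r ^ 2 / T) ^ (k + 1) * (1 / 4 - (2 * ((k + 1 : ℕ) : ℝ) + 2) / r)
        = (r ^ 2 / T) ^ (k + 1) * (1 / 4)
          - (r ^ 2 / T) ^ (k + 1) * ((2 * ((k + 1 : ℕ) : ℝ) + 2) / r) := by ring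
    rw [e2] at h1
    simp only [Nat.succ_eq_add_one] at *
    linarith

theorem qn_ge_far {n : ℕ} (hn : n ≠ 0) {T r b : ℝ} (hT : 0 < T) (hb : 16 * ((n : ℝ) + 1) ≤ b)
    (hbr : b ≤ r) (h : r ^ 2 ≤ T) :
    1 / r - 1 / 4 + (b ^ 2 / T) ^ n / 8 ≤ qn n T r := by
  have hb0 : 0 < b := lt_of_lt_of_le (by positivity) hb
  have hr : 0 < r := lt_of_lt_of_le hb0 hbr
  have h1 := qn_ge hn hT hr h
  have h2 : (2 * (n : ℝ) + 2) / r ≤ 1 / 8 := by rw [div_le_iff₀ hr]; linarith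
  have h3 : (b ^ 2 / T) ^ n ≤ (r ^ 2 / T) ^ n := by
    apply pow_le_pow_left₀ (by positivity)
    apply div_le_div_of_nonneg_right _ hT.le
    exact pow_le_pow_left₀ hb0.le hbr 2
  have h4 : 0 ≤ (r ^ 2 / T) ^ n := by positivity
  have h5 : (r ^ 2 / T) ^ n * (1 / 8) ≤ (r ^ 2 / T) ^ n * (1 / 4 - (2 * n + 2) / r) :=
    mul_le_mul_of_nonneg_left (by linarith) h4
  linarith

end Pool.Agent.helper840_dilute
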