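import Pool.Agent.helper840_dilute.Trial

open MeasureTheory Filter Topology

namespace Pool.Agent.helper840_dilute

variable {ρ : ℝ} {U : ℝ → ℝ} {u : R3 → ℝ} {k : ℕ}

/-- product of orbitals centred at `c` -/
noncomputable def prodP (u : R3 → ℝ) (c : Fin k → R3) (x : Fin k → R3) : ℝ :=
  ∏ j, u (x j - c j)

theorem prodP_sq (c x : Fin k → R3) : prodP u c x ^ 2 = dens u c x := by
  unfold prodP dens; rw [Finset.prod_pow]

theorem prodP_smooth (h : Orb ρ U u) (c : Fin k → R3) :
    ContDiff ℝ (⊤ : ℕ∞) (prodP u c) := by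
  unfold prodP
  refine contDiff_prod (fun l _ => ?_)
  have h1 : ContDiff ℝ (⊤ : ℕ∞) (fun x : Fin k → R3 => x l - c l) :=
    (contDiff_apply ℝ R3 l).sub contDiff_const
  exact h.smooth.comp h1

theorem prodP_c1 (h : Orb ρ U u) (c : Fin k → R3) : ContDiff ℝ 1 (prodP u c) :=
  (prodP_smooth h c).of_le (by exact_mod_cast le_top)

theorem prodP_zero (h : Orb ρ U u) (c x : Fin k → R3) (hx : ∃ l, ρ ≤ ‖x l - c l‖) :
    prodP u c x = 0 := by
  obtain ⟨l, hl⟩ := hx
  exact Finset.prod_eq_zero (Finset.mem_univ l) (h.zero hl)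

theorem prodP_hcs (h : Orb ρ U u) (c : Fin k → R3) : HasCompactSupport (prodP u c) :=
  hcs_box _ c ρ (fun x hx => prodP_zero h c x (by obtain ⟨l, hl⟩ := hx; exact ⟨l, hl.le⟩))

/-- derivative of the product in the direction of one electron -/
theorem prodP_deriv (h : Orb ρ U u) (c x : Fin k → R3) (j : Fin k) (v : R3) :
    fderiv ℝ (prodP u c) x (Pi.single j v) =
      fderiv ℝ u (x j - c j) v * ∏ l ∈ Finset.univ.erase j, u (x l - c l) := by
  have h0 : DifferentiableAt ℝ (prodP u c) x := (prodP_c1 h c).differentiable (by norm_num) x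
  rw [← h0.lineDeriv_eq_fderiv]
  have h1 : DifferentiableAt ℝ u (x j - c j) := h.c1.differentiable (by norm_num) _
  rw [← h1.lineDeriv_eq_fderiv]
  unfold lineDeriv
  have h2 : (fun t : ℝ => prodP u c (x + t • (Pi.single j v : Fin k → R3)))
      = fun t => u (x j - c j + t • v) * ∏ l ∈ Finset.univ.erase j, u (x l - c l) := by
    funext t
    unfold prodP
    rw [← Finset.mul_prod_erase _ _ (Finset.mem_univ j)]
    congr 1
    · simp only [Pi.add_apply, Pi.smul_apply, Pi.single_eq_same]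
      congr 1; abel
    · refine Finset.prod_congr rfl (fun l hl => ?_)
      have : l ≠ j := Finset.ne_of_mem_erase hl
      simp [Pi.single_eq_of_ne this]
  rw [h2, deriv_mul_const_field]

/-- Fubini for a product with one special factor -/
theorem prod_one (c : Fin k → R3) (j : Fin k) (G : R3 → ℝ) :
    ∫ x : Fin k → R3, G (x j - c j) * ∏ l ∈ Finset.univ.erase j, (u (x l - c l)) ^ 2 =
      (∫ z, G z) * ∏ _l ∈ (Finset.univ.erase j : Finset (Fin k)), (∫ z, u z ^ 2) := by
  have h1 : ∀ x : Fin k → R3, G (x j - c j) * ∏ l ∈ Finset.univ.erase j, (u (x l - c l)) ^ 2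
      = ∏ l, (if l = j then G (x l - c l) else (u (x l - c l)) ^ 2) := by
    intro x
    rw [← Finset.mul_prod_erase _ _ (Finset.mem_univ j), if_pos rfl]
    congr 1
    refine Finset.prod_congr rfl (fun l hl => ?_)
    rw [if_neg (Finset.ne_of_mem_erase hl)]
  simp_rw [h1]
  rw [integral_fintype_prod_volume_eq_prod
    (f := fun (l : Fin k) (z : R3) => if l = j then G (z - c l) else (u (z - c l)) ^ 2)]
  rw [← Finset.mul_prod_erase _ _ (Finset.mem_univ j)]
  simp only [if_true]
  congr 1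
  · exact integral_sub_right_eq_self G (c j)
  · refine Finset.prod_congr rfl (fun l hl => ?_)
    simp only [if_neg (Finset.ne_of_mem_erase hl)]
    exact integral_sub_right_eq_self (fun z => u z ^ 2) (c l)

theorem int_dens (c : Fin k → R3) (j : Fin k) :
    ∫ x : Fin k → R3, dens u c x =
      (∫ z, u z ^ 2) * ∏ _l ∈ (Finset.univ.erase j : Finset (Fin k)), (∫ z, u z ^ 2) := by
  rw [← prod_one c j (fun z => u z ^ 2)]
  refine integral_congr_ae (ae_of_all _ (fun x => ?_))
  show dens u c x = u (x j - c j) ^ 2 * ∏ l ∈ Finset.univ.erase j, (u (x l - c l)) ^ 2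
  unfold dens
  rw [← Finset.mul_prod_erase _ _ (Finset.mem_univ j)]

theorem int_dens_pow (c : Fin k → R3) :
    ∫ x : Fin k → R3, dens u c x = (∫ z, u z ^ 2) ^ k := by
  unfold dens
  rw [integral_fintype_prod_volume_eq_prod
    (f := fun (l : Fin k) (z : R3) => (u (z - c l)) ^ 2)]
  have : ∀ l : Fin k, ∫ z : R3, (u (z - c l)) ^ 2 = ∫ z, u z ^ 2 := fun l =>
    integral_sub_right_eq_self (fun z => u z ^ 2) (c l)
  simp_rw [this]
  simp

end Pool.Agent.helper840_dilute
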