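import Pool.Agent.helper840_dilute.Slater

open MeasureTheory Filter Topology

namespace Pool.Agent.helper840_dilute

variable {ρ : ℝ} {U : ℝ → ℝ} {u : R3 → ℝ} {k m : ℕ}

/-- complexification of a real function -/
noncomputable def cf (g : (Fin k → R3) → ℝ) : (Fin k → R3) → ℂ := fun x => (g x : ℂ)

theorem cf_c1 {g : (Fin k → R3) → ℝ} (hg : ContDiff ℝ 1 g) : ContDiff ℝ 1 (cf g) :=
  Complex.ofRealCLM.contDiff.comp hg

theorem cf_hcs {g : (Fin k → R3) → ℝ} (hg : HasCompactSupport g) : HasCompactSupport (cf g) :=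
  hg.comp_left (g := fun t : ℝ => (t : ℂ)) (by simp)

theorem cf_sq (g : (Fin k → R3) → ℝ) (x : Fin k → R3) : ‖cf g x‖ ^ 2 = g x ^ 2 := by
  simp [cf, sq_abs]

theorem cf_fderiv {g : (Fin k → R3) → ℝ} (hg : ContDiff ℝ 1 g) (x v : Fin k → R3) :
    ‖fderiv ℝ (cf g) x v‖ ^ 2 = (fderiv ℝ g x v) ^ 2 := by
  have h1 : HasFDerivAt g (fderiv ℝ g x) x := (hg.differentiable (by norm_num) x).hasFDerivAt
  have h2 : HasFDerivAt (cf g) _ x := Complex.ofRealCLM.hasFDerivAt.comp x h1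
  rw [h2.fderiv]
  simp [sq_abs]

noncomputable def kinR (g : (Fin k → R3) → ℝ) (x : Fin k → R3) : ℝ :=
  ∑ j, ∑ a, (fderiv ℝ g x (Pi.single j (EuclideanSpace.single a 1))) ^ 2

theorem kinetic_cf {g : (Fin k → R3) → ℝ} (hg : ContDiff ℝ 1 g) (x : Fin k → R3) :
    kinetic (cf g) x = kinR g x := by
  unfold kinetic kinR
  refine Finset.sum_congr rfl (fun j _ => Finset.sum_congr rfl (fun a _ => ?_))
  exact cf_fderiv hg x _

theorem int_dir_real {g : (Fin k → R3) → ℝ} (hg : ContDiff ℝ 1 g) (hc : HasCompactSupport g)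
    (v : Fin k → R3) : Integrable (fun x => (fderiv ℝ g x v) ^ 2) := by
  have := integrable_dir (μ := (volume : Measure (Fin k → R3))) (cf_c1 hg) (cf_hcs hc) v
  simp_rw [cf_fderiv hg] at this
  exact this

theorem int_kinR {g : (Fin k → R3) → ℝ} (hg : ContDiff ℝ 1 g) (hc : HasCompactSupport g) :
    Integrable (fun x => kinR g x) := by
  have := integrable_kinetic (cf g) (cf_c1 hg) (cf_hcs hc)
  simp_rw [kinetic_cf hg] at this
  exact this

theorem int_en {g : (Fin k → R3) → ℝ} (hg : ContDiff ℝ 1 g) (hc : HasCompactSupport g)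
    (j : Fin k) (y : R3) : Integrable (fun x : Fin k → R3 => 1 / ‖x j - y‖ * g x ^ 2) := by
  have := integrable_en (cf g) (cf_c1 hg) (cf_hcs hc) j y
  simp_rw [cf_sq] at this
  exact this

theorem int_ee {g : (Fin k → R3) → ℝ} (hg : ContDiff ℝ 1 g) (hc : HasCompactSupport g)
    (i j : Fin k) (hij : i ≠ j) :
    Integrable (fun x : Fin k → R3 => 1 / ‖x i - x j‖ * g x ^ 2) := by
  have := integrable_ee (cf g) (cf_c1 hg) (cf_hcs hc) i j hij
  simp_rw [cf_sq] at this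
  exact this

theorem int_pot {g : (Fin k → R3) → ℝ} (hg : ContDiff ℝ 1 g) (hc : HasCompactSupport g)
    (Y : Fin m → R3) : Integrable (fun x : Fin k → R3 => coulomb Y (fun _ => 1) x * g x ^ 2) := by
  have := integrable_pot Y (fun _ => 1) (cf g) (cf_c1 hg) (cf_hcs hc)
  simp_rw [cf_sq] at this
  exact this

theorem int_sq {g : (Fin k → R3) → ℝ} (hg : ContDiff ℝ 1 g) (hc : HasCompactSupport g) :
    Integrable (fun x : Fin k → R3 => g x ^ 2) := by
  have := integrable_normsq_real (μ := (volume : Measure (Fin k → R3))) hg.continuous hc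
    (continuous_const (y := (1 : ℝ)))
  simpa using this

/-- The interaction energy of the product state: only the own attraction survives. -/
theorem prodP_coulomb (h : Orb ρ U u) {R : ℝ} (hR : 2 * ρ < R) (Y : Fin m → R3)
    (hY : ∀ l l', l ≠ l' → R ≤ ‖Y l - Y l'‖) (σ : Equiv.Perm (Fin m)) :
    ∫ x, coulomb Y (fun _ => 1) x * prodP u (Y ∘ σ) x ^ 2 =
      -(∑ j, ∫ x : Fin m → R3, 1 / ‖x j - Y (σ j)‖ * prodP u (Y ∘ σ) x ^ 2) := by
  classical
  have hρ := h.hρ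
  set P := prodP u (Y ∘ σ) with hP
  have hP1 : ContDiff ℝ 1 P := prodP_c1 h _
  have hPc : HasCompactSupport P := prodP_hcs h _
  set I := ∫ x, P x ^ 2 with hI
  have hId : ∫ x, dens u (Y ∘ σ) x = I := by
    rw [hI]; exact integral_congr_ae (ae_of_all _ (fun x => (prodP_sq _ _).symm))
  -- electron-nucleus terms
  have hen : ∀ j l, ∫ x : Fin m → R3, 1 / ‖x j - Y l‖ * P x ^ 2 =
      I * (1 / ‖Y (σ j) - Y l‖) +
        (if l = σ j then ∫ x : Fin m → R3, 1 / ‖x j - Y (σ j)‖ * P x ^ 2 else 0) := by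
    intro j l
    by_cases hl : l = σ j
    · subst hl
      rw [if_pos rfl]; simp
    · rw [if_neg hl, add_zero]
      have hlt : ρ < ‖(Y ∘ σ) j - Y l‖ := by
        have := hY (σ j) l (Ne.symm hl)
        simp only [Function.comp_apply]; linarith
      have := newton_en h (Y ∘ σ) j (Y l) hlt
      rw [hId] at this
      simp only [Function.comp_apply] at this
      rw [← this]
      refine integral_congr_ae (ae_of_all _ (fun x => ?_))
      show 1 / ‖x j - Y l‖ * P x ^ 2 = dens u (Y ∘ σ) x * (1 / ‖x j - Y l‖)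
      rw [hP, prodP_sq]; ring
  -- electron-electron terms
  have hee : ∀ i j, j < i → ∫ x : Fin m → R3, 1 / ‖x j - x i‖ * P x ^ 2 =
      I * (1 / ‖Y (σ j) - Y (σ i)‖) := by
    intro i j hji
    have hne : j ≠ i := ne_of_lt hji
    have hlt : 2 * ρ < ‖(Y ∘ σ) j - (Y ∘ σ) i‖ := by
      have := hY (σ j) (σ i) (fun hh => hne (σ.injective hh))
      simp only [Function.comp_apply]; linarith
    have := newton_ee h (Y ∘ σ) j i hne hlt
    rw [hId] at this
    simp only [Function.comp_apply] at this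
    rw [← this]
    refine integral_congr_ae (ae_of_all _ (fun x => ?_))
    show 1 / ‖x j - x i‖ * P x ^ 2 = dens u (Y ∘ σ) x * (1 / ‖x j - x i‖)
    rw [hP, prodP_sq]; ring
  set W : ℝ := ∑ i, ∑ j ∈ Finset.Iio i, 1 / ‖Y j - Y i‖ with hW
  have hsymY := sum_lt_symm (fun i j => 1 / ‖Y i - Y j‖) (fun i j => by rw [norm_sub_rev])
  have hsymS := sum_lt_symm (fun i j => 1 / ‖Y (σ i) - Y (σ j)‖)
    (fun i j => by rw [norm_sub_rev])
  simp only [sub_self, norm_zero, div_zero, Finset.sum_const_zero, zero_add] at hsymY hsymS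
  have hfull : ∑ i, ∑ j, 1 / ‖Y (σ i) - Y (σ j)‖ = ∑ i, ∑ j, 1 / ‖Y i - Y j‖ := by
    rw [Equiv.sum_comp σ (fun i' => ∑ j, 1 / ‖Y i' - Y (σ j)‖)]
    refine Finset.sum_congr rfl (fun i _ => ?_)
    exact Equiv.sum_comp σ (fun j' => 1 / ‖Y i - Y j'‖)
  have hhalf : ∑ j, ∑ l, 1 / ‖Y (σ j) - Y l‖ = 2 * W := by
    rw [Equiv.sum_comp σ (fun i' => ∑ j, 1 / ‖Y i' - Y j‖), hsymY]
  have hSW : ∑ i, ∑ j ∈ Finset.Iio i, 1 / ‖Y (σ j) - Y (σ i)‖ = W := by
    have : 2 * ∑ i, ∑ j ∈ Finset.Iio i, 1 / ‖Y (σ j) - Y (σ i)‖ = 2 * W := by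
      rw [← hsymS, hfull, hsymY]
    linarith
  have h1 : Integrable (fun x : Fin m → R3 => ∑ j, ∑ l, 1 / ‖x j - Y l‖ * P x ^ 2) :=
    integrable_finsetSum _ (fun j _ => integrable_finsetSum _ (fun l _ => int_en hP1 hPc j (Y l)))
  have h2 : Integrable (fun x : Fin m → R3 => ∑ i, ∑ j ∈ Finset.Iio i,
      1 / ‖x j - x i‖ * P x ^ 2) :=
    integrable_finsetSum _ (fun i _ => integrable_finsetSum _ (fun j hj =>
      int_ee hP1 hPc j i (ne_of_lt (Finset.mem_Iio.1 hj))))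
  have h3 : Integrable (fun x : Fin m → R3 => W * P x ^ 2) := (int_sq hP1 hPc).const_mul _
  have hsplit : ∀ x : Fin m → R3, coulomb Y (fun _ => 1) x * P x ^ 2 =
      -(∑ j, ∑ l, 1 / ‖x j - Y l‖ * P x ^ 2) + (∑ i, ∑ j ∈ Finset.Iio i,
      1 / ‖x j - x i‖ * P x ^ 2) + W * P x ^ 2 := by
    intro x
    unfold coulomb
    simp only [Nat.cast_one, one_mul]
    rw [hW]
    simp only [add_mul, neg_mul, Finset.sum_mul]
  simp_rw [hsplit]
  have hs1 := integral_add (h1.neg.add h2) h3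
  have hs2 := integral_add h1.neg h2
  simp only [Pi.add_apply, Pi.neg_apply] at hs1 hs2
  rw [hs1, hs2, integral_neg, integral_const_mul,
    integral_finsetSum _ (fun j _ => integrable_finsetSum _ (fun l _ => int_en hP1 hPc j (Y l))),
    integral_finsetSum _ (fun i _ => integrable_finsetSum _ (fun j hj =>
      int_ee hP1 hPc j i (ne_of_lt (Finset.mem_Iio.1 hj))))]
  have e1 : ∑ j, ∫ x : Fin m → R3, ∑ l, 1 / ‖x j - Y l‖ * P x ^ 2 =
      I * (2 * W) + ∑ j, ∫ x : Fin m → R3, 1 / ‖x j - Y (σ j)‖ * P x ^ 2 := by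
    rw [← hhalf, Finset.mul_sum, ← Finset.sum_add_distrib]
    refine Finset.sum_congr rfl (fun j _ => ?_)
    rw [integral_finsetSum _ (fun l _ => int_en hP1 hPc j (Y l)), Finset.mul_sum]
    rw [Finset.sum_congr rfl (fun l _ => hen j l), Finset.sum_add_distrib]
    simp
  have e2 : ∑ i, ∫ x : Fin m → R3, ∑ j ∈ Finset.Iio i, 1 / ‖x j - x i‖ * P x ^ 2 = I * W := by
    rw [← hSW, Finset.mul_sum]
    refine Finset.sum_congr rfl (fun i _ => ?_)
    rw [integral_finsetSum _ (fun j hj =>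
      int_ee hP1 hPc j i (ne_of_lt (Finset.mem_Iio.1 hj))), Finset.mul_sum]
    refine Finset.sum_congr rfl (fun j hj => ?_)
    exact hee i j (Finset.mem_Iio.1 hj)
  rw [e1, e2]
  ring

theorem prodP_energy (h : Orb ρ U u) {R : ℝ} (hR : 2 * ρ < R) (Y : Fin m → R3)
    (hY : ∀ l l', l ≠ l' → R ≤ ‖Y l - Y l'‖) (σ : Equiv.Perm (Fin m)) {e₁ : ℝ}
    (he : (∑ a, ∫ z, (fderiv ℝ u z (EuclideanSpace.single a 1)) ^ 2)
      - (∫ z, 1 / ‖z‖ * u z ^ 2) ≤ e₁ * ∫ z, u z ^ 2) :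
    ∫ x, (kinR (prodP u (Y ∘ σ)) x + coulomb Y (fun _ => 1) x * prodP u (Y ∘ σ) x ^ 2)
      ≤ m * e₁ * ∫ x, prodP u (Y ∘ σ) x ^ 2 := by
  set P := prodP u (Y ∘ σ) with hP
  have hP1 : ContDiff ℝ 1 P := prodP_c1 h _
  have hPc : HasCompactSupport P := prodP_hcs h _
  set I1 := ∫ z, u z ^ 2 with hI1
  have hI1' : 0 ≤ I1 := integral_nonneg (fun z => sq_nonneg _)
  have hcoul := prodP_coulomb h hR Y hY σ
  rw [← hP] at hcoul
  rw [integral_add (int_kinR hP1 hPc) (int_pot hP1 hPc Y), hcoul]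
  have hkin : ∫ x, kinR P x = ∑ j : Fin m, (∑ a, ∫ z, (fderiv ℝ u z (EuclideanSpace.single a 1)) ^ 2)
      * ∏ _l ∈ (Finset.univ.erase j : Finset (Fin m)), I1 := by
    unfold kinR
    rw [integral_finsetSum _ (fun _ _ => integrable_finsetSum _
      (fun _ _ => int_dir_real hP1 hPc _))]
    refine Finset.sum_congr rfl (fun j _ => ?_)
    rw [integral_finsetSum _ (fun _ _ => int_dir_real hP1 hPc _), Finset.sum_mul]
    refine Finset.sum_congr rfl (fun a _ => ?_)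
    rw [← prod_one (u := u) (Y ∘ σ) j
      (fun z => (fderiv ℝ u z (EuclideanSpace.single a 1)) ^ 2)]
    refine integral_congr_ae (ae_of_all _ (fun x => ?_))
    show (fderiv ℝ P x (Pi.single j (EuclideanSpace.single a 1))) ^ 2 =
      (fderiv ℝ u (x j - (Y ∘ σ) j) (EuclideanSpace.single a 1)) ^ 2
        * ∏ l ∈ Finset.univ.erase j, (u (x l - (Y ∘ σ) l)) ^ 2
    rw [hP, prodP_deriv h, mul_pow, Finset.prod_pow]
  have hown : ∀ j, ∫ x : Fin m → R3, 1 / ‖x j - Y (σ j)‖ * P x ^ 2 =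
      (∫ z, 1 / ‖z‖ * u z ^ 2) * ∏ _l ∈ (Finset.univ.erase j : Finset (Fin m)), I1 := by
    intro j
    rw [← prod_one (u := u) (Y ∘ σ) j (fun z => 1 / ‖z‖ * u z ^ 2)]
    refine integral_congr_ae (ae_of_all _ (fun x => ?_))
    show 1 / ‖x j - Y (σ j)‖ * P x ^ 2 =
      1 / ‖x j - (Y ∘ σ) j‖ * u (x j - (Y ∘ σ) j) ^ 2
        * ∏ l ∈ Finset.univ.erase j, (u (x l - (Y ∘ σ) l)) ^ 2
    rw [hP, prodP_sq]
    unfold dens
    rw [← Finset.mul_prod_erase _ _ (Finset.mem_univ j)]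
    simp only [Function.comp_apply]
    ring
  have hnorm : ∀ j : Fin m, ∫ x, P x ^ 2 =
      I1 * ∏ _l ∈ (Finset.univ.erase j : Finset (Fin m)), I1 := by
    intro j
    rw [← int_dens (u := u) (Y ∘ σ) j]
    exact integral_congr_ae (ae_of_all _ (fun x => prodP_sq _ _))
  rw [hkin]
  simp_rw [hown]
  rw [← sub_eq_add_neg, ← Finset.sum_sub_distrib]
  have hterm : ∀ j : Fin m, (∑ a, ∫ z, (fderiv ℝ u z (EuclideanSpace.single a 1)) ^ 2)
      * ∏ _l ∈ (Finset.univ.erase j : Finset (Fin m)), I1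
      - (∫ z, 1 / ‖z‖ * u z ^ 2) * ∏ _l ∈ (Finset.univ.erase j : Finset (Fin m)), I1
      ≤ e₁ * ∫ x, P x ^ 2 := by
    intro j
    rw [hnorm j, ← sub_mul, ← mul_assoc]
    exact mul_le_mul_of_nonneg_right he (Finset.prod_nonneg (fun _ _ => hI1'))
  calc _ ≤ ∑ _j : Fin m, e₁ * ∫ x, P x ^ 2 := Finset.sum_le_sum (fun j _ => hterm j)
    _ = m * e₁ * ∫ x, P x ^ 2 := by
        rw [Finset.sum_const, Finset.card_univ, Fintype.card_fin, nsmul_eq_mul]; ring

end Pool.Agent.helper840_dilute
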