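import Pool.Agent.helper840_dilute.Slater2

open MeasureTheory Filter Topology

namespace Pool.Agent.helper840_dilute

variable {ρ : ℝ} {U : ℝ → ℝ} {u : R3 → ℝ} {m : ℕ}

/-- Slater determinant -/
noncomputable def slater (u : R3 → ℝ) (Y : Fin m → R3) (x : Fin m → R3) : ℝ :=
  Matrix.det (Matrix.of (fun i j => u (x j - Y i)))

theorem slater_eq (u : R3 → ℝ) (Y : Fin m → R3) (x : Fin m → R3) :
    slater u Y x = ∑ σ : Equiv.Perm (Fin m), ((Equiv.Perm.sign σ : ℤ) : ℝ) *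
      prodP u (Y ∘ σ) x := by
  unfold slater
  rw [Matrix.det_apply']
  rfl

theorem sum_sq_disj {ι : Type*} [Fintype ι] (s c : ι → ℝ) (hs : ∀ i, s i ^ 2 = 1)
    (hc : ∀ i j, i ≠ j → c i * c j = 0) : (∑ i, s i * c i) ^ 2 = ∑ i, c i ^ 2 := by
  rw [sq_sum_of_orth]
  · refine Finset.sum_congr rfl (fun i _ => ?_)
    rw [mul_pow, hs, one_mul]
  · intro i j hij
    have := hc i j hij
    calc s i * c i * (s j * c j) = s i * s j * (c i * c j) := by ring
      _ = 0 := by rw [this, mul_zero]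

theorem sign_sq (σ : Equiv.Perm (Fin m)) : (((Equiv.Perm.sign σ : ℤ) : ℝ)) ^ 2 = 1 := by
  rcases Int.units_eq_one_or (Equiv.Perm.sign σ) with h | h <;> rw [h] <;> norm_num

theorem perm_disj {R : ℝ} (hR : 2 * ρ < R) (Y : Fin m → R3)
    (hY : ∀ l l', l ≠ l' → R ≤ ‖Y l - Y l'‖) (σ τ : Equiv.Perm (Fin m)) (hne : σ ≠ τ)
    (x : Fin m → R3) (h1 : ∀ j, ‖x j - Y (σ j)‖ ≤ ρ) (h2 : ∀ j, ‖x j - Y (τ j)‖ ≤ ρ) : False := by
  apply hne
  ext j
  by_contra hcon
  have h3 : σ j ≠ τ j := fun hh => hcon (by rw [hh])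
  have h4 := hY _ _ h3
  have h5 : ‖Y (σ j) - Y (τ j)‖ ≤ ‖x j - Y (σ j)‖ + ‖x j - Y (τ j)‖ := by
    have : Y (σ j) - Y (τ j) = -(x j - Y (σ j)) + (x j - Y (τ j)) := by abel
    rw [this]
    refine (norm_add_le _ _).trans ?_
    rw [norm_neg]
  have := h1 j
  have := h2 j
  linarith

theorem prodP_ne (h : Orb ρ U u) (c x : Fin m → R3) (hx : prodP u c x ≠ 0) (j : Fin m) :
    ‖x j - c j‖ ≤ ρ := by
  by_contra hcon
  push Not at hcon
  exact hx (prodP_zero h c x ⟨j, hcon.le⟩)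

theorem prodP_fderiv_ne (h : Orb ρ U u) (c x v : Fin m → R3)
    (hx : fderiv ℝ (prodP u c) x v ≠ 0) (j : Fin m) : ‖x j - c j‖ ≤ ρ := by
  by_contra hcon
  push Not at hcon
  apply hx
  have h1 : prodP u c =ᶠ[𝓝 x] fun _ => (0 : ℝ) := by
    have hopen : IsOpen {x : Fin m → R3 | ρ < ‖x j - c j‖} :=
      isOpen_lt continuous_const (by fun_prop)
    filter_upwards [hopen.mem_nhds hcon] with y hy
    exact prodP_zero h c y ⟨j, le_of_lt hy⟩
  rw [h1.fderiv_eq]
  simp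

theorem slater_smooth (h : Orb ρ U u) (Y : Fin m → R3) :
    ContDiff ℝ (⊤ : ℕ∞) (slater u Y) := by
  have : slater u Y = fun x => ∑ σ : Equiv.Perm (Fin m), ((Equiv.Perm.sign σ : ℤ) : ℝ) *
      prodP u (Y ∘ σ) x := funext (slater_eq u Y)
  rw [this]
  exact ContDiff.sum (fun σ _ => contDiff_const.mul (prodP_smooth h _))

theorem slater_c1 (h : Orb ρ U u) (Y : Fin m → R3) : ContDiff ℝ 1 (slater u Y) :=
  (slater_smooth h Y).of_le (by exact_mod_cast le_top)

theorem slater_hcs (h : Orb ρ U u) (Y : Fin m → R3) : HasCompactSupport (slater u Y) := by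
  refine hcs_box _ 0 (ρ + ∑ l, ‖Y l‖) (fun x hx => ?_)
  obtain ⟨j, hj⟩ := hx
  rw [slater_eq]
  refine Finset.sum_eq_zero (fun σ _ => ?_)
  rw [prodP_zero h (Y ∘ σ) x ⟨j, ?_⟩, mul_zero]
  have h1 : ‖Y (σ j)‖ ≤ ∑ l, ‖Y l‖ :=
    Finset.single_le_sum (fun l _ => norm_nonneg (Y l)) (Finset.mem_univ (σ j))
  have h2 : ‖x j‖ ≤ ‖x j - Y (σ j)‖ + ‖Y (σ j)‖ := by
    have := norm_add_le (x j - Y (σ j)) (Y (σ j))
    simpa using this
  have h3 : ρ + ∑ l, ‖Y l‖ < ‖x j‖ := by simpa using hj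
  simp only [Function.comp_apply]
  linarith

theorem slater_sq (h : Orb ρ U u) {R : ℝ} (hR : 2 * ρ < R) (Y : Fin m → R3)
    (hY : ∀ l l', l ≠ l' → R ≤ ‖Y l - Y l'‖) (x : Fin m → R3) :
    slater u Y x ^ 2 = ∑ σ : Equiv.Perm (Fin m), prodP u (Y ∘ σ) x ^ 2 := by
  rw [slater_eq, sum_sq_disj _ _ sign_sq]
  intro σ τ hne
  by_contra hcon
  exact perm_disj hR Y hY σ τ hne x (prodP_ne h (Y ∘ σ) x (left_ne_zero_of_mul hcon))
    (prodP_ne h (Y ∘ τ) x (right_ne_zero_of_mul hcon))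

theorem slater_fderiv_sq (h : Orb ρ U u) {R : ℝ} (hR : 2 * ρ < R) (Y : Fin m → R3)
    (hY : ∀ l l', l ≠ l' → R ≤ ‖Y l - Y l'‖) (x v : Fin m → R3) :
    (fderiv ℝ (slater u Y) x v) ^ 2 =
      ∑ σ : Equiv.Perm (Fin m), (fderiv ℝ (prodP u (Y ∘ σ)) x v) ^ 2 := by
  have h1 : slater u Y = fun x => ∑ σ : Equiv.Perm (Fin m), ((Equiv.Perm.sign σ : ℤ) : ℝ) *
      prodP u (Y ∘ σ) x := funext (slater_eq u Y)
  have h2 : HasFDerivAt (slater u Y) (∑ σ : Equiv.Perm (Fin m),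
      ((Equiv.Perm.sign σ : ℤ) : ℝ) • fderiv ℝ (prodP u (Y ∘ σ)) x) x := by
    rw [h1]
    refine HasFDerivAt.fun_sum (fun σ _ => ?_)
    exact (((prodP_c1 h (Y ∘ σ)).differentiable (by norm_num) x).hasFDerivAt).const_mul _
  rw [h2.fderiv, sum_apply]
  simp only [smul_apply, smul_eq_mul]
  rw [sum_sq_disj _ _ sign_sq]
  intro σ τ hne
  by_contra hcon
  exact perm_disj hR Y hY σ τ hne x (prodP_fderiv_ne h (Y ∘ σ) x v (left_ne_zero_of_mul hcon))
    (prodP_fderiv_ne h (Y ∘ τ) x v (right_ne_zero_of_mul hcon))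

theorem slater_energy (h : Orb ρ U u) {R : ℝ} (hR : 2 * ρ < R) (Y : Fin m → R3)
    (hY : ∀ l l', l ≠ l' → R ≤ ‖Y l - Y l'‖) {e₁ : ℝ}
    (he : (∑ a, ∫ z, (fderiv ℝ u z (EuclideanSpace.single a 1)) ^ 2)
      - (∫ z, 1 / ‖z‖ * u z ^ 2) ≤ e₁ * ∫ z, u z ^ 2) :
    ∫ x, (kinR (slater u Y) x + coulomb Y (fun _ => 1) x * slater u Y x ^ 2)
      ≤ m * e₁ * ∫ x, slater u Y x ^ 2 := by
  have h1 : ∀ x, kinR (slater u Y) x + coulomb Y (fun _ => 1) x * slater u Y x ^ 2 =
      ∑ σ : Equiv.Perm (Fin m), (kinR (prodP u (Y ∘ σ)) x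
        + coulomb Y (fun _ => 1) x * prodP u (Y ∘ σ) x ^ 2) := by
    intro x
    rw [Finset.sum_add_distrib, ← Finset.mul_sum, slater_sq h hR Y hY]
    congr 1
    have e2 : ∑ σ : Equiv.Perm (Fin m), kinR (prodP u (Y ∘ σ)) x =
        ∑ j, ∑ a, ∑ σ : Equiv.Perm (Fin m),
          (fderiv ℝ (prodP u (Y ∘ σ)) x (Pi.single j (EuclideanSpace.single a 1))) ^ 2 := by
      unfold kinR
      rw [Finset.sum_comm]
      exact Finset.sum_congr rfl (fun j _ => Finset.sum_comm)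
    rw [e2]
    unfold kinR
    refine Finset.sum_congr rfl (fun j _ => Finset.sum_congr rfl (fun a _ => ?_))
    exact slater_fderiv_sq h hR Y hY x _
  have hi : ∀ σ : Equiv.Perm (Fin m), Integrable (fun x => kinR (prodP u (Y ∘ σ)) x
        + coulomb Y (fun _ => 1) x * prodP u (Y ∘ σ) x ^ 2) := fun σ =>
    (int_kinR (prodP_c1 h _) (prodP_hcs h _)).add (int_pot (prodP_c1 h _) (prodP_hcs h _) Y)
  simp_rw [h1, slater_sq h hR Y hY]
  rw [integral_finsetSum _ (fun σ _ => hi σ),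
    integral_finsetSum _ (fun σ _ => int_sq (prodP_c1 h _) (prodP_hcs h _)), Finset.mul_sum]
  exact Finset.sum_le_sum (fun σ _ => prodP_energy h hR Y hY σ he)

theorem slater_norm_pos (h : Orb ρ U u) {R : ℝ} (hR : 2 * ρ < R) (Y : Fin m → R3)
    (hY : ∀ l l', l ≠ l' → R ≤ ‖Y l - Y l'‖) (hpos : 0 < ∫ z, u z ^ 2) :
    0 < ∫ x, slater u Y x ^ 2 := by
  simp_rw [slater_sq h hR Y hY]
  rw [integral_finsetSum _ (fun σ _ => int_sq (prodP_c1 h _) (prodP_hcs h _))]
  have h1 : ∀ σ : Equiv.Perm (Fin m), ∫ x, prodP u (Y ∘ σ) x ^ 2 = (∫ z, u z ^ 2) ^ m := by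
    intro σ
    rw [← int_dens_pow (u := u) (Y ∘ σ)]
    exact integral_congr_ae (ae_of_all _ (fun x => prodP_sq _ _))
  simp_rw [h1]
  refine Finset.sum_pos (fun σ _ => by positivity) ?_
  exact ⟨1, Finset.mem_univ _⟩

open Classical in
/-- The trial wave function: all spins up, Slater determinant in space. -/
noncomputable def psi (u : R3 → ℝ) (Y : Fin m → R3) : WaveFn m := fun s x =>
  if s = (fun _ => true) then (((√(∫ x, slater u Y x ^ 2))⁻¹ * slater u Y x : ℝ) : ℂ) else 0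

theorem slater_perm (u : R3 → ℝ) (Y : Fin m → R3) (τ : Equiv.Perm (Fin m)) (x : Fin m → R3) :
    slater u Y (x ∘ τ) = ((Equiv.Perm.sign τ : ℤ) : ℝ) * slater u Y x := by
  unfold slater
  have := Matrix.det_permute' τ (Matrix.of (fun i j => u (x j - Y i)))
  rw [← this]
  rfl

theorem psi_trial (h : Orb ρ U u) {R : ℝ} (hR : 2 * ρ < R) (Y : Fin m → R3)
    (hY : ∀ l l', l ≠ l' → R ≤ ‖Y l - Y l'‖) (hpos : 0 < ∫ z, u z ^ 2) :
    IsTrial (psi u Y) where
  smooth := by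
    intro s
    by_cases hs : s = fun _ => true
    · have : psi u Y s = fun x =>
          (((√(∫ x, slater u Y x ^ 2))⁻¹ * slater u Y x : ℝ) : ℂ) := by
        funext x; unfold psi; rw [if_pos hs]
      rw [this]
      exact Complex.ofRealCLM.contDiff.comp (contDiff_const.mul (slater_smooth h Y))
    · have : psi u Y s = fun _ => 0 := by
        funext x; unfold psi; rw [if_neg hs]
      rw [this]; exact contDiff_const
  compact := by
    intro s
    by_cases hs : s = fun _ => true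
    · have : psi u Y s = fun x =>
          (((√(∫ x, slater u Y x ^ 2))⁻¹ * slater u Y x : ℝ) : ℂ) := by
        funext x; unfold psi; rw [if_pos hs]
      rw [this]
      exact (slater_hcs h Y).comp_left
        (g := fun t : ℝ => (((√(∫ x, slater u Y x ^ 2))⁻¹ * t : ℝ) : ℂ)) (by simp)
    · have : psi u Y s = fun _ => 0 := by
        funext x; unfold psi; rw [if_neg hs]
      rw [this]; exact HasCompactSupport.zero
  antisymm := by
    intro σ s x
    have hiff : s ∘ σ = (fun _ => true) ↔ s = fun _ => true := by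
      constructor
      · intro hh
        funext j
        have := congrFun hh (σ.symm j)
        simpa using this
      · intro hh; subst hh; rfl
    unfold psi
    by_cases hs : s = fun _ => true
    · rw [if_pos hs, if_pos (hiff.2 hs), slater_perm]
      push_cast; ring
    · rw [if_neg hs, if_neg (fun hh => hs (hiff.1 hh)), mul_zero]
  norm_one := by
    rw [Finset.sum_eq_single (fun _ => true)]
    · have h1 : ∀ x, ‖psi u Y (fun _ => true) x‖ ^ 2 =
          ((√(∫ x, slater u Y x ^ 2))⁻¹) ^ 2 * slater u Y x ^ 2 := by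
        intro x
        unfold psi
        rw [if_pos rfl, Complex.norm_real, Real.norm_eq_abs, sq_abs, mul_pow]
      simp_rw [h1]
      have hp := slater_norm_pos h hR Y hY hpos
      rw [integral_const_mul, inv_pow, Real.sq_sqrt hp.le, inv_mul_cancel₀ hp.ne']
    · intro s _ hs
      have h1 : ∀ x, ‖psi u Y s x‖ ^ 2 = 0 := by
        intro x
        unfold psi
        rw [if_neg hs]; simp
      simp_rw [h1]; simp
    · intro hh; exact absurd (Finset.mem_univ _) hh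

theorem psi_energy (h : Orb ρ U u) {R : ℝ} (hR : 2 * ρ < R) (Y : Fin m → R3)
    (hY : ∀ l l', l ≠ l' → R ≤ ‖Y l - Y l'‖) (hpos : 0 < ∫ z, u z ^ 2) {e₁ : ℝ}
    (he : (∑ a, ∫ z, (fderiv ℝ u z (EuclideanSpace.single a 1)) ^ 2)
      - (∫ z, 1 / ‖z‖ * u z ^ 2) ≤ e₁ * ∫ z, u z ^ 2) :
    energy Y (fun _ => 1) (psi u Y) ≤ m * e₁ := by
  set N2 := ∫ x, slater u Y x ^ 2 with hN2
  have hp : 0 < N2 := slater_norm_pos h hR Y hY hpos
  set κ := (√N2)⁻¹ with hκ
  have hκ2 : κ ^ 2 * N2 = 1 := by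
    rw [hκ, inv_pow, Real.sq_sqrt hp.le, inv_mul_cancel₀ hp.ne']
  unfold energy
  rw [Finset.sum_eq_single (fun _ => true)]
  · have hS1 : ContDiff ℝ 1 (slater u Y) := slater_c1 h Y
    have h0 : psi u Y (fun _ => true) = cf (fun x => κ * slater u Y x) := by
      funext x; unfold psi; rw [if_pos rfl]; rfl
    have hc1 : ContDiff ℝ 1 (fun x => κ * slater u Y x) := contDiff_const.mul hS1
    have hkin : ∀ x, kinR (fun x => κ * slater u Y x) x = κ ^ 2 * kinR (slater u Y) x := by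
      intro x
      unfold kinR
      rw [Finset.mul_sum]
      refine Finset.sum_congr rfl (fun j _ => ?_)
      rw [Finset.mul_sum]
      refine Finset.sum_congr rfl (fun a _ => ?_)
      have h1 : HasFDerivAt (slater u Y) _ x :=
        (hS1.differentiable (by norm_num) x).hasFDerivAt
      have h2 := h1.const_mul κ
      rw [h2.fderiv]
      simp only [smul_apply, smul_eq_mul]
      ring
    have h3 : ∀ x, kinetic (psi u Y fun _ => true) x
        + coulomb Y (fun _ => 1) x * ‖psi u Y (fun _ => true) x‖ ^ 2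
        = κ ^ 2 * (kinR (slater u Y) x + coulomb Y (fun _ => 1) x * slater u Y x ^ 2) := by
      intro x
      rw [h0, kinetic_cf hc1, hkin, cf_sq]
      ring
    simp_rw [h3]
    rw [integral_const_mul]
    have h4 := slater_energy h hR Y hY he
    rw [← hN2] at h4
    calc κ ^ 2 * ∫ x, (kinR (slater u Y) x + coulomb Y (fun _ => 1) x * slater u Y x ^ 2)
        ≤ κ ^ 2 * (m * e₁ * N2) := mul_le_mul_of_nonneg_left h4 (sq_nonneg _)
      _ = m * e₁ * (κ ^ 2 * N2) := by ring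
      _ = m * e₁ := by rw [hκ2, mul_one]
  · intro s _ hs
    have h0 : psi u Y s = fun _ => 0 := by
      funext x; unfold psi; rw [if_neg hs]
    rw [h0]
    have h1 : ∀ x : Fin m → R3, kinetic (fun _ : Fin m → R3 => (0 : ℂ)) x
        + coulomb Y (fun _ => 1) x * ‖(0 : ℂ)‖ ^ 2 = 0 := by
      intro x
      unfold kinetic
      simp
    simp_rw [h1]; simp
  · intro hh; exact absurd (Finset.mem_univ _) hh

end Pool.Agent.helper840_dilute
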