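import Pool.Agent.helper840_dilute.Cutoff
import Pool.Agent.helper840_dilute.Orbital

open MeasureTheory Filter Topology

namespace Pool.Agent.helper840_dilute

noncomputable def Ut (ρ α ε t : ℝ) : ℝ :=
  Real.smoothTransition (2 - 2 * t / ρ ^ 2) * Real.exp (-(α * √(t + ε ^ 2)))

noncomputable def ut (ρ α ε : ℝ) (z : R3) : ℝ := Ut ρ α ε (‖z‖ ^ 2)

theorem orb_ut {ρ α ε : ℝ} (hρ : 0 < ρ) (hε : 0 < ε) : Orb ρ (Ut ρ α ε) (ut ρ α ε) where
  hρ := hρ
  hU := by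
    unfold Ut
    have h1 : Continuous (fun t : ℝ => 2 - 2 * t / ρ ^ 2) := by fun_prop
    have h2 := Real.smoothTransition.continuous.comp h1
    have h3 : Continuous (fun t : ℝ => Real.exp (-(α * √(t + ε ^ 2)))) := by fun_prop
    exact h2.mul h3
  hu := fun z => rfl
  smooth := by
    unfold ut Ut
    have n : ContDiff ℝ (⊤ : ℕ∞) (fun z : R3 => ‖z‖ ^ 2) := contDiff_id.norm_sq ℝ
    have h1 : ContDiff ℝ (⊤ : ℕ∞) (fun z : R3 => 2 - 2 * ‖z‖ ^ 2 / ρ ^ 2) :=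
      contDiff_const.sub ((contDiff_const.mul n).div_const _)
    have h2 : ContDiff ℝ (⊤ : ℕ∞) (fun z : R3 => √(‖z‖ ^ 2 + ε ^ 2)) :=
      (n.add contDiff_const).sqrt (fun z => by positivity)
    exact (Real.smoothTransition.contDiff.comp h1).mul ((contDiff_const.mul h2).neg.exp)
  supp := by
    intro t ht
    unfold Ut
    have : 2 - 2 * t / ρ ^ 2 ≤ 0 := by
      have : 2 ≤ 2 * t / ρ ^ 2 := by rw [le_div_iff₀ (by positivity)]; linarith
      linarith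
    rw [Real.smoothTransition.zero_of_nonpos this, zero_mul]

theorem contDiff_hreg_one {ε : ℝ} (hε : 0 < ε) (a : Fin 3) :
    ContDiff ℝ 1 (fld (hreg (fun _ => 1) ε) 0 a) :=
  contDiff_fld_hreg contDiff_const hε 0 a

/-- derivative of the trial orbital -/
theorem ut_deriv {ρ α ε : ℝ} (hρ : 0 < ρ) (hε : 0 < ε) (z : R3) :
    ∃ d : ℝ, |d| ≤ 4 ∧ (d ≠ 0 → ρ ^ 2 / 2 ≤ ‖z‖ ^ 2 ∧ ‖z‖ ^ 2 ≤ ρ ^ 2) ∧
      ∀ a, fderiv ℝ (ut ρ α ε) z (EuclideanSpace.single a 1) =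
        Real.exp (-(α * √(‖z‖ ^ 2 + ε ^ 2))) * (d * (-(4 * z a / ρ ^ 2)))
          - α * (z a / √(‖z‖ ^ 2 + ε ^ 2)) * ut ρ α ε z := by
  have hp : 0 < ‖z‖ ^ 2 + ε ^ 2 := by positivity
  obtain ⟨d, hd, hd4⟩ := transition_deriv_bound (2 - 2 * ‖z‖ ^ 2 / ρ ^ 2)
  refine ⟨d, hd4, ?_, ?_⟩
  · intro hne
    by_contra hcon
    apply hne
    rw [not_and_or, not_le, not_le] at hcon
    rcases hcon with h | h
    · have h1 : 1 < 2 - 2 * ‖z‖ ^ 2 / ρ ^ 2 := by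
        have : 2 * ‖z‖ ^ 2 / ρ ^ 2 < 1 := by rw [div_lt_one (by positivity)]; linarith
        linarith
      have h2 : Real.smoothTransition =ᶠ[𝓝 (2 - 2 * ‖z‖ ^ 2 / ρ ^ 2)] fun _ => (1 : ℝ) := by
        filter_upwards [Ioi_mem_nhds h1] with v hv
        exact Real.smoothTransition.one_of_one_le (le_of_lt hv)
      exact hd.unique ((hasDerivAt_const _ _).congr_of_eventuallyEq h2)
    · have h1 : 2 - 2 * ‖z‖ ^ 2 / ρ ^ 2 < 0 := by
        have : 2 < 2 * ‖z‖ ^ 2 / ρ ^ 2 := by rw [lt_div_iff₀ (by positivity)]; linarith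
        linarith
      have h2 : Real.smoothTransition =ᶠ[𝓝 (2 - 2 * ‖z‖ ^ 2 / ρ ^ 2)] fun _ => (0 : ℝ) := by
        filter_upwards [Iio_mem_nhds h1] with v hv
        exact Real.smoothTransition.zero_of_nonpos (le_of_lt hv)
      exact hd.unique ((hasDerivAt_const _ _).congr_of_eventuallyEq h2)
  · intro a
    have n1 : HasFDerivAt (fun z : R3 => ‖z‖ ^ 2) _ z := (hasFDerivAt_id z).norm_sq
    have h1 : HasFDerivAt (fun z : R3 => 2 - 2 * ‖z‖ ^ 2 / ρ ^ 2) _ z :=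
      ((n1.const_mul 2).mul_const (ρ ^ 2)⁻¹).const_sub 2
    have h2 : HasFDerivAt (fun z : R3 => Real.smoothTransition (2 - 2 * ‖z‖ ^ 2 / ρ ^ 2)) _ z :=
      HasDerivAt.comp_hasFDerivAt (h₂ := Real.smoothTransition)
        (f := fun z : R3 => 2 - 2 * ‖z‖ ^ 2 / ρ ^ 2) z hd h1
    have h3 : HasFDerivAt (fun z : R3 => √(‖z‖ ^ 2 + ε ^ 2)) _ z :=
      (n1.add_const (ε ^ 2)).sqrt hp.ne'
    have h4 : HasFDerivAt (fun z : R3 => Real.exp (-(α * √(‖z‖ ^ 2 + ε ^ 2)))) _ z :=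
      ((h3.const_mul α).neg).exp
    have h5 : HasFDerivAt (ut ρ α ε) _ z := h2.fun_mul h4
    rw [h5.fderiv]
    have h6 : (inner ℝ z (EuclideanSpace.single a (1 : ℝ)) : ℝ) = z a := by
      rw [EuclideanSpace.inner_single_right]; simp
    simp only [add_apply, smul_apply, smul_eq_mul, ContinuousLinearMap.comp_apply, neg_apply,
      innerSL_apply_apply, nsmul_eq_mul, Nat.cast_ofNat, ContinuousLinearMap.id_apply, id, h6,
      Pi.neg_apply]
    unfold ut Ut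
    field_simp
    ring

theorem fld_one_eq (ε : ℝ) (a : Fin 3) (z : R3) :
    fld (hreg (fun _ => 1) ε) 0 a z = z a / √(‖z‖ ^ 2 + ε ^ 2) := by
  simp [fld, hreg]; ring

theorem fld_one_div {ε : ℝ} (hε : 0 < ε) (z : R3) :
    ∑ a, fderiv ℝ (fld (hreg (fun _ => 1) ε) 0 a) z (EuclideanSpace.single a 1)
      = 2 / √(‖z‖ ^ 2 + ε ^ 2) + ε ^ 2 / √(‖z‖ ^ 2 + ε ^ 2) ^ 3 := by
  have h : ∀ a, fderiv ℝ (fld (hreg (fun _ => 1) ε) 0 a) z (EuclideanSpace.single a 1)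
      = 2 * hreg' (fun _ => 1) (fun _ => 0) ε (‖z‖ ^ 2) * z a ^ 2
        + hreg (fun _ => 1) ε (‖z‖ ^ 2) := by
    intro a
    have := hasFDerivAt_fld (h := hreg (fun _ => 1) ε) (h' := hreg' (fun _ => 1) (fun _ => 0) ε)
      0 a z (by
        rw [sub_zero]
        exact hasDerivAt_hreg (hasDerivAt_const _ _) (by positivity) hε)
    simpa using this
  simp_rw [h]
  rw [Fin.sum_univ_three]
  have hn := norm_sq_three z
  have hp : 0 < ‖z‖ ^ 2 + ε ^ 2 := by positivity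
  have hs : 0 < √(‖z‖ ^ 2 + ε ^ 2) := Real.sqrt_pos.2 hp
  have hs2 : √(‖z‖ ^ 2 + ε ^ 2) ^ 2 = ‖z‖ ^ 2 + ε ^ 2 := Real.sq_sqrt hp.le
  unfold hreg hreg'
  rw [← hs2]
  have e : ε ^ 2 = √(‖z‖ ^ 2 + ε ^ 2) ^ 2 - (z.ofLp 0 ^ 2 + z.ofLp 1 ^ 2 + z.ofLp 2 ^ 2) := by
    rw [hs2, ← hn]; ring
  rw [Real.sqrt_sq hs.le]
  generalize √(‖z‖ ^ 2 + ε ^ 2) = s at *
  rw [e]
  field_simp
  ring

/-- pointwise estimate behind the upper bound on the hydrogen energy -/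
theorem trial_pointwise {α ε r s t : ℝ} (hα : 0 ≤ α) (hr : 0 < r) (ht : t = r ^ 2) (hs : 0 < s)
    (hs2 : s ^ 2 = t + ε ^ 2) (hε : 0 < ε) (hαε : 2 * α + α ^ 2 * ε ≤ 1) :
    α * (2 / s + ε ^ 2 / s ^ 3) - α ^ 2 * (t / s ^ 2) ≤ 1 / r - α ^ 2 := by
  have hrs : r ≤ s := by
    apply le_of_sq_le_sq _ hs.le
    rw [hs2, ht]; nlinarith [sq_nonneg ε]
  have hεs : ε ≤ s := by
    apply le_of_sq_le_sq _ hs.le
    rw [hs2, ht]; nlinarith [sq_nonneg r]
  -- 1/s + ε²/(2s³) ≤ 1/r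
  have h1 : 2 / s + ε ^ 2 / s ^ 3 ≤ 2 / r := by
    have e1 : 2 / s + ε ^ 2 / s ^ 3 = (2 * s ^ 2 + ε ^ 2) / s ^ 3 := by field_simp
    rw [e1, div_le_div_iff₀ (by positivity) hr]
    -- (2 s² + ε²) r ≤ 2 s³
    have h2 : ((2 * s ^ 2 + ε ^ 2) * r) ^ 2 ≤ (2 * s ^ 3) ^ 2 := by
      have hr2 : r ^ 2 = s ^ 2 - ε ^ 2 := by rw [hs2, ht]; ring
      have e2 : ((2 * s ^ 2 + ε ^ 2) * r) ^ 2 = (2 * s ^ 2 + ε ^ 2) ^ 2 * (s ^ 2 - ε ^ 2) := by
        rw [mul_pow, hr2]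
      rw [e2]
      have : (2 * s ^ 3) ^ 2 - (2 * s ^ 2 + ε ^ 2) ^ 2 * (s ^ 2 - ε ^ 2)
          = 3 * ε ^ 4 * s ^ 2 + ε ^ 6 := by ring
      have h3 : 0 ≤ 3 * ε ^ 4 * s ^ 2 + ε ^ 6 := by positivity
      linarith
    exact le_of_sq_le_sq h2 (by positivity)
  have h2 : t / s ^ 2 = 1 - ε ^ 2 / s ^ 2 := by
    have : t = s ^ 2 - ε ^ 2 := by linarith
    rw [this]; field_simp
  have h3 : ε ^ 2 / s ^ 2 ≤ ε / r := by
    rw [div_le_div_iff₀ (by positivity) hr]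
    have : ε * r ≤ s * s := mul_le_mul hεs hrs hr.le hs.le
    nlinarith
  have h4 : α * (2 / s + ε ^ 2 / s ^ 3) ≤ α * (2 / r) := mul_le_mul_of_nonneg_left h1 hα
  have h5 : α ^ 2 * (ε ^ 2 / s ^ 2) ≤ α ^ 2 * (ε / r) :=
    mul_le_mul_of_nonneg_left h3 (by positivity)
  have h6 : α * (2 / r) + α ^ 2 * (ε / r) ≤ 1 / r := by
    have : α * (2 / r) + α ^ 2 * (ε / r) = (2 * α + α ^ 2 * ε) / r := by ring
    rw [this]
    exact div_le_div_of_nonneg_right hαε hr.le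
  rw [h2]
  linarith

theorem ut_smooth {ρ α ε : ℝ} (hρ : 0 < ρ) (hε : 0 < ε) : ContDiff ℝ 1 (ut ρ α ε) :=
  (orb_ut hρ hε).c1

theorem ut_hcs {ρ α ε : ℝ} (hρ : 0 < ρ) (hε : 0 < ε) : HasCompactSupport (ut ρ α ε) := by
  refine HasCompactSupport.intro (isCompact_closedBall (0 : R3) ρ) (fun z hz => ?_)
  apply (orb_ut (α := α) hρ hε).zero
  rw [Metric.mem_closedBall, dist_zero_right, not_le] at hz
  exact hz.le

/-- the error term of the trial function -/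
noncomputable def rem (ρ α ε : ℝ) (z : R3) : ℝ :=
  ∑ a, (fderiv ℝ (ut ρ α ε) z (EuclideanSpace.single a 1)
    + α * (z a / √(‖z‖ ^ 2 + ε ^ 2)) * ut ρ α ε z) ^ 2

theorem rem_le {ρ α ε : ℝ} (hρ : 0 < ρ) (hε : 0 < ε) (hα : 0 ≤ α) (z : R3) :
    rem ρ α ε z ≤ (Metric.closedBall (0 : R3) ρ).indicator
      (fun _ => 256 / ρ ^ 2 * Real.exp (-(7 / 5 * α * ρ))) z := by
  obtain ⟨d, hd4, hne, hder⟩ := ut_deriv (α := α) hρ hε z
  have e1 : rem ρ α ε z = (Real.exp (-(α * √(‖z‖ ^ 2 + ε ^ 2)))) ^ 2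
      * (d ^ 2 * (16 * ‖z‖ ^ 2 / ρ ^ 4)) := by
    unfold rem
    simp_rw [hder]
    rw [Fin.sum_univ_three, norm_sq_three z]
    field_simp
    ring
  rw [e1]
  by_cases hd : d = 0
  · rw [hd]
    simp only [ne_eq, OfNat.ofNat_ne_zero, not_false_eq_true, zero_pow, zero_mul, mul_zero]
    exact Set.indicator_nonneg (fun _ _ => by positivity) z
  · obtain ⟨h1, h2⟩ := hne hd
    have hz : ‖z‖ ≤ ρ := le_of_sq_le_sq h2 hρ.le
    rw [Set.indicator_of_mem (by rw [Metric.mem_closedBall, dist_zero_right]; exact hz)]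
    have hd2 : d ^ 2 ≤ 16 := by
      rw [abs_le] at hd4; nlinarith
    have h3 : d ^ 2 * (16 * ‖z‖ ^ 2 / ρ ^ 4) ≤ 256 / ρ ^ 2 := by
      have : 16 * ‖z‖ ^ 2 / ρ ^ 4 ≤ 16 / ρ ^ 2 := by
        rw [div_le_div_iff₀ (by positivity) (by positivity)]
        nlinarith [mul_le_mul_of_nonneg_right h2 (by positivity : (0 : ℝ) ≤ ρ ^ 2)]
      calc d ^ 2 * (16 * ‖z‖ ^ 2 / ρ ^ 4) ≤ 16 * (16 / ρ ^ 2) :=
            mul_le_mul hd2 this (by positivity) (by norm_num)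
        _ = 256 / ρ ^ 2 := by ring
    have hs : 7 / 10 * ρ ≤ √(‖z‖ ^ 2 + ε ^ 2) := by
      apply Real.le_sqrt_of_sq_le
      nlinarith [sq_nonneg ε, sq_nonneg ρ]
    have h4 : (Real.exp (-(α * √(‖z‖ ^ 2 + ε ^ 2)))) ^ 2 ≤ Real.exp (-(7 / 5 * α * ρ)) := by
      rw [← Real.exp_nat_mul]
      apply Real.exp_le_exp.2
      push_cast
      nlinarith [mul_le_mul_of_nonneg_left hs hα]
    calc _ ≤ Real.exp (-(7 / 5 * α * ρ)) * (256 / ρ ^ 2) :=
          mul_le_mul h4 h3 (by positivity) (by positivity)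
      _ = _ := by ring

theorem ut_one {ρ α ε : ℝ} (hρ : 2 ≤ ρ ^ 2) (hα2 : α ≤ 1 / 2) (hε0 : 0 < ε)
    (hε : ε ≤ 1) (z : R3) (hz : z ∈ Metric.ball (0 : R3) 1) :
    Real.exp (-2) ≤ ut ρ α ε z ^ 2 := by
  rw [Metric.mem_ball, dist_zero_right] at hz
  have hz2 : ‖z‖ ^ 2 ≤ 1 := by nlinarith [norm_nonneg z]
  have hρ0 : 0 < ρ ^ 2 := by linarith
  unfold ut Ut
  have h1 : 1 ≤ 2 - 2 * ‖z‖ ^ 2 / ρ ^ 2 := by
    have : 2 * ‖z‖ ^ 2 / ρ ^ 2 ≤ 1 := by rw [div_le_one hρ0]; linarith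
    linarith
  rw [Real.smoothTransition.one_of_one_le h1, one_mul, ← Real.exp_nat_mul]
  apply Real.exp_le_exp.2
  have h2 : √(‖z‖ ^ 2 + ε ^ 2) ≤ 2 := by
    rw [show (2 : ℝ) = √(2 ^ 2) by rw [Real.sqrt_sq (by norm_num)]]
    apply Real.sqrt_le_sqrt
    nlinarith
  have h3 : 0 ≤ √(‖z‖ ^ 2 + ε ^ 2) := Real.sqrt_nonneg _
  push_cast
  nlinarith [mul_le_mul hα2 h2 h3 (by norm_num)]

theorem integrable_normsq_real {V : Type*} [NormedAddCommGroup V] [NormedSpace ℝ V]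
    [FiniteDimensional ℝ V] [MeasurableSpace V] [BorelSpace V] {μ : Measure V}
    [μ.IsAddHaarMeasure] {u g : V → ℝ} (hu : Continuous u) (hc : HasCompactSupport u)
    (hg : Continuous g) : Integrable (fun z => g z * u z ^ 2) μ := by
  have h1 : Continuous (fun z => g z * u z ^ 2) := hg.mul (hu.pow 2)
  have h2 : HasCompactSupport (fun z => g z * u z ^ 2) :=
    (hc.comp_left (g := fun t : ℝ => t ^ 2) (by simp)).mul_left
  exact h1.integrable_of_hasCompactSupport h2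

theorem ut_energy {ρ α ε : ℝ} (hρ : 0 < ρ) (hρ2 : 2 ≤ ρ ^ 2) (hα : 0 ≤ α) (hα2 : α ≤ 1 / 2)
    (hε : 0 < ε) (hε1 : ε ≤ 1) (hαε : 2 * α + α ^ 2 * ε ≤ 1) :
    Integrable (fun z : R3 => 1 / ‖z‖ * ut ρ α ε z ^ 2) ∧
    (∑ a, ∫ z, (fderiv ℝ (ut ρ α ε) z (EuclideanSpace.single a 1)) ^ 2)
      - (∫ z, 1 / ‖z‖ * ut ρ α ε z ^ 2)
      ≤ (-α ^ 2 + 256 * ρ * Real.exp (2 - 7 / 5 * α * ρ)) * ∫ z, ut ρ α ε z ^ 2 := by
  set u := ut ρ α ε with hu_def
  have hu : ContDiff ℝ 1 u := ut_smooth hρ hε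
  have hc : HasCompactSupport u := ut_hcs hρ hε
  -- integrability of the Coulomb term
  have hcoul : Integrable (fun z : R3 => 1 / ‖z‖ * u z ^ 2) := by
    have hf : ContDiff ℝ 1 (fun z => (u z : ℂ)) := Complex.ofRealCLM.contDiff.comp hu
    have hfc : HasCompactSupport (fun z => (u z : ℂ)) :=
      hc.comp_left (g := fun t : ℝ => (t : ℂ)) (by simp)
    have := integrable_coulomb (μ := (volume : Measure R3)) 0 (ContinuousLinearMap.id ℝ R3)
      (fun a => EuclideanSpace.single a 1) (fun a => by simp) _ hf hfc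
    simpa using this
  refine ⟨hcoul, ?_⟩
  set F : Fin 3 → R3 → ℝ := fun a => fld (hreg (fun _ => 1) ε) 0 a with hF
  have hFc : ∀ a, ContDiff ℝ 1 (F a) := fun a => contDiff_hreg_one hε a
  set G : Fin 3 → R3 → ℝ := fun a z => F a z * u z ^ 2 with hG
  have hGc : ∀ a, ContDiff ℝ 1 (G a) := fun a => (hFc a).mul (hu.pow 2)
  have hGs : ∀ a, HasCompactSupport (G a) := fun a =>
    (hc.comp_left (g := fun t : ℝ => t ^ 2) (by simp)).mul_left
  have hGz : ∀ a, ∫ z, fderiv ℝ (G a) z (EuclideanSpace.single a 1) = 0 := fun a =>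
    integral_fderiv_zero (G a) (hGc a) (hGs a) _
  have hGd : ∀ a z, fderiv ℝ (G a) z (EuclideanSpace.single a 1) =
      fderiv ℝ (F a) z (EuclideanSpace.single a 1) * u z ^ 2
        + F a z * (2 * u z * fderiv ℝ u z (EuclideanSpace.single a 1)) := by
    intro a z
    have h1 : HasFDerivAt (F a) _ z := ((hFc a).differentiable (by norm_num) z).hasFDerivAt
    have h2 : HasFDerivAt u _ z := (hu.differentiable (by norm_num) z).hasFDerivAt
    have h3 : HasFDerivAt (G a) _ z := h1.fun_mul (h2.pow 2)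
    rw [h3.fderiv]
    simp only [add_apply, smul_apply, smul_eq_mul, nsmul_eq_mul]
    norm_num
    ring
  have hiG : ∀ a, Integrable (fun z => fderiv ℝ (G a) z (EuclideanSpace.single a 1)) := fun a =>
    (continuous_dir (hGc a) _).integrable_of_hasCompactSupport
      ((hGs a).fderiv_apply (𝕜 := ℝ) (v := EuclideanSpace.single a 1))
  have hiD : ∀ a, Integrable (fun z => (fderiv ℝ u z (EuclideanSpace.single a 1)) ^ 2) := by
    intro a
    have h1 : Continuous (fun z => (fderiv ℝ u z (EuclideanSpace.single a 1)) ^ 2) :=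
      (continuous_dir hu _).pow 2
    have h2 : HasCompactSupport (fun z => (fderiv ℝ u z (EuclideanSpace.single a 1)) ^ 2) :=
      (hc.fderiv_apply (𝕜 := ℝ) (v := EuclideanSpace.single a 1)).comp_left
        (g := fun t : ℝ => t ^ 2) (by simp)
    exact h1.integrable_of_hasCompactSupport h2
  set D : R3 → ℝ := fun z => ∑ a, (α * fderiv ℝ (F a) z (EuclideanSpace.single a 1)
    - α ^ 2 * F a z ^ 2) with hD
  have hDc : Continuous D := by
    refine continuous_finsetSum _ (fun a _ => ?_)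
    exact (continuous_const.mul (continuous_dir (hFc a) _)).sub
      (continuous_const.mul ((hFc a).continuous.pow 2))
  have hiDu : Integrable (fun z => D z * u z ^ 2) :=
    integrable_normsq_real hu.continuous hc hDc
  have hpt : ∀ z, ∑ a, (fderiv ℝ u z (EuclideanSpace.single a 1)) ^ 2 =
      rem ρ α ε z + D z * u z ^ 2
        - α * ∑ a, fderiv ℝ (G a) z (EuclideanSpace.single a 1) := by
    intro z
    simp only [rem, hD]
    rw [← hu_def, Finset.sum_mul, Finset.mul_sum, ← Finset.sum_add_distrib,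
      ← Finset.sum_sub_distrib]
    refine Finset.sum_congr rfl (fun a _ => ?_)
    rw [hGd a z]
    have : F a z = z a / √(‖z‖ ^ 2 + ε ^ 2) := fld_one_eq ε a z
    rw [this]
    ring
  have hiGs : Integrable (fun z => ∑ a, fderiv ℝ (G a) z (EuclideanSpace.single a 1)) :=
    integrable_finsetSum _ (fun a _ => hiG a)
  have hiDs : Integrable (fun z => ∑ a, (fderiv ℝ u z (EuclideanSpace.single a 1)) ^ 2) :=
    integrable_finsetSum _ (fun a _ => hiD a)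
  have hiR : Integrable (fun z => rem ρ α ε z) := by
    refine ((hiDs.sub hiDu).add (hiGs.const_mul α)).congr (ae_of_all _ (fun z => ?_))
    simp only [Pi.add_apply, Pi.sub_apply]
    rw [hpt z]; ring
  have hsum : ∑ a, ∫ z, (fderiv ℝ u z (EuclideanSpace.single a 1)) ^ 2 =
      (∫ z, rem ρ α ε z) + ∫ z, D z * u z ^ 2 := by
    rw [← integral_finsetSum _ (fun a _ => hiD a)]
    simp_rw [hpt]
    have hsub := integral_sub (hiR.add hiDu) (hiGs.const_mul α)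
    simp only [Pi.add_apply] at hsub
    rw [hsub, integral_add hiR hiDu,
      integral_const_mul, integral_finsetSum _ (fun a _ => hiG a)]
    simp_rw [hGz]
    simp
  have hiu : Integrable (fun z => u z ^ 2) := by
    have := integrable_normsq_real (μ := (volume : Measure R3)) hu.continuous hc
      (continuous_const (y := (1 : ℝ)))
    simpa using this
  -- the main part
  have hmain : ∫ z, D z * u z ^ 2 ≤ (∫ z, 1 / ‖z‖ * u z ^ 2) - α ^ 2 * ∫ z, u z ^ 2 := by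
    rw [← integral_const_mul, ← integral_sub hcoul (hiu.const_mul _)]
    refine integral_mono_ae hiDu (hcoul.sub (hiu.const_mul _)) ?_
    have hne : ∀ᵐ z : R3, z ≠ 0 := by
      rw [ae_iff]
      simp
    filter_upwards [hne] with z hz
    have hp : 0 < ‖z‖ ^ 2 + ε ^ 2 := by positivity
    have hs : 0 < √(‖z‖ ^ 2 + ε ^ 2) := Real.sqrt_pos.2 hp
    have hs2 : √(‖z‖ ^ 2 + ε ^ 2) ^ 2 = ‖z‖ ^ 2 + ε ^ 2 := Real.sq_sqrt hp.le
    have h1 := trial_pointwise hα (norm_pos_iff.2 hz) rfl hs hs2 hε hαε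
    have h2 : D z = α * (2 / √(‖z‖ ^ 2 + ε ^ 2) + ε ^ 2 / √(‖z‖ ^ 2 + ε ^ 2) ^ 3)
        - α ^ 2 * (‖z‖ ^ 2 / √(‖z‖ ^ 2 + ε ^ 2) ^ 2) := by
      simp only [hD]
      rw [Finset.sum_sub_distrib, ← Finset.mul_sum, ← Finset.mul_sum, hF, fld_one_div hε z]
      congr 2
      simp_rw [fld_one_eq]
      rw [Fin.sum_univ_three, norm_sq_three z]
      ring
    show D z * u z ^ 2 ≤ 1 / ‖z‖ * u z ^ 2 - α ^ 2 * u z ^ 2
    rw [h2, ← sub_mul]
    exact mul_le_mul_of_nonneg_right h1 (sq_nonneg _)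
  -- the remainder
  set v₁ : ℝ := (volume : Measure R3).real (Metric.ball (0 : R3) 1) with hv₁
  have hv₁0 : 0 ≤ v₁ := measureReal_nonneg
  have hrem : ∫ z, rem ρ α ε z ≤ 256 / ρ ^ 2 * Real.exp (-(7 / 5 * α * ρ)) * (ρ ^ 3 * v₁) := by
    have h1 : ∫ z, rem ρ α ε z ≤ ∫ z, (Metric.closedBall (0 : R3) ρ).indicator
        (fun _ => 256 / ρ ^ 2 * Real.exp (-(7 / 5 * α * ρ))) z := by
      refine integral_mono hiR ?_ (fun z => rem_le hρ hε hα z)
      exact (integrable_indicator_iff measurableSet_closedBall).2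
        (integrableOn_const (isCompact_closedBall (0 : R3) ρ).measure_lt_top.ne)
    refine h1.trans (le_of_eq ?_)
    rw [integral_indicator measurableSet_closedBall, setIntegral_const, smul_eq_mul, mul_comm]
    congr 1
    rw [measureReal_def, Measure.addHaar_closedBall _ _ hρ.le, ENNReal.toReal_mul,
      ENNReal.toReal_ofReal (by positivity), hv₁, measureReal_def]
    simp
  have hlow : Real.exp (-2) * v₁ ≤ ∫ z, u z ^ 2 := by
    have h1 : ∫ z in Metric.ball (0 : R3) 1, Real.exp (-2) ≤ ∫ z in Metric.ball (0 : R3) 1,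
        u z ^ 2 := by
      refine setIntegral_mono_on (integrableOn_const measure_ball_lt_top.ne) hiu.integrableOn
        measurableSet_ball (fun z hz => ?_)
      exact ut_one hρ2 hα2 hε hε1 z hz
    have h2 : ∫ z in Metric.ball (0 : R3) 1, u z ^ 2 ≤ ∫ z, u z ^ 2 :=
      setIntegral_le_integral hiu (ae_of_all _ (fun z => sq_nonneg _))
    rw [setIntegral_const, smul_eq_mul, mul_comm] at h1
    exact h1.trans h2
  have hfin : 256 / ρ ^ 2 * Real.exp (-(7 / 5 * α * ρ)) * (ρ ^ 3 * v₁) ≤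
      256 * ρ * Real.exp (2 - 7 / 5 * α * ρ) * ∫ z, u z ^ 2 := by
    have e1 : 256 / ρ ^ 2 * Real.exp (-(7 / 5 * α * ρ)) * (ρ ^ 3 * v₁) =
        256 * ρ * Real.exp (2 - 7 / 5 * α * ρ) * (Real.exp (-2) * v₁) := by
      have : Real.exp (-(7 / 5 * α * ρ)) = Real.exp (2 - 7 / 5 * α * ρ) * Real.exp (-2) := by
        rw [← Real.exp_add]; congr 1; ring
      rw [this]
      field_simp
    rw [e1]
    exact mul_le_mul_of_nonneg_left hlow (by positivity)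
  rw [hsum]
  linarith

end Pool.Agent.helper840_dilute
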